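import Mathlib

/-!
Definitions for the width of the typical Poisson-Voronoi cell in high dimension.
-/

namespace Pool.Agent.H95w

open MeasureTheory ProbabilityTheory Set Metric
open scoped InnerProductSpace ENNReal NNReal

/-- `IsPoisson P m Z`: under the probability measure `P`, the random set `Z` is a Poisson point
process with intensity measure `m`: the number of points of `Z` in every measurable set is a random
variable, it has the Poisson law with mean `m A` whenever `m A` is finite, and the numbers of points
in pairwise disjoint measurable sets are independent. -/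
structure IsPoisson {Ω : Type*} [MeasurableSpace Ω] (P : Measure Ω) {X : Type*}
    [MeasurableSpace X] (m : Measure X) (Z : Ω → Set X) : Prop where
  meas : ∀ A : Set X, MeasurableSet A → Measurable fun ω => (Z ω ∩ A).encard
  law : ∀ A : Set X, MeasurableSet A → m A ≠ ∞ → ∀ k : ℕ,
    P {ω | (Z ω ∩ A).encard = k} =
      ENNReal.ofReal (Real.exp (-(m A).toReal) * (m A).toReal ^ k / (k.factorial : ℝ))
  indep : ∀ (n : ℕ) (A : Fin n → Set X), (∀ i, MeasurableSet (A i)) →
    Pairwise (Function.onFun Disjoint A) → iIndepFun (fun i ω => (Z ω ∩ A i).encard) P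

/-- The Voronoi cell of the origin in the tessellation generated by `Z` and the origin. -/
def cell {d : ℕ} (Z : Set (EuclideanSpace ℝ (Fin d))) : Set (EuclideanSpace ℝ (Fin d)) :=
  {x | ∀ z ∈ Z, ‖x‖ ≤ ‖x - z‖}

/-- The width of `K` in the direction `u`: the maximum minus the minimum over `K` of the inner
product with `u`. -/
noncomputable def widthDir {d : ℕ} (u : EuclideanSpace ℝ (Fin d))
    (K : Set (EuclideanSpace ℝ (Fin d))) : ℝ :=
  sSup ((fun x => inner ℝ u x) '' K) - sInf ((fun x => inner ℝ u x) '' K)

/-- The width of `K`: the infimum of `widthDir u K` over all unit vectors `u`. -/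
noncomputable def width {d : ℕ} (K : Set (EuclideanSpace ℝ (Fin d))) : ℝ :=
  sInf ((fun u => widthDir u K) '' sphere (0 : EuclideanSpace ℝ (Fin d)) 1)

/-- The volume of the unit ball of `ℝ^d`. -/
noncomputable def kap (d : ℕ) : ℝ := (volume (ball (0 : EuclideanSpace ℝ (Fin d)) 1)).toReal

/-- The normalised width of the cell of the origin, for a process of intensity `l` in `ℝ^d`. -/
noncomputable def normWidth (d : ℕ) (l : ℝ) (Z : Set (EuclideanSpace ℝ (Fin d))) : ℝ :=
  (l * kap d) ^ ((1 : ℝ) / d) * width (cell Z)

end Pool.Agent.H95w
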