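import Pool.Agent.H95w.Defs

namespace Pool.Agent.H95w

open MeasureTheory ProbabilityTheory Set Metric
open scoped InnerProductSpace ENNReal NNReal

section Dual

set_option linter.unusedSectionVars false
set_option linter.unnecessarySimpa false

variable {V : Type*} [NormedAddCommGroup V] [InnerProductSpace ℝ V]

/-- Cost of a finitely supported weight. -/
noncomputable def cst (Z : Set V) : (Z →₀ ℝ≥0) →ₗ[ℝ≥0] ℝ :=
  Finsupp.linearCombination ℝ≥0 (fun z : Z => ‖(z : V)‖ ^ 2 / 2)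

/-- Vector of a finitely supported weight. -/
noncomputable def vec (Z : Set V) : (Z →₀ ℝ≥0) →ₗ[ℝ≥0] V :=
  Finsupp.linearCombination ℝ≥0 (fun z : Z => (z : V))

lemma cst_nonneg (Z : Set V) (l : Z →₀ ℝ≥0) : 0 ≤ cst Z l := by
  unfold cst
  rw [Finsupp.linearCombination_apply]
  apply Finsupp.sum_nonneg
  intro i _
  rw [NNReal.smul_def]
  positivity

/-- The value of the dual problem for the direction `u`. -/
noncomputable def gg (Z : Set V) (u : V) : ℝ := ⨅ l : Z →₀ ℝ≥0, (cst Z l + ‖u - vec Z l‖)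

lemma gg_bdd (Z : Set V) (u : V) :
    BddBelow (range fun l : Z →₀ ℝ≥0 => (cst Z l + ‖u - vec Z l‖)) :=
  ⟨0, by rintro _ ⟨l, rfl⟩; have := cst_nonneg Z l; positivity⟩

lemma gg_le (Z : Set V) (u : V) (l : Z →₀ ℝ≥0) : gg Z u ≤ cst Z l + ‖u - vec Z l‖ :=
  ciInf_le (gg_bdd Z u) l

lemma gg_le_norm (Z : Set V) (u : V) : gg Z u ≤ ‖u‖ := by
  have := gg_le Z u 0
  simpa using this

lemma gg_nonneg (Z : Set V) (u : V) : 0 ≤ gg Z u := by
  apply le_ciInf
  intro l
  have := cst_nonneg Z l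
  positivity

lemma gg_smul (Z : Set V) (c : ℝ) (hc : 0 < c) (u : V) : gg Z (c • u) = c * gg Z u := by
  have key : ∀ (c : ℝ) (_ : 0 < c) (u : V), gg Z (c • u) ≤ c * gg Z u := by
    intro c hc u
    unfold gg
    rw [Real.mul_iInf_of_nonneg hc.le]
    apply le_ciInf
    intro l
    refine (ciInf_le (gg_bdd Z (c • u)) ((Real.toNNReal c) • l)).trans (le_of_eq ?_)
    rw [map_smul, map_smul, NNReal.smul_def, NNReal.smul_def]
    rw [Real.coe_toNNReal c hc.le, smul_eq_mul]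
    rw [← smul_sub, norm_smul, Real.norm_of_nonneg hc.le]
    ring
  apply le_antisymm (key c hc u)
  have := key c⁻¹ (inv_pos.2 hc) (c • u)
  rw [smul_smul, inv_mul_cancel₀ hc.ne', one_smul] at this
  calc c * gg Z u ≤ c * (c⁻¹ * gg Z (c • u)) := by gcongr
    _ = gg Z (c • u) := by field_simp

lemma gg_add (Z : Set V) (u v : V) : gg Z (u + v) ≤ gg Z u + gg Z v := by
  unfold gg
  have : ∀ l l' : Z →₀ ℝ≥0, (⨅ l : Z →₀ ℝ≥0, (cst Z l + ‖(u + v) - vec Z l‖)) ≤
      (cst Z l + ‖u - vec Z l‖) + (cst Z l' + ‖v - vec Z l'‖) := by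
    intro l l'
    refine (ciInf_le (gg_bdd Z (u + v)) (l + l')).trans ?_
    rw [map_add, map_add]
    have h : (u + v) - (vec Z l + vec Z l') = (u - vec Z l) + (v - vec Z l') := by abel
    rw [h]
    have := norm_add_le (u - vec Z l) (v - vec Z l')
    linarith
  have h2 : ∀ l : Z →₀ ℝ≥0, (⨅ l : Z →₀ ℝ≥0, (cst Z l + ‖(u + v) - vec Z l‖)) -
      (cst Z l + ‖u - vec Z l‖) ≤ ⨅ l' : Z →₀ ℝ≥0, (cst Z l' + ‖v - vec Z l'‖) := by
    intro l
    apply le_ciInf
    intro l'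
    linarith [this l l']
  have h3 : (⨅ l : Z →₀ ℝ≥0, (cst Z l + ‖(u + v) - vec Z l‖)) -
      (⨅ l' : Z →₀ ℝ≥0, (cst Z l' + ‖v - vec Z l'‖)) ≤
      ⨅ l : Z →₀ ℝ≥0, (cst Z l + ‖u - vec Z l‖) := by
    apply le_ciInf
    intro l
    linarith [h2 l]
  linarith

/-- Strong duality: the dual value is attained by a point of the cell in the unit ball. -/
theorem dual_point [FiniteDimensional ℝ V] (Z : Set V) (u : V) :
    ∃ x : V, (∀ z ∈ Z, ‖x‖ ≤ ‖x - z‖) ∧ ‖x‖ ≤ 1 ∧ ⟪u, x⟫_ℝ = gg Z u := by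
  obtain ⟨g, hg1, hg2⟩ : ∃ g : V →ₗ[ℝ] ℝ, g u = gg Z u ∧ ∀ x, g x ≤ gg Z x := by
    by_cases hu : u = 0
    · subst hu
      refine ⟨0, ?_, fun x => ?_⟩
      · have h1 := gg_le_norm Z (0 : V)
        have h2 := gg_nonneg Z (0 : V)
        simp only [norm_zero] at h1
        simp [le_antisymm h1 h2]
      · simpa using gg_nonneg Z x
    let f : V →ₗ.[ℝ] ℝ := LinearPMap.mkSpanSingleton u (gg Z u) hu
    obtain ⟨g, h1, h2⟩ := exists_extension_of_le_sublinear f (gg Z) (fun c hc x => gg_smul Z c hc x)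
      (gg_add Z) (by
        rintro ⟨x, hx⟩
        obtain ⟨t, rfl⟩ := Submodule.mem_span_singleton.1 hx
        have e : f ⟨t • u, hx⟩ = t • gg Z u := LinearPMap.mkSpanSingleton'_apply _ _ _ _ _
        rw [e]
        change t * gg Z u ≤ gg Z (t • u)
        rcases lt_trichotomy t 0 with ht | ht | ht
        · have h0 : 0 ≤ gg Z (t • u) + gg Z ((-t) • u) := by
            have := gg_add Z (t • u) ((-t) • u)
            rw [← add_smul] at this
            simp only [add_neg_cancel, zero_smul] at this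
            exact (gg_nonneg Z 0).trans this
          rw [gg_smul Z (-t) (by linarith) u] at h0
          linarith
        · subst ht
          simpa using gg_nonneg Z (0 : V)
        · rw [gg_smul Z t ht])
    refine ⟨g, ?_, h2⟩
    have h3 := h1 ⟨u, Submodule.mem_span_singleton_self u⟩
    rw [h3]
    have : f ⟨(1 : ℝ) • u, by rw [one_smul]; exact Submodule.mem_span_singleton_self u⟩
      = (1 : ℝ) • gg Z u := LinearPMap.mkSpanSingleton'_apply _ _ _ _ _
    simpa using this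
  let gc : StrongDual ℝ V := LinearMap.toContinuousLinearMap g
  let x : V := (InnerProductSpace.toDual ℝ V).symm gc
  have hx : ∀ y, ⟪x, y⟫_ℝ = g y := fun y => by
    have := InnerProductSpace.toDual_symm_apply (𝕜 := ℝ) (x := y) (y := gc)
    simpa [x, gc] using this
  refine ⟨x, fun z hz => ?_, ?_, ?_⟩
  · have h1 : ⟪x, z⟫_ℝ ≤ ‖z‖ ^ 2 / 2 := by
      rw [hx]
      refine (hg2 z).trans ((gg_le Z z (Finsupp.single ⟨z, hz⟩ 1)).trans ?_)
      simp [cst, vec]
    have h2 : ‖x - z‖ ^ 2 = ‖x‖ ^ 2 - 2 * ⟪x, z⟫_ℝ + ‖z‖ ^ 2 := by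
      rw [norm_sub_sq_real]
    have h3 : ‖x‖ ^ 2 ≤ ‖x - z‖ ^ 2 := by rw [h2]; linarith
    exact le_of_sq_le_sq h3 (norm_nonneg _) |>.trans (le_refl _)
  · by_contra hcon
    push Not at hcon
    have h1 : ‖x‖ ^ 2 ≤ ‖x‖ := by
      rw [← real_inner_self_eq_norm_sq, hx]
      exact (hg2 x).trans (gg_le_norm Z x)
    nlinarith
  · rw [real_inner_comm, hx, hg1]

end Dual

end Pool.Agent.H95w
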