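import Pool.Agent.H95w.Second

namespace Pool.Agent.H95w

open MeasureTheory ProbabilityTheory Set Metric Matrix Filter
open scoped InnerProductSpace ENNReal NNReal Topology Kronecker

section
variable {ι : Type*} [Fintype ι] [DecidableEq ι]

/-- a chosen point of a box -/
noncomputable def pt {d : ℕ} {h : ℝ} (hh : 0 < h) (k : Fin d → ℤ) : E d := (cub_nonempty hh k).some

lemma pt_mem {d : ℕ} {h : ℝ} (hh : 0 < h) (k : Fin d → ℤ) : pt hh k ∈ cub h k :=
  (cub_nonempty hh k).some_mem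

omit [Fintype ι] in
lemma exists_image {κ : Type*} (F : Finset (ι → κ)) (S : Finset ι) (k : ι → κ) :
    ∃ 𝒦 : Finset ({i // i ∉ S} → κ), 𝒦.card = cnt F S k ∧
      ∀ κ' ∈ 𝒦, ∃ k' ∈ F, (∀ i ∈ S, k' i = k i) ∧ κ' = fun i : {i // i ∉ S} => k' i := by
  classical
  refine ⟨(F.filter fun k' => ∀ i ∈ S, k' i = k i).image
      (fun k' => fun i : {i // i ∉ S} => k' i), ?_, ?_⟩
  · unfold cnt
    have hinj : InjOn (fun (k' : ι → κ) => fun i : {i // i ∉ S} => k' i)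
        ((F.filter fun k' => ∀ i ∈ S, k' i = k i) : Finset (ι → κ)) := by
      intro a ha b hb hab
      have ha' := (Finset.mem_filter.1 ha).2
      have hb' := (Finset.mem_filter.1 hb).2
      funext i
      by_cases hi : i ∈ S
      · rw [ha' i hi, hb' i hi]
      · exact congrFun hab ⟨i, hi⟩
    rw [Finset.card_image_of_injOn hinj]
  · intro κ' hκ'
    obtain ⟨k', hk', rfl⟩ := Finset.mem_image.1 hκ'
    obtain ⟨hk'F, hk'S⟩ := Finset.mem_filter.1 hk'
    exact ⟨k', hk'F, hk'S, rfl⟩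

/-- Number of extensions of a partial tuple. -/
lemma ext_count {D : ℕ} (P : ι → E D) (S : Finset ι)
    (hS : (gram ℝ (fun i : S => P i)).det ≠ 0) {θ : ℝ}
    (hθ : (gram ℝ P).det / (gram ℝ (fun i : S => P i)).det < θ) :
    ∃ ρ δ : ℝ, 0 < δ ∧ 0 ≤ ρ ∧ ρ < √θ ∧ ∀ (d : ℕ) (h : ℝ), 0 < h →
      ∀ F : Finset (ι → Fin d → ℤ), (∀ k ∈ F, box h k ⊆ nearP P d δ) → ∀ k ∈ F,
      (cnt F S k : ℝ) * (h ^ d / kap d) ^ (Fintype.card ι - S.card) ≤ ρ ^ d := by
  classical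
  obtain ⟨B, C, δ, hδ, hB0, hB1, hBC⟩ := exists_ext P S hS hθ
  refine ⟨|B.det|⁻¹, δ, hδ, by positivity, inv_abs_lt_sqrt hB0 hB1, ?_⟩
  intro d h hh F hF k hk
  set z₀ : ι → E d := fun i => pt hh (k i) with hz₀
  set w : {i // i ∉ S} → E d := fun j => ∑ i : S, C i j • z₀ i with hw
  have h1 := nv_lin d hB0 w one_pos
  rw [one_pow, one_pow, mul_one] at h1
  rw [← h1]
  have hcS : Fintype.card ι - S.card = Fintype.card {i // i ∉ S} := by
    rw [Fintype.card_subtype_compl, Fintype.card_coe]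
  rw [hcS]
  obtain ⟨𝒦, h2, h𝒦⟩ := exists_image F S k
  rw [← h2]
  apply card_le hh _ _ (volume_lin_ne_top d hB0 w one_pos)
  intro κ hκ y hy
  obtain ⟨k', hk'F, hk'S, rfl⟩ := h𝒦 κ hκ
  let z : ι → E d := fun i => if hi : i ∈ S then z₀ i else y ⟨i, hi⟩
  have hz : z ∈ box h k' := by
    intro i _
    simp only [z]
    by_cases hi : i ∈ S
    · rw [dif_pos hi, hk'S i hi]
      exact pt_mem hh _
    · rw [dif_neg hi]
      exact hy ⟨i, hi⟩ (mem_univ _)
  have hz2 := hBC d z (hF k' hk'F hz)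
  intro j
  have h3 := hz2 j
  have e1 : ∑ i : {i // i ∉ S}, B i j • z i = ∑ i : {i // i ∉ S}, B i j • y i := by
    apply Finset.sum_congr rfl
    intro i _
    simp only [z]
    rw [dif_neg i.2]
  have e2 : ∑ i : S, C i j • z i = w j := by
    rw [hw]
    apply Finset.sum_congr rfl
    intro i _
    simp only [z]
    rw [dif_pos i.2]
  rwa [e1, e2] at h3

omit [Fintype ι] [DecidableEq ι] in
lemma nearP_mono {D : ℕ} {P : ι → E D} {d : ℕ} {δ δ' : ℝ} (h : δ ≤ δ') :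
    nearP P d δ ⊆ nearP P d δ' := fun _ hz i j => (hz i j).trans h

end

lemma det_gram_univ {D m : ℕ} (P : Fin m → E D) :
    (gram ℝ (fun i : (Finset.univ : Finset (Fin m)) => P i)).det = (gram ℝ P).det := by
  let e : (Finset.univ : Finset (Fin m)) ≃ Fin m := Equiv.subtypeUnivEquiv (fun i => Finset.mem_univ i)
  rw [← Matrix.det_submatrix_equiv_self e (gram ℝ P)]
  rfl

/-- **Near optimal configurations do occur.** -/
theorem exist_prob {D m : ℕ} (P₀ : Fin m → E D)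
    (hadm : ∀ S : Finset (Fin m), S.Nonempty → 1 < (gram ℝ (fun i : S => P₀ i)).det)
    (hinj : Function.Injective (fun i => ‖P₀ i‖)) {t : ℝ} (ht : 0 < t) {ε : ℝ} (hε : 0 < ε) :
    ∀ᶠ d : ℕ in atTop, ∀ {Ω : Type*} [MeasurableSpace Ω] (P : Measure Ω) [IsProbabilityMeasure P]
      (Z : Ω → Set (E d)), IsPoisson P (mu d) Z →
      P {ω | ¬ ∃ z : Fin m → E d, (∀ i, z i ∈ Z ω) ∧
        ∀ i j, |⟪z i, z j⟫_ℝ - ⟪P₀ i, P₀ j⟫_ℝ| ≤ t ^ 2} ≤ ENNReal.ofReal ε := by
  rcases Nat.eq_zero_or_pos m with rfl | hm0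
  · refine Filter.Eventually.of_forall fun d => ?_
    intro Ω _ P _ Z _
    have : {ω | ¬ ∃ z : Fin 0 → E d, (∀ i, z i ∈ Z ω) ∧
        ∀ i j, |⟪z i, z j⟫_ℝ - ⟪P₀ i, P₀ j⟫_ℝ| ≤ t ^ 2} = ∅ := by
      ext ω
      simp only [mem_ofPred_eq, mem_empty_iff_false, iff_false, not_not]
      exact ⟨Fin.elim0, fun i => i.elim0, fun i => i.elim0⟩
    rw [this, measure_empty]
    exact zero_le
  set G := (gram ℝ P₀).det with hG
  have hG1 : 1 < G := by
    rw [hG, ← det_gram_univ]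
    have : Nonempty (Fin m) := ⟨⟨0, hm0⟩⟩
    exact hadm _ Finset.univ_nonempty
  have hG0 : 0 < G := by linarith
  have hex : ∀ S : Finset (Fin m), ∃ ρ δ : ℝ, S.Nonempty → (0 < δ ∧ 0 ≤ ρ ∧ ρ < √G ∧
      ∀ (d : ℕ) (h : ℝ), 0 < h → ∀ F : Finset (Fin m → Fin d → ℤ),
      (∀ k ∈ F, box h k ⊆ nearP P₀ d δ) → ∀ k ∈ F,
      (cnt F S k : ℝ) * (h ^ d / kap d) ^ (m - S.card) ≤ ρ ^ d) := by
    intro S
    by_cases hS : S.Nonempty
    · have h1 := hadm S hS
      have h2 : G / (gram ℝ (fun i : S => P₀ i)).det < G := by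
        rw [div_lt_iff₀ (by linarith)]
        nlinarith
      obtain ⟨ρ, δ, h3⟩ := ext_count P₀ S (by linarith) h2
      rw [Fintype.card_fin] at h3
      exact ⟨ρ, δ, fun _ => h3⟩
    · exact ⟨0, 0, fun h => absurd h hS⟩
  choose ρ δS hρδ using hex
  -- choose `δ`
  obtain ⟨δ, ⟨⟨hδt, hδgap⟩, hδS⟩, hδ0⟩ : ∃ δ : ℝ, ((δ < t ^ 2 ∧
      (∀ i j, i ≠ j → 2 * δ < |‖P₀ i‖ ^ 2 - ‖P₀ j‖ ^ 2|)) ∧
      ∀ S : Finset (Fin m), S.Nonempty → δ < δS S) ∧ 0 < δ := by
    have h1 : ∀ᶠ δ in 𝓝 (0 : ℝ), δ < t ^ 2 := eventually_lt_nhds (by positivity)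
    have h2 : ∀ᶠ δ in 𝓝 (0 : ℝ), ∀ i j, i ≠ j → 2 * δ < |‖P₀ i‖ ^ 2 - ‖P₀ j‖ ^ 2| := by
      rw [Filter.eventually_all]
      intro i
      rw [Filter.eventually_all]
      intro j
      by_cases hij : i = j
      · exact Filter.Eventually.of_forall fun δ h => absurd hij h
      · have h3 : 0 < |‖P₀ i‖ ^ 2 - ‖P₀ j‖ ^ 2| := by
          rw [abs_pos, sub_ne_zero]
          intro h
          apply hij
          apply hinj
          exact (pow_left_inj₀ (norm_nonneg _) (norm_nonneg _) two_ne_zero).1 h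
        have h4 : ∀ᶠ δ in 𝓝 (0 : ℝ), 2 * δ < |‖P₀ i‖ ^ 2 - ‖P₀ j‖ ^ 2| := by
          apply ContinuousAt.eventually_lt
          · fun_prop
          · fun_prop
          · simpa using h3
        exact h4.mono fun δ h _ => h
    have h3 : ∀ᶠ δ in 𝓝 (0 : ℝ), ∀ S : Finset (Fin m), S.Nonempty → δ < δS S := by
      rw [Filter.eventually_all]
      intro S
      by_cases hS : S.Nonempty
      · exact (eventually_lt_nhds (hρδ S hS).1).mono fun δ h _ => h
      · exact Filter.Eventually.of_forall fun δ h => absurd h hS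
    exact ((((h1.and h2).and h3).filter_mono nhdsWithin_le_nhds).and
      (self_mem_nhdsWithin : Ioi (0 : ℝ) ∈ 𝓝[>] (0 : ℝ))).exists
  have hGs : 0 < √G := Real.sqrt_pos.2 hG0
  -- the decay in `d`
  have hev : ∀ᶠ d : ℕ in atTop,
      ∑ S ∈ (Finset.univ : Finset (Finset (Fin m))).filter (fun S => S.Nonempty),
        2 * 3 ^ m * (ρ S / √G) ^ d ≤ ε := by
    have h1 : Tendsto (fun d : ℕ =>
        ∑ S ∈ (Finset.univ : Finset (Finset (Fin m))).filter (fun S => S.Nonempty),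
        2 * 3 ^ m * (ρ S / √G) ^ d) atTop
        (𝓝 (∑ S ∈ (Finset.univ : Finset (Finset (Fin m))).filter (fun S => S.Nonempty),
          (2 * 3 ^ m * 0 : ℝ))) := by
      apply tendsto_finsetSum
      intro S hS
      have hS' := hρδ S (Finset.mem_filter.1 hS).2
      apply Tendsto.const_mul
      apply tendsto_pow_atTop_nhds_zero_of_lt_one (div_nonneg hS'.2.1 hGs.le)
      rw [div_lt_one hGs]
      exact hS'.2.2.1
    simp only [mul_zero, Finset.sum_const_zero] at h1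
    exact h1.eventually (ge_mem_nhds hε)
  filter_upwards [hev, nv_nearP_ge (P := P₀) (show (gram ℝ P₀).det ≠ 0 by linarith)
    (half_pos hδ0), eventually_gt_atTop 0] with d hd1 hd2 hd0
  intro Ω _ P _ Z hZ
  have hκ := kap_pos d
  -- a bound for the norms
  set R := ∑ i, ‖P₀ i‖ + δ + 1 with hR
  have hR0 : 0 ≤ R := by
    have : 0 ≤ ∑ i, ‖P₀ i‖ := Finset.sum_nonneg fun _ _ => norm_nonneg _
    linarith
  have hRn : ∀ z ∈ nearP P₀ d (δ / 2), ∀ i, ‖z i‖ ≤ R := by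
    intro z hz i
    have h1 := nearP_bounded (by linarith) hz i
    have h2 : ‖P₀ i‖ ≤ ∑ i, ‖P₀ i‖ :=
      Finset.single_le_sum (f := fun i => ‖P₀ i‖) (fun _ _ => norm_nonneg _) (Finset.mem_univ i)
    linarith
  -- choose the mesh
  obtain ⟨h, ⟨⟨hq, hs1⟩, hs2⟩, hh⟩ : ∃ h : ℝ, ((h ^ d / kap d < 1 ∧ h * √d < 1) ∧
      (2 * R + 1) * (h * √d) < δ / 2) ∧ 0 < h := by
    have h1 : ∀ᶠ h in 𝓝 (0 : ℝ), h ^ d / kap d < 1 := by
      apply ContinuousAt.eventually_lt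
      · fun_prop
      · fun_prop
      · simp [hd0.ne']
    have h2 : ∀ᶠ h in 𝓝 (0 : ℝ), h * √d < 1 := by
      apply ContinuousAt.eventually_lt
      · fun_prop
      · fun_prop
      · simp
    have h3 : ∀ᶠ h in 𝓝 (0 : ℝ), (2 * R + 1) * (h * √d) < δ / 2 := by
      apply ContinuousAt.eventually_lt
      · fun_prop
      · fun_prop
      · simpa using hδ0
    exact ((((h1.and h2).and h3).filter_mono nhdsWithin_le_nhds).and
      (self_mem_nhdsWithin : Ioi (0 : ℝ) ∈ 𝓝[>] (0 : ℝ))).exists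
  set q := h ^ d / kap d with hqd
  have hq0 : 0 < q := by positivity
  have hp1 := pocc_ge d hh hq.le
  have hp0 : 0 < pocc d h := by
    have : 0 < q / 3 := by positivity
    linarith
  obtain ⟨N, hN⟩ := exists_nat_ge (R / h + 1)
  set F : Finset (Fin m → Fin d → ℤ) := @Finset.filter _ (fun k => box h k ⊆ nearP P₀ d δ)
    (Classical.decPred _) (Fintype.piFinset fun _ : Fin m => cubes d N) 
  have hFU : ∀ k ∈ F, box h k ⊆ nearP P₀ d δ := fun k hk =>
    ((@Finset.mem_filter _ _ (Classical.decPred _) _ _).1 hk).2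
  -- the boxes cover
  have hcov : nearP P₀ d (δ / 2) ⊆ ⋃ k ∈ F, box h k := by
    intro z hz
    refine Set.mem_biUnion (x := fun i => idx h (z i)) ?_ (mem_box_iff.2 rfl)
    rw [Finset.mem_coe, @Finset.mem_filter _ _ (Classical.decPred _), Fintype.mem_piFinset]
    refine ⟨fun i => idx_mem_cubes hh hN (hRn z hz i), ?_⟩
    intro z' hz' i j
    have hdist : ∀ i, ‖z' i - z i‖ ≤ h * √d := fun i =>
      dist_cub hh (hz' i (mem_univ i)) (mem_cub_idx h _)
    have e1 : ⟪z' i, z' j⟫_ℝ - ⟪z i, z j⟫_ℝ = ⟪z' i - z i, z' j⟫_ℝ + ⟪z i, z' j - z j⟫_ℝ := by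
      rw [inner_sub_left, inner_sub_right]; ring
    have h1 : |⟪z' i, z' j⟫_ℝ - ⟪z i, z j⟫_ℝ| ≤ (2 * R + 1) * (h * √d) := by
      rw [e1]
      refine (abs_add_le _ _).trans ?_
      have a1 := abs_real_inner_le_norm (z' i - z i) (z' j)
      have a2 := abs_real_inner_le_norm (z i) (z' j - z j)
      have a3 : ‖z' j‖ ≤ R + 1 := by
        have : z' j = z j + (z' j - z j) := by abel
        rw [this]
        refine (norm_add_le _ _).trans ?_
        have := hRn z hz j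
        have := hdist j
        linarith
      have a4 : ‖z' i - z i‖ * ‖z' j‖ ≤ (h * √d) * (R + 1) := by
        have := hdist i
        gcongr
      have a5 : ‖z i‖ * ‖z' j - z j‖ ≤ R * (h * √d) := by
        have := hdist j
        have := hRn z hz i
        gcongr
      nlinarith
    have h2 : ⟪z' i, z' j⟫_ℝ - ⟪P₀ i, P₀ j⟫_ℝ = (⟪z' i, z' j⟫_ℝ - ⟪z i, z j⟫_ℝ) +
        (⟪z i, z j⟫_ℝ - ⟪P₀ i, P₀ j⟫_ℝ) := by ring
    rw [h2]
    refine (abs_add_le _ _).trans ?_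
    have h3 := hz i j
    linarith
  have hcard : 1 / 2 * (√G) ^ d ≤ F.card * q ^ m := by
    have := card_ge hh F hcov
    rw [Fintype.card_fin] at this
    exact hd2.trans this
  have hFc : (0 : ℝ) < F.card := by
    by_contra hcon
    push Not at hcon
    have : (0 : ℝ) < 1 / 2 * (√G) ^ d := by positivity
    have h2 : F.card * q ^ m ≤ 0 := mul_nonpos_of_nonpos_of_nonneg hcon (by positivity)
    linarith
  have hFne : F.Nonempty := Finset.card_pos.1 (by exact_mod_cast hFc)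
  have hcol : ∀ k ∈ F, ∀ k' ∈ F, ∀ i j, i ≠ j → k i ≠ k' j := by
    intro k hk k' hk' i j hij heq
    have h1 : (fun l => pt hh (k l)) ∈ nearP P₀ d δ := hFU k hk (fun l _ => pt_mem hh _)
    have h2 : (fun l => pt hh (k' l)) ∈ nearP P₀ d δ := hFU k' hk' (fun l _ => pt_mem hh _)
    have h3 := h1 i i
    have h4 := h2 j j
    simp only [real_inner_self_eq_norm_sq] at h3 h4
    rw [heq] at h3
    have h5 := hδgap i j hij
    have h6 : |‖P₀ i‖ ^ 2 - ‖P₀ j‖ ^ 2| ≤ 2 * δ := by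
      rw [abs_le] at h3 h4 ⊢
      constructor <;> linarith
    linarith
  have hM : ∀ S : Finset (Fin m), S.Nonempty → ∀ k ∈ F,
      (cnt F S k : ℝ) ≤ ρ S ^ d / q ^ (m - S.card) := by
    intro S hS k hk
    rw [le_div_iff₀ (by positivity)]
    exact (hρδ S hS).2.2.2 d h hh F
      (fun k hk => (hFU k hk).trans (nearP_mono (hδS S hS).le)) k hk
  have hbound := exist_bound hZ hh hp0 F hFne hcol
    (fun S => ρ S ^ d / q ^ (m - S.card)) hM
  have hterm : ∀ S ∈ (Finset.univ : Finset (Finset (Fin m))).filter (fun S => S.Nonempty),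
      ρ S ^ d / q ^ (m - S.card) / (F.card * pocc d h ^ S.card) ≤
      2 * 3 ^ m * (ρ S / √G) ^ d := by
    intro S hS
    have hρ0 := (hρδ S (Finset.mem_filter.1 hS).2).2.1
    have hSm : S.card ≤ m := by
      have := Finset.card_le_univ S
      rwa [Fintype.card_fin] at this
    have hcS : m - S.card + S.card = m := by omega
    have h1 : (q / 3) ^ S.card ≤ pocc d h ^ S.card := by gcongr
    have h2 : (q : ℝ) ^ m / 3 ^ m ≤ q ^ (m - S.card) * pocc d h ^ S.card := by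
      calc q ^ m / 3 ^ m = q ^ (m - S.card) * q ^ S.card / 3 ^ m := by
            rw [← pow_add, hcS]
        _ ≤ q ^ (m - S.card) * q ^ S.card / 3 ^ S.card := by
            have : (3 : ℝ) ^ S.card ≤ 3 ^ m := pow_le_pow_right₀ (by norm_num) hSm
            gcongr
        _ = q ^ (m - S.card) * (q / 3) ^ S.card := by
            rw [mul_div_assoc, ← div_pow]
        _ ≤ _ := by gcongr
    have h3 : 1 / 2 * (√G) ^ d / 3 ^ m ≤
        q ^ (m - S.card) * (F.card * pocc d h ^ S.card) := by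
      calc 1 / 2 * (√G) ^ d / 3 ^ m ≤ F.card * q ^ m / 3 ^ m := by gcongr
        _ = F.card * (q ^ m / 3 ^ m) := by ring
        _ ≤ F.card * (q ^ (m - S.card) * pocc d h ^ S.card) := by gcongr
        _ = _ := by ring
    rw [div_div]
    calc ρ S ^ d / (q ^ (m - S.card) * (F.card * pocc d h ^ S.card))
        ≤ ρ S ^ d / (1 / 2 * (√G) ^ d / 3 ^ m) := by gcongr
      _ = 2 * 3 ^ m * (ρ S / √G) ^ d := by
          rw [div_pow]
          field_simp
  have hfinal : P.real (⋂ k ∈ F, (⋂ i, occ Z h (k i))ᶜ) ≤ ε :=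
    hbound.trans ((Finset.sum_le_sum hterm).trans hd1)
  have hsub : {ω | ¬ ∃ z : Fin m → E d, (∀ i, z i ∈ Z ω) ∧
      ∀ i j, |⟪z i, z j⟫_ℝ - ⟪P₀ i, P₀ j⟫_ℝ| ≤ t ^ 2} ⊆ ⋂ k ∈ F, (⋂ i, occ Z h (k i))ᶜ := by
    intro ω hω
    simp only [mem_iInter]
    intro k hk hocc
    apply hω
    have hocc' : ∀ i, ∃ x, x ∈ Z ω ∩ cub h (k i) := by
      intro i
      have h1 : ω ∈ occ Z h (k i) := by
        have := mem_iInter.1 hocc i
        exact this
      have h2 : Z ω ∩ cub h (k i) ≠ ∅ := h1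
      exact Set.nonempty_iff_ne_empty.2 h2
    choose z hz using hocc'
    refine ⟨z, fun i => (hz i).1, ?_⟩
    have h3 : z ∈ nearP P₀ d δ := hFU k hk (fun i _ => (hz i).2)
    intro i j
    exact (h3 i j).trans hδt.le
  calc P {ω | ¬ ∃ z : Fin m → E d, (∀ i, z i ∈ Z ω) ∧
      ∀ i j, |⟪z i, z j⟫_ℝ - ⟪P₀ i, P₀ j⟫_ℝ| ≤ t ^ 2} ≤
      P (⋂ k ∈ F, (⋂ i, occ Z h (k i))ᶜ) := measure_mono hsub
    _ = ENNReal.ofReal (P.real (⋂ k ∈ F, (⋂ i, occ Z h (k i))ᶜ)) := by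
        rw [measureReal_def, ENNReal.ofReal_toReal (measure_ne_top P _)]
    _ ≤ ENNReal.ofReal ε := ENNReal.ofReal_le_ofReal hfinal

end Pool.Agent.H95w
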