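import Pool.Agent.H95w.Outrad

namespace Pool.Agent.H95w

open MeasureTheory ProbabilityTheory Set Metric Matrix Filter
open scoped InnerProductSpace ENNReal NNReal Topology Pointwise

/-- **The limit theorem for the normalised intensity.** -/
theorem main_mu {ε : ℝ} (hε : 0 < ε) {ε' : ℝ} (hε' : 0 < ε') :
    ∀ᶠ d : ℕ in atTop, ∀ {Ω : Type*} [MeasurableSpace Ω] (P : Measure Ω) [IsProbabilityMeasure P]
      (Z : Ω → Set (E d)), IsPoisson P (mu d) Z →
      P {ω | ε < |width (cell (Z ω)) - cc|} ≤ ENNReal.ofReal ε' := by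
  obtain ⟨D, m, P₀, t, ht0, hadm, hinj, hup⟩ := upper_det ε hε
  -- parameters of the lower bound
  set η : ℝ := min (ε / 4) (1 / 4) with hη
  have hη0 : 0 < η := by positivity
  have hη1 : η ≤ 1 / 4 := min_le_right _ _
  have hη2 : η ≤ ε / 4 := min_le_left _ _
  obtain ⟨k, hk0, hk⟩ : ∃ k : ℕ, 0 < k ∧ 64 / √(k : ℝ) ≤ ε / 2 := by
    obtain ⟨k, hk⟩ := exists_nat_ge ((128 / ε) ^ 2)
    have h1 : 0 < (128 / ε) ^ 2 := by positivity
    have hk0 : (0 : ℝ) < k := by linarith
    refine ⟨k, by exact_mod_cast hk0, ?_⟩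
    have h2 : 128 / ε ≤ √(k : ℝ) := Real.le_sqrt_of_sq_le hk
    rw [div_le_div_iff₀ (Real.sqrt_pos.2 hk0) (by norm_num)]
    rw [div_le_iff₀ hε] at h2
    linarith
  filter_upwards [outrad_prob ht0 (show 0 < ε' / 3 by positivity),
    good_prob (2 * k) hη0 (by linarith) (show 0 < ε' / 3 by positivity),
    exist_prob P₀ hadm hinj ht0 (show 0 < ε' / 3 by positivity),
    eventually_gt_atTop 0, eventually_gt_atTop m] with d h1 h2 h3 hd0 hdm
  intro Ω _ P _ Z hZ
  have hsub : {ω | ε < |width (cell (Z ω)) - cc|} ⊆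
      ({ω | ¬ cell (Z ω) ⊆ closedBall 0 (1 + t)} ∪ {ω | ¬ Good (Z ω) (2 * k) η}) ∪
      {ω | ¬ ∃ z : Fin m → E d, (∀ i, z i ∈ Z ω) ∧
        ∀ i j, |⟪z i, z j⟫_ℝ - ⟪P₀ i, P₀ j⟫_ℝ| ≤ t ^ 2} := by
    intro ω hω
    by_contra hcon
    simp only [mem_union, mem_ofPred_eq, not_or, not_not] at hcon
    obtain ⟨⟨hc, hg⟩, hz⟩ := hcon
    have hu := hup d hdm (Z ω) hc hz
    have hl := width_ge hd0 hc hk0 hη0 (by linarith) hg
    have : |width (cell (Z ω)) - cc| ≤ ε := by
      rw [abs_le]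
      constructor <;> linarith
    exact absurd hω (not_lt.2 this)
  calc P {ω | ε < |width (cell (Z ω)) - cc|} ≤ _ := measure_mono hsub
    _ ≤ (P {ω | ¬ cell (Z ω) ⊆ closedBall 0 (1 + t)} + P {ω | ¬ Good (Z ω) (2 * k) η}) +
      P {ω | ¬ ∃ z : Fin m → E d, (∀ i, z i ∈ Z ω) ∧
        ∀ i j, |⟪z i, z j⟫_ℝ - ⟪P₀ i, P₀ j⟫_ℝ| ≤ t ^ 2} :=
        (measure_union_le _ _).trans (by gcongr; exact measure_union_le _ _)
    _ ≤ (ENNReal.ofReal (ε' / 3) + ENNReal.ofReal (ε' / 3)) + ENNReal.ofReal (ε' / 3) := by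
        gcongr
        · exact h1 P Z hZ
        · exact h2 P Z hZ
        · exact h3 P Z hZ
    _ = ENNReal.ofReal ε' := by
        rw [← ENNReal.ofReal_add (by positivity) (by positivity),
          ← ENNReal.ofReal_add (by positivity) (by positivity)]
        congr 1
        ring

/-! ### Scaling -/

lemma isPoisson_image {Ω : Type*} [MeasurableSpace Ω] {P : Measure Ω} {X Y : Type*}
    [MeasurableSpace X] [MeasurableSpace Y] (e : X ≃ᵐ Y) {m : Measure X} {Z : Ω → Set X}
    (hZ : IsPoisson P m Z) : IsPoisson P (m.map e) (fun ω => e '' Z ω) := by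
  have key : ∀ (ω : Ω) (A : Set Y), (e '' Z ω ∩ A).encard = (Z ω ∩ e ⁻¹' A).encard := by
    intro ω A
    rw [← Set.image_inter_preimage, e.injective.encard_image]
  constructor
  · intro A hA
    simp only [key]
    exact hZ.meas _ (e.measurable hA)
  · intro A hA hmA k
    simp only [key]
    rw [e.map_apply] at hmA ⊢
    exact hZ.law _ (e.measurable hA) hmA k
  · intro n A hA hdisj
    simp only [key]
    apply hZ.indep n (fun i => e ⁻¹' A i) (fun i => e.measurable (hA i))
    intro i j hij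
    exact (hdisj hij).preimage e

lemma cell_smul {d : ℕ} {s : ℝ} (hs : 0 < s) (Z : Set (E d)) :
    cell ((fun x => s • x) '' Z) = (fun x => s • x) '' cell Z := by
  ext x
  constructor
  · intro hx
    refine ⟨s⁻¹ • x, ?_, by simp [smul_smul, hs.ne']⟩
    intro z hz
    have h1 := hx (s • z) ⟨z, hz, rfl⟩
    have h2 : x - s • z = s • (s⁻¹ • x - z) := by
      rw [smul_sub, smul_smul, mul_inv_cancel₀ hs.ne', one_smul]
    rw [h2, norm_smul, Real.norm_of_nonneg hs.le] at h1
    rw [norm_smul, norm_inv, Real.norm_of_nonneg hs.le]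
    rw [inv_mul_le_iff₀ hs]
    exact h1
  · rintro ⟨y, hy, rfl⟩
    rintro _ ⟨z, hz, rfl⟩
    have h1 := hy z hz
    simp only
    rw [← smul_sub, norm_smul, norm_smul]
    gcongr

lemma width_smul {d : ℕ} {s : ℝ} (hs : 0 < s) (K : Set (E d)) :
    width ((fun x => s • x) '' K) = s * width K := by
  have h1 : ∀ u, widthDir u ((fun x => s • x) '' K) = s * widthDir u K := by
    intro u
    unfold widthDir
    have h2 : (fun x => ⟪u, x⟫_ℝ) '' ((fun x => s • x) '' K) =
        s • ((fun x => ⟪u, x⟫_ℝ) '' K) := by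
      rw [Set.image_image, ← Set.image_smul, Set.image_image]
      apply Set.image_congr
      intro x _
      rw [inner_smul_right, smul_eq_mul]
    rw [h2, Real.sSup_smul_of_nonneg hs.le, Real.sInf_smul_of_nonneg hs.le, smul_eq_mul,
      smul_eq_mul]
    ring
  unfold width
  have h3 : (fun u => widthDir u ((fun x => s • x) '' K)) '' sphere (0 : E d) 1 =
      s • ((fun u => widthDir u K) '' sphere (0 : E d) 1) := by
    rw [← Set.image_smul, Set.image_image]
    apply Set.image_congr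
    intro u _
    rw [h1, smul_eq_mul]
  rw [h3, Real.sInf_smul_of_nonneg hs.le, smul_eq_mul]

/-- **The limit theorem.** -/
theorem main : ∃ c : ℝ, ∀ (l : ℕ → ℝ), (∀ d, 0 < d → 0 < l d) →
    ∀ (Ω : ℕ → Type*) [∀ d, MeasurableSpace (Ω d)] (P : ∀ d, Measure (Ω d))
      [∀ d, IsProbabilityMeasure (P d)]
      (Z : ∀ d, Ω d → Set (EuclideanSpace ℝ (Fin d))),
      (∀ d, 0 < d → IsPoisson (P d) (ENNReal.ofReal (l d) • volume) (Z d)) →
      ∀ ε : ℝ, 0 < ε →
        Tendsto (fun d => P d {ω | ε < |normWidth d (l d) (Z d ω) - c|}) atTop (𝓝 0) := by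
  refine ⟨cc, ?_⟩
  intro l hl Ω _ P _ Z hZ ε hε
  rw [ENNReal.tendsto_nhds_zero]
  intro ε' hε'
  obtain ⟨r, hr0, hr⟩ : ∃ r : ℝ, 0 < r ∧ ENNReal.ofReal r ≤ ε' := by
    refine ⟨(min ε' 1).toReal, ENNReal.toReal_pos (by positivity) ?_, ?_⟩
    · exact (lt_of_le_of_lt (min_le_right _ _) ENNReal.one_lt_top).ne
    · rw [ENNReal.ofReal_toReal (lt_of_le_of_lt (min_le_right _ _) ENNReal.one_lt_top).ne]
      exact min_le_left _ _
  filter_upwards [main_mu hε hr0, eventually_gt_atTop 0] with d hd hd0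
  have hκ := kap_pos d
  have hl0 := hl d hd0
  set s : ℝ := (l d * kap d) ^ ((1 : ℝ) / d) with hs
  have hs0 : 0 < s := by positivity
  have hsd : s ^ d = l d * kap d := by
    rw [hs, ← Real.rpow_natCast, ← Real.rpow_mul (by positivity), one_div,
      inv_mul_cancel₀ (by exact_mod_cast hd0.ne'), Real.rpow_one]
  let e : E d ≃ᵐ E d := (Homeomorph.smulOfNeZero s hs0.ne').toMeasurableEquiv
  have he : ∀ A : Set (E d), e '' A = (fun x => s • x) '' A := fun A => rfl
  have hmap : (ENNReal.ofReal (l d) • (volume : Measure (E d))).map e = mu d := by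
    have h1 : (volume : Measure (E d)).map e =
        ENNReal.ofReal |(s ^ Module.finrank ℝ (E d))⁻¹| • volume :=
      Measure.map_addHaar_smul volume hs0.ne'
    rw [Measure.map_smul, h1, finrank_euclideanSpace_fin, hsd, smul_smul, mu]
    congr 1
    rw [← ENNReal.ofReal_mul hl0.le, abs_of_pos (by positivity)]
    congr 1
    field_simp
  have hP : IsPoisson (P d) (mu d) (fun ω => e '' Z d ω) := by
    rw [← hmap]
    exact isPoisson_image e (hZ d hd0)
  have h2 := hd (P d) (fun ω => e '' Z d ω) hP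
  have h3 : ∀ ω, width (cell (e '' Z d ω)) = normWidth d (l d) (Z d ω) := by
    intro ω
    rw [he, cell_smul hs0, width_smul hs0]
    rfl
  simp only [h3] at h2
  exact h2.trans hr

end Pool.Agent.H95w
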