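import Pool.Agent.H95w.Prob

namespace Pool.Agent.H95w

open MeasureTheory ProbabilityTheory Set Metric Matrix Filter
open scoped InnerProductSpace ENNReal NNReal Topology Kronecker

variable {Ω : Type*} [MeasurableSpace Ω] {P : Measure Ω} [IsProbabilityMeasure P]
  {d : ℕ} {Z : Ω → Set (E d)} {ι : Type*} [Fintype ι] [DecidableEq ι]

lemma norm_le_of_comb {B : Matrix ι ι ℝ} (hB : B.det ≠ 0) {z : ι → E d}
    (h : ∀ j, ‖∑ i, B i j • z i‖ < 1) (i : ι) : ‖z i‖ ≤ ∑ k, ∑ l, |B⁻¹ k l| := by
  have hBW : B * B⁻¹ = 1 := Matrix.mul_nonsing_inv _ (isUnit_iff_ne_zero.2 hB)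
  have h1 : z i = ∑ j, B⁻¹ j i • ∑ k, B k j • z k := by
    simp only [Finset.smul_sum, smul_smul]
    rw [Finset.sum_comm]
    have h2 : ∀ k, ∑ j, (B⁻¹ j i * B k j) • z k = (1 : Matrix ι ι ℝ) k i • z k := by
      intro k
      rw [← Finset.sum_smul, ← hBW, Matrix.mul_apply]
      congr 1
      apply Finset.sum_congr rfl
      intro j _
      ring
    simp only [h2, Matrix.one_apply, ite_smul, one_smul, zero_smul, Finset.sum_ite_eq',
      Finset.mem_univ, if_true]
  rw [h1]
  refine (norm_sum_le _ _).trans ?_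
  apply Finset.sum_le_sum
  intro j _
  rw [norm_smul, Real.norm_eq_abs]
  calc |B⁻¹ j i| * ‖∑ k, B k j • z k‖ ≤ |B⁻¹ j i| * 1 := by
        have := (h j).le
        gcongr
    _ ≤ ∑ l, |B⁻¹ j l| := by
        rw [mul_one]
        exact Finset.single_le_sum (f := fun l => |B⁻¹ j l|) (fun l _ => abs_nonneg _)
          (Finset.mem_univ i)

omit [DecidableEq ι] in
lemma prob_tuple (hZ : IsPoisson P (mu d) Z) {h : ℝ} (hh : 0 < h)
    {k : ι → Fin d → ℤ} (hk : Function.Injective k) :
    P (⋂ i, occ Z h (k i)) = ENNReal.ofReal (pocc d h) ^ Fintype.card ι := by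
  classical
  have h1 : ⋂ i, occ Z h (k i) = ⋂ q ∈ Finset.univ.image k, occ Z h q := by
    ext ω
    simp
  rw [h1, prob_inter_occ hZ hh, Finset.card_image_of_injective _ hk, Finset.card_univ]

/-- **First moment bound.** -/
theorem first_moment (hd : 0 < d) (hZ : IsPoisson P (mu d) Z) {B : Matrix ι ι ℝ}
    (hB : B.det ≠ 0) :
    P {ω | ∃ p : ι → E d, Function.Injective p ∧ (∀ i, p i ∈ Z ω) ∧
      ∀ j, ‖∑ i, B i j • p i‖ < 1} ≤ ENNReal.ofReal ((|B.det|⁻¹) ^ d) := by
  classical
  set Ev := {ω | ∃ p : ι → E d, Function.Injective p ∧ (∀ i, p i ∈ Z ω) ∧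
      ∀ j, ‖∑ i, B i j • p i‖ < 1} with hEv
  have hκ := kap_pos d
  set C := ∑ k, ∑ l, |B⁻¹ k l| with hC
  have hC0 : 0 ≤ C := Finset.sum_nonneg fun _ _ => Finset.sum_nonneg fun _ _ => abs_nonneg _
  set b := ∑ k, ∑ l, |B k l| with hb
  have hb0 : 0 ≤ b := Finset.sum_nonneg fun _ _ => Finset.sum_nonneg fun _ _ => abs_nonneg _
  let f : ℝ → ℝ := fun h => ((2 * C + 5 * h) * h) ^ d / kap d ^ 2 +
    (|B.det|⁻¹) ^ d * ((1 + b * (h * √d)) ^ d) ^ Fintype.card ι
  have key : ∀ h : ℝ, 0 < h → P Ev ≤ ENNReal.ofReal (f h) := by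
    intro h hh
    obtain ⟨N, hN1, hN2⟩ : ∃ N : ℕ, C / h + 1 ≤ N ∧ (N : ℝ) ≤ C / h + 2 := by
      refine ⟨⌈C / h⌉₊ + 1, ?_, ?_⟩
      · have := Nat.le_ceil (C / h)
        push_cast
        linarith
      · have := (Nat.ceil_lt_add_one (show 0 ≤ C / h by positivity)).le
        push_cast
        linarith
    set q := h ^ d / kap d with hq
    have hq0 : 0 ≤ q := by positivity
    set U := {z : ι → E d | ∀ j, ‖∑ i, B i j • z i‖ < 1} with hU
    set 𝒦 : Finset (ι → Fin d → ℤ) := (Fintype.piFinset fun _ : ι => cubes d N).filter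
      (fun k => Function.Injective k ∧ (box h k ∩ U).Nonempty) with h𝒦
    have hcov : Ev ⊆ (⋃ k ∈ cubes d N, {ω | 2 ≤ (Z ω ∩ cub h k).encard}) ∪
        ⋃ k ∈ 𝒦, ⋂ i, occ Z h (k i) := by
      rintro ω ⟨p, hpinj, hpZ, hpU⟩
      have hpn : ∀ i, ‖p i‖ ≤ C := norm_le_of_comb hB hpU
      have hkN : ∀ i, idx h (p i) ∈ cubes d N := fun i => idx_mem_cubes hh hN1 (hpn i)
      by_cases hbad : ∃ k ∈ cubes d N, 2 ≤ (Z ω ∩ cub h k).encard
      · left
        obtain ⟨k, hk, hk2⟩ := hbad
        exact Set.mem_biUnion (by exact hk) hk2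
      · right
        push Not at hbad
        refine Set.mem_biUnion (x := fun i => idx h (p i)) ?_ ?_
        · rw [h𝒦, Finset.mem_coe, Finset.mem_filter, Fintype.mem_piFinset]
          refine ⟨hkN, ?_, ⟨p, mem_box_iff.2 rfl, hpU⟩⟩
          intro i j hij
          by_contra hne
          have h1 := hbad _ (hkN i)
          have hpi : p i ∈ Z ω ∩ cub h (idx h (p i)) := ⟨hpZ i, mem_cub_idx h _⟩
          have hpj : p j ∈ Z ω ∩ cub h (idx h (p i)) := by
            refine ⟨hpZ j, ?_⟩
            simp only at hij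
            rw [hij]
            exact mem_cub_idx h _
          have h2 : ({p i, p j} : Set (E d)) ⊆ Z ω ∩ cub h (idx h (p i)) := by
            intro x hx
            rcases hx with rfl | rfl
            · exact hpi
            · exact hpj
          have h3 := Set.encard_le_encard h2
          rw [Set.encard_pair (fun hc => hne (hpinj hc))] at h3
          exact absurd h3 (not_le.2 h1)
        · rw [mem_iInter]
          intro i
          have : (p i) ∈ Z ω ∩ cub h (idx h (p i)) := ⟨hpZ i, mem_cub_idx h _⟩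
          intro hemp
          have hemp' : Z ω ∩ cub h (idx h (p i)) = ∅ := hemp
          rw [hemp'] at this
          exact this
    have hB1 : P (⋃ k ∈ cubes d N, {ω | 2 ≤ (Z ω ∩ cub h k).encard}) ≤
        ENNReal.ofReal (((2 * C + 5 * h) * h) ^ d / kap d ^ 2) := by
      refine (measure_biUnion_finset_le _ _).trans ?_
      refine (Finset.sum_le_sum fun k _ => prob_two hZ hh k).trans ?_
      rw [Finset.sum_const, card_cubes, nsmul_eq_mul, ← ENNReal.ofReal_natCast,
        ← ENNReal.ofReal_mul (by positivity)]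
      apply ENNReal.ofReal_le_ofReal
      push_cast
      have h1 : (2 * (N : ℝ) + 1) ≤ 2 * (C / h) + 5 := by linarith
      calc (2 * (N : ℝ) + 1) ^ d * q ^ 2 ≤ (2 * (C / h) + 5) ^ d * q ^ 2 := by gcongr
        _ = ((2 * C + 5 * h) * h) ^ d / kap d ^ 2 := by
            rw [hq, div_pow, ← pow_mul, mul_comm d 2, pow_mul, ← mul_div_assoc, ← mul_pow]
            congr 2
            field_simp
    have hB2 : P (⋃ k ∈ 𝒦, ⋂ i, occ Z h (k i)) ≤
        ENNReal.ofReal ((|B.det|⁻¹) ^ d * ((1 + b * (h * √d)) ^ d) ^ Fintype.card ι) := by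
      refine (measure_biUnion_finset_le _ _).trans ?_
      have h1 : ∀ k ∈ 𝒦, P (⋂ i, occ Z h (k i)) = ENNReal.ofReal (pocc d h) ^ Fintype.card ι := by
        intro k hk
        exact prob_tuple hZ hh (Finset.mem_filter.1 hk).2.1
      rw [Finset.sum_congr rfl h1, Finset.sum_const, nsmul_eq_mul, ← ENNReal.ofReal_natCast,
        ← ENNReal.ofReal_pow (pocc_nonneg d hh), ← ENNReal.ofReal_mul (by positivity)]
      apply ENNReal.ofReal_le_ofReal
      have hr : 0 < 1 + b * (h * √d) := by positivity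
      have h2 : ∀ k ∈ 𝒦, box h k ⊆
          {z : ι → E d | ∀ j, ‖∑ i, B i j • z i + (0 : ι → E d) j‖ < 1 + b * (h * √d)} := by
        intro k hk z hz j
        obtain ⟨y, hy, hyU⟩ := (Finset.mem_filter.1 hk).2.2
        simp only [Pi.zero_apply, add_zero]
        have h3 : ∑ i, B i j • z i = ∑ i, B i j • y i + ∑ i, B i j • (z i - y i) := by
          rw [← Finset.sum_add_distrib]
          apply Finset.sum_congr rfl
          intro i _
          rw [smul_sub]; abel
        rw [h3]
        have h4 : ‖∑ i, B i j • (z i - y i)‖ ≤ b * (h * √d) := by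
          refine (norm_sum_le _ _).trans ?_
          calc ∑ i, ‖B i j • (z i - y i)‖ ≤ ∑ i, |B i j| * (h * √d) := by
                apply Finset.sum_le_sum
                intro i _
                rw [norm_smul, Real.norm_eq_abs]
                gcongr
                exact dist_cub hh (hz i (mem_univ i)) (hy i (mem_univ i))
            _ = (∑ i, |B i j|) * (h * √d) := by rw [Finset.sum_mul]
            _ ≤ b * (h * √d) := by
                gcongr
                rw [hb]
                apply Finset.sum_le_sum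
                intro i _
                exact Finset.single_le_sum (f := fun l => |B i l|) (fun l _ => abs_nonneg _)
                  (Finset.mem_univ j)
        exact (norm_add_le _ _).trans_lt (add_lt_add_of_lt_of_le (hyU j) h4)
      have h5 := card_le hh 𝒦 h2 (volume_lin_ne_top d hB 0 hr)
      rw [nv_lin d hB 0 hr] at h5
      refine le_trans ?_ h5
      have := pocc_le d h
      have := pocc_nonneg d hh
      gcongr
    calc P Ev ≤ _ := measure_mono hcov
      _ ≤ _ := measure_union_le _ _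
      _ ≤ ENNReal.ofReal (((2 * C + 5 * h) * h) ^ d / kap d ^ 2) +
          ENNReal.ofReal ((|B.det|⁻¹) ^ d * ((1 + b * (h * √d)) ^ d) ^ Fintype.card ι) :=
          add_le_add hB1 hB2
      _ = ENNReal.ofReal (f h) := by
          rw [← ENNReal.ofReal_add (by positivity) (by positivity)]
  have hcont : Continuous f := by
    simp only [f]
    fun_prop
  have hf0 : f 0 = (|B.det|⁻¹) ^ d := by
    simp only [f]
    simp [hd.ne']
  have hlim : Tendsto (fun h => ENNReal.ofReal (f h)) (𝓝[>] (0 : ℝ))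
      (𝓝 (ENNReal.ofReal ((|B.det|⁻¹) ^ d))) := by
    rw [← hf0]
    exact (ENNReal.continuous_ofReal.comp hcont).continuousAt.tendsto.mono_left nhdsWithin_le_nhds
  refine ge_of_tendsto hlim ?_
  filter_upwards [self_mem_nhdsWithin] with h hh
  exact key h hh

end Pool.Agent.H95w
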