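import Pool.Agent.H95w.First

namespace Pool.Agent.H95w

open MeasureTheory ProbabilityTheory Set Metric Matrix Filter
open scoped InnerProductSpace ENNReal NNReal Topology Kronecker

/-- compact set of Gram matrices with small determinant -/
def smallK (m : ℕ) (η : ℝ) : Set (Matrix (Fin m) (Fin m) ℝ) :=
  {G | G.PosSemidef ∧ (∀ i, G i i ≤ 4) ∧ G.det ≤ 1 - η}

lemma isCompact_smallK (m : ℕ) (η : ℝ) : IsCompact (smallK m η) := by
  apply isCompact_of_bounded (C := 4)
  · have : smallK m η = {G : Matrix (Fin m) (Fin m) ℝ | G.PosSemidef} ∩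
        ((⋂ i, {G : Matrix (Fin m) (Fin m) ℝ | G i i ≤ 4}) ∩
        {G : Matrix (Fin m) (Fin m) ℝ | G.det ≤ 1 - η}) := by
      ext G
      simp only [smallK, mem_ofPred_eq, mem_inter_iff, mem_iInter]
    rw [this]
    apply isClosed_posSemidef.inter
    apply IsClosed.inter
    · apply isClosed_iInter
      intro i
      exact isClosed_le (by fun_prop) continuous_const
    · exact isClosed_le (Continuous.matrix_det continuous_id) continuous_const
  · intro G hG
    exact ⟨hG.1, hG.2.1⟩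

/-- **Small determinants do not occur.** -/
theorem good_prob (k : ℕ) {η : ℝ} (hη : 0 < η) (hη1 : η < 1) {ε : ℝ} (hε : 0 < ε) :
    ∀ᶠ d : ℕ in atTop, ∀ {Ω : Type*} [MeasurableSpace Ω] (P : Measure Ω) [IsProbabilityMeasure P]
      (Z : Ω → Set (E d)), IsPoisson P (mu d) Z →
      P {ω | ¬ Good (Z ω) k η} ≤ ENNReal.ofReal ε := by
  have hex : ∀ m : ℕ, ∃ F : Finset (Matrix (Fin m) (Fin m) ℝ),
      (∀ B ∈ F, B.det ≠ 0 ∧ 1 / B.det ^ 2 < 1 - η / 2) ∧
      ∀ G ∈ smallK m η, ∃ B ∈ F, ∀ j, (Bᵀ * G * B) j j < 1 := fun m =>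
    exists_cover (isCompact_smallK m η) fun G hG => ⟨hG.1, by linarith [hG.2.2]⟩
  choose F hF1 hF2 using hex
  have hev : ∀ m, ∀ᶠ d : ℕ in atTop, ∑ B ∈ F m, (|B.det|⁻¹) ^ d ≤ ε / (k + 1) := by
    intro m
    refine eventually_sum_pow_le (F m) (fun B => |B.det|⁻¹) (fun B _ => by positivity)
      (fun B hB => (inv_abs_lt_sqrt (hF1 m B hB).1 (hF1 m B hB).2).trans_le
      (Real.sqrt_le_one.2 (by linarith))) (by positivity)
  have hev2 : ∀ᶠ d : ℕ in atTop, ∀ m ∈ Finset.range (k + 1),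
      ∑ B ∈ F m, (|B.det|⁻¹) ^ d ≤ ε / (k + 1) := by
    rw [Filter.eventually_all_finset]
    intro m _
    exact hev m
  filter_upwards [hev2, eventually_gt_atTop 0] with d hd hd0
  intro Ω _ P _ Z hZ
  have hsub : {ω | ¬ Good (Z ω) k η} ⊆ ⋃ m ∈ Finset.range (k + 1), ⋃ B ∈ F m,
      {ω | ∃ p : Fin m → E d, Function.Injective p ∧ (∀ i, p i ∈ Z ω) ∧
        ∀ j, ‖∑ i, B i j • p i‖ < 1} := by
    intro ω hω
    simp only [Good, mem_ofPred_eq] at hω
    push Not at hω
    obtain ⟨m, hm, p, hp, hpZ, hdet⟩ := hω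
    have hG : gram ℝ p ∈ smallK m η := by
      refine ⟨posSemidef_gram (𝕜 := ℝ) p, fun i => ?_, hdet.le⟩
      rw [gram_apply, real_inner_self_eq_norm_sq]
      have h1 := (hpZ i).2
      have h2 := norm_nonneg (p i)
      nlinarith
    obtain ⟨B, hB, hBp⟩ := hF2 m _ hG
    refine Set.mem_biUnion (x := m) (by simp; omega) (Set.mem_biUnion (x := B) hB ?_)
    exact ⟨p, hp, fun i => (hpZ i).1, norm_lt_one_of d hBp⟩
  calc P {ω | ¬ Good (Z ω) k η} ≤ _ := measure_mono hsub
    _ ≤ ∑ m ∈ Finset.range (k + 1), P (⋃ B ∈ F m,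
      {ω | ∃ p : Fin m → E d, Function.Injective p ∧ (∀ i, p i ∈ Z ω) ∧
        ∀ j, ‖∑ i, B i j • p i‖ < 1}) := measure_biUnion_finset_le _ _
    _ ≤ ∑ m ∈ Finset.range (k + 1), ENNReal.ofReal (ε / (k + 1)) := by
        apply Finset.sum_le_sum
        intro m hm
        refine (measure_biUnion_finset_le _ _).trans ?_
        refine (Finset.sum_le_sum fun B hB => first_moment hd0 hZ (hF1 m B hB).1).trans ?_
        rw [← ENNReal.ofReal_sum_of_nonneg (fun B _ => by positivity)]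
        exact ENNReal.ofReal_le_ofReal (hd m hm)
    _ = ENNReal.ofReal ε := by
        rw [Finset.sum_const, Finset.card_range, nsmul_eq_mul, ← ENNReal.ofReal_natCast,
          ← ENNReal.ofReal_mul (by positivity)]
        congr 1
        push_cast
        field_simp

end Pool.Agent.H95w
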