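import Pool.Agent.H95w.UpperDet

namespace Pool.Agent.H95w

open MeasureTheory ProbabilityTheory Set Metric Matrix
open scoped InnerProductSpace ENNReal NNReal Topology

variable {ι : Type*} [Fintype ι] [DecidableEq ι]

lemma exists_diag {A : Matrix ι ι ℝ} (hA : A.IsHermitian) :
    ∃ U : Matrix ι ι ℝ, Uᵀ * U = 1 ∧ U * Uᵀ = 1 ∧ Uᵀ * A * U = diagonal hA.eigenvalues := by
  have h1 : (hA.eigenvectorUnitary : Matrix ι ι ℝ)ᵀ * (hA.eigenvectorUnitary : Matrix ι ι ℝ) =
      1 := by
    have := Unitary.coe_star_mul_self hA.eigenvectorUnitary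
    rwa [star_eq_conjTranspose, conjTranspose_eq_transpose_of_trivial] at this
  refine ⟨(hA.eigenvectorUnitary : Matrix ι ι ℝ), h1, mul_eq_one_comm.1 h1, ?_⟩
  · have := hA.conjStarAlgAut_star_eigenvectorUnitary
    rw [Unitary.conjStarAlgAut_star_apply] at this
    rw [star_eq_conjTranspose, conjTranspose_eq_transpose_of_trivial] at this
    exact this

/-- A positive definite matrix is congruent to the identity. -/
lemma exists_congr_one {A : Matrix ι ι ℝ} (hA : A.PosDef) :
    ∃ B : Matrix ι ι ℝ, Bᵀ * A * B = 1 := by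
  obtain ⟨U, _, _, h3⟩ := exists_diag hA.1
  have hpos := hA.eigenvalues_pos
  refine ⟨U * diagonal (fun i => (√(hA.1.eigenvalues i))⁻¹), ?_⟩
  rw [Matrix.transpose_mul, Matrix.diagonal_transpose]
  have : diagonal (fun i => (√(hA.1.eigenvalues i))⁻¹) * Uᵀ * A *
      (U * diagonal (fun i => (√(hA.1.eigenvalues i))⁻¹)) =
      diagonal (fun i => (√(hA.1.eigenvalues i))⁻¹) * (Uᵀ * A * U) *
      diagonal (fun i => (√(hA.1.eigenvalues i))⁻¹) := by
    simp only [Matrix.mul_assoc]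
  rw [this, h3, Matrix.diagonal_mul_diagonal, Matrix.diagonal_mul_diagonal, ← Matrix.diagonal_one]
  congr 1
  funext i
  have h4 := Real.mul_self_sqrt (hpos i).le
  have h5 : 0 < √(hA.1.eigenvalues i) := Real.sqrt_pos.2 (hpos i)
  field_simp
  nlinarith

/-- (L1) -/
lemma exists_B {G : Matrix ι ι ℝ} (hG : G.PosSemidef) {θ : ℝ} (hθ : G.det < θ) :
    ∃ B : Matrix ι ι ℝ, B.det ≠ 0 ∧ 1 / B.det ^ 2 < θ ∧ ∀ j, (Bᵀ * G * B) j j < 1 := by
  obtain ⟨τ, hτ, hτ0⟩ : ∃ τ : ℝ, (G + τ • (1 : Matrix ι ι ℝ)).det < θ ∧ 0 < τ := by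
    have h1 : ∀ᶠ τ in 𝓝 (0 : ℝ), (G + τ • (1 : Matrix ι ι ℝ)).det < θ := by
      apply ContinuousAt.eventually_lt
      · apply Continuous.continuousAt
        apply Continuous.matrix_det
        fun_prop
      · fun_prop
      · simpa using hθ
    have h2 : ∀ᶠ τ in 𝓝[>] (0 : ℝ), (G + τ • (1 : Matrix ι ι ℝ)).det < θ ∧ 0 < τ :=
      (h1.filter_mono nhdsWithin_le_nhds).and self_mem_nhdsWithin
    exact h2.exists
  have hPD : (G + τ • (1 : Matrix ι ι ℝ)).PosDef := by
    apply Matrix.PosDef.posSemidef_add hG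
    exact Matrix.PosDef.one.smul hτ0
  obtain ⟨B, hB⟩ := exists_congr_one hPD
  have hdet : B.det ^ 2 * (G + τ • (1 : Matrix ι ι ℝ)).det = 1 := by
    have := congrArg Matrix.det hB
    rw [Matrix.det_mul, Matrix.det_mul, Matrix.det_transpose, Matrix.det_one] at this
    linarith
  have hB0 : B.det ≠ 0 := by
    intro h
    rw [h] at hdet
    simp at hdet
  refine ⟨B, hB0, ?_, fun j => ?_⟩
  · have : 1 / B.det ^ 2 = (G + τ • (1 : Matrix ι ι ℝ)).det := by
      have : B.det ^ 2 ≠ 0 := pow_ne_zero _ hB0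
      field_simp
      linarith
    rw [this]; exact hτ
  · have h1 := congrFun (congrFun hB j) j
    rw [Matrix.mul_add, Matrix.add_mul, Matrix.add_apply, Matrix.one_apply_eq, Matrix.mul_smul,
      Matrix.smul_mul, Matrix.mul_one, Matrix.smul_apply, smul_eq_mul] at h1
    have h2 : 0 < (Bᵀ * B) j j := by
      rw [Matrix.mul_apply]
      by_contra hcon
      push Not at hcon
      have h3 : ∀ i ∈ Finset.univ, 0 ≤ Bᵀ j i * B i j := by
        intro i _
        rw [Matrix.transpose_apply]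
        exact mul_self_nonneg _
      have h4 : ∑ i, Bᵀ j i * B i j = 0 := le_antisymm hcon (Finset.sum_nonneg h3)
      rw [Finset.sum_eq_zero_iff_of_nonneg h3] at h4
      apply hB0
      apply Matrix.det_eq_zero_of_column_eq_zero j
      intro i
      have := h4 i (Finset.mem_univ i)
      rw [Matrix.transpose_apply] at this
      exact mul_self_eq_zero.1 this
    have h5 : 0 < τ * (Bᵀ * B) j j := by positivity
    linarith

/-- (L2) compactness. -/
lemma exists_cover {K : Set (Matrix ι ι ℝ)} (hK : IsCompact K) {θ : ℝ}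
    (h : ∀ G ∈ K, G.PosSemidef ∧ G.det < θ) :
    ∃ F : Finset (Matrix ι ι ℝ), (∀ B ∈ F, B.det ≠ 0 ∧ 1 / B.det ^ 2 < θ) ∧
      ∀ G ∈ K, ∃ B ∈ F, ∀ j, (Bᵀ * G * B) j j < 1 := by
  classical
  have hex : ∀ G : Matrix ι ι ℝ, ∃ B : Matrix ι ι ℝ, G ∈ K → (B.det ≠ 0 ∧ 1 / B.det ^ 2 < θ ∧
      ∀ j, (Bᵀ * G * B) j j < 1) := by
    intro G
    by_cases hG : G ∈ K
    · obtain ⟨B, hB⟩ := exists_B (h G hG).1 (h G hG).2
      exact ⟨B, fun _ => hB⟩
    · exact ⟨0, fun h => absurd h hG⟩
  choose β hβ using hex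
  obtain ⟨t, ht, hcov⟩ := hK.elim_nhds_subcover
    (fun G => {G' | ∀ j, ((β G)ᵀ * G' * β G) j j < 1}) (by
      intro G hG
      apply IsOpen.mem_nhds
      · rw [Set.ofPred_forall]
        apply isOpen_iInter_of_finite
        intro j
        apply isOpen_lt _ continuous_const
        have : Continuous fun G' : Matrix ι ι ℝ => (β G)ᵀ * G' * β G := by fun_prop
        exact this.matrix_elem j j
      · exact (hβ G hG).2.2)
  refine ⟨t.image β, ?_, ?_⟩
  · intro B hB
    obtain ⟨G, hG, rfl⟩ := Finset.mem_image.1 hB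
    exact ⟨(hβ G (ht G hG)).1, (hβ G (ht G hG)).2.1⟩
  · intro G hG
    obtain ⟨G', hG', hGG'⟩ := Set.mem_iUnion₂.1 (hcov hG)
    exact ⟨β G', Finset.mem_image_of_mem _ hG', hGG'⟩

/-- (L3) -/
lemma det_lt_one {G : Matrix ι ι ℝ} (hG : G.PosSemidef) (hd : ∀ i, G i i ≤ 1) (h1 : G ≠ 1) :
    G.det < 1 := by
  have hdet := hG.1.det_eq_prod_eigenvalues
  have htr := hG.1.trace_eq_sum_eigenvalues
  simp only [RCLike.ofReal_real_eq_id, id_eq] at hdet htr
  have hnn := hG.eigenvalues_nonneg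
  set l := hG.1.eigenvalues with hl
  by_contra hcon
  push Not at hcon
  have hpos : ∀ i, 0 < l i := by
    intro i
    rcases (hnn i).eq_or_lt with h | h
    · exfalso
      have : ∏ i, l i = 0 := Finset.prod_eq_zero (Finset.mem_univ i) h.symm
      rw [hdet, this] at hcon
      linarith
    · exact h
  have hlog : 0 ≤ ∑ i, Real.log (l i) := by
    rw [← Real.log_prod (fun i _ => (hpos i).ne')]
    apply Real.log_nonneg
    rw [← hdet]
    exact hcon
  have htr2 : ∑ i, l i ≤ Fintype.card ι := by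
    rw [← htr]
    unfold Matrix.trace
    calc ∑ i, G.diag i ≤ ∑ i : ι, (1 : ℝ) := Finset.sum_le_sum fun i _ => hd i
      _ = Fintype.card ι := by simp
  have hsum : ∑ i, (l i - 1 - Real.log (l i)) ≤ 0 := by
    rw [Finset.sum_sub_distrib, Finset.sum_sub_distrib]
    simp only [Finset.sum_const, Finset.card_univ, nsmul_eq_mul, mul_one]
    linarith
  have hterm : ∀ i ∈ Finset.univ, 0 ≤ l i - 1 - Real.log (l i) := by
    intro i _
    have := Real.log_le_sub_one_of_pos (hpos i)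
    linarith
  have hz := (Finset.sum_eq_zero_iff_of_nonneg hterm).1
    (le_antisymm hsum (Finset.sum_nonneg hterm))
  have hone : ∀ i, l i = 1 := by
    intro i
    by_contra hne
    have := Real.log_lt_sub_one_of_pos (hpos i) hne
    have := hz i (Finset.mem_univ i)
    linarith
  apply h1
  obtain ⟨U, hU1, hU2, hU3⟩ := exists_diag hG.1
  have hone' : hG.1.eigenvalues = fun _ => (1 : ℝ) := funext hone
  rw [hone', show (Matrix.diagonal fun _ => (1 : ℝ)) = (1 : Matrix ι ι ℝ) from diagonal_one] at hU3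
  calc G = (U * Uᵀ) * G * (U * Uᵀ) := by rw [hU2, Matrix.one_mul, Matrix.mul_one]
    _ = U * (Uᵀ * G * U) * Uᵀ := by simp only [Matrix.mul_assoc]
    _ = 1 := by rw [hU3, Matrix.mul_one, hU2]

omit [DecidableEq ι] in
/-- norms of linear combinations -/
lemma norm_comb_sq {V : Type*} [NormedAddCommGroup V] [InnerProductSpace ℝ V] {κ : Type*}
    (z : ι → V) (B : Matrix ι κ ℝ) (j : κ) :
    ‖∑ i, B i j • z i‖ ^ 2 = (Bᵀ * gram ℝ z * B) j j := by
  rw [← real_inner_self_eq_norm_sq, sum_inner, Matrix.mul_apply]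
  simp only [inner_sum, inner_smul_left, inner_smul_right, Matrix.mul_apply, Matrix.transpose_apply,
    gram_apply, Finset.sum_mul]
  rw [Finset.sum_comm]
  apply Finset.sum_congr rfl
  intro i _
  apply Finset.sum_congr rfl
  intro k _
  simp
  ring

end Pool.Agent.H95w
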