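import Pool.Agent.H95w.Maurey

namespace Pool.Agent.H95w

open MeasureTheory ProbabilityTheory Set Metric Matrix
open scoped InnerProductSpace ENNReal NNReal

/-- Euclidean space. -/
abbrev E (d : ℕ) := EuclideanSpace ℝ (Fin d)

/-- Every injective tuple of at most `k` points of `Z` in the ball of radius `2` has Gram
determinant at least `1 - η`. -/
def Good {V : Type*} [NormedAddCommGroup V] [InnerProductSpace ℝ V] (Z : Set V) (k : ℕ) (η : ℝ) :
    Prop :=
  ∀ m : ℕ, m ≤ k → ∀ p : Fin m → V, Function.Injective p → (∀ i, p i ∈ Z ∧ ‖p i‖ ≤ 2) →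
    1 - η ≤ (gram ℝ p).det

/-- The value of a configuration. -/
noncomputable def Jval {V : Type*} [NormedAddCommGroup V] [InnerProductSpace ℝ V] {ι : Type*}
    [Fintype ι] (P : ι → V) (u : V) (a b : ι → ℝ) : ℝ :=
  (∑ i, a i * (‖P i‖ ^ 2 / 2) + ‖u - ∑ i, a i • P i‖) +
    (∑ i, b i * (‖P i‖ ^ 2 / 2) + ‖-u - ∑ i, b i • P i‖)

/-- The set of values of admissible configurations. -/
def JSet : Set ℝ := {J | ∃ (D m : ℕ) (P : Fin m → E D) (u : E D) (a b : Fin m → ℝ), ‖u‖ = 1 ∧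
  (∀ i, 0 ≤ a i) ∧ (∀ i, 0 ≤ b i) ∧
  (∀ S : Finset (Fin m), 1 ≤ (gram ℝ (fun i : S => P i)).det) ∧ J = Jval P u a b}

/-- The limit constant. -/
noncomputable def cc : ℝ := sInf JSet

lemma Jval_nonneg {V : Type*} [NormedAddCommGroup V] [InnerProductSpace ℝ V] {ι : Type*}
    [Fintype ι] (P : ι → V) (u : V) {a b : ι → ℝ} (ha : ∀ i, 0 ≤ a i) (hb : ∀ i, 0 ≤ b i) :
    0 ≤ Jval P u a b := by
  unfold Jval
  have h1 : 0 ≤ ∑ i, a i * (‖P i‖ ^ 2 / 2) :=
    Finset.sum_nonneg fun i _ => mul_nonneg (ha i) (by positivity)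
  have h2 : 0 ≤ ∑ i, b i * (‖P i‖ ^ 2 / 2) :=
    Finset.sum_nonneg fun i _ => mul_nonneg (hb i) (by positivity)
  positivity

lemma JSet_bdd : BddBelow JSet := by
  refine ⟨0, ?_⟩
  rintro J ⟨D, m, P, u, a, b, _, ha, hb, _, rfl⟩
  exact Jval_nonneg P u ha hb

lemma two_mem_JSet : (2 : ℝ) ∈ JSet := by
  refine ⟨1, 0, Fin.elim0, EuclideanSpace.single 0 1, Fin.elim0, Fin.elim0, by simp,
    fun i => i.elim0, fun i => i.elim0, ?_, ?_⟩
  · intro S
    have : IsEmpty S := ⟨fun i => (i : Fin 0).elim0⟩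
    rw [Matrix.det_isEmpty]
  · unfold Jval
    simp
    norm_num

lemma cc_le_two : cc ≤ 2 := csInf_le JSet_bdd two_mem_JSet

lemma cc_nonneg : 0 ≤ cc := by
  apply le_csInf ⟨2, two_mem_JSet⟩
  rintro J ⟨D, m, P, u, a, b, _, ha, hb, _, rfl⟩
  exact Jval_nonneg P u ha hb

lemma det_gram_smul {V : Type*} [NormedAddCommGroup V] [InnerProductSpace ℝ V] {ι : Type*}
    [Fintype ι] [DecidableEq ι] (s : ℝ) (p : ι → V) :
    (gram ℝ (fun i => s • p i)).det = (s ^ 2) ^ Fintype.card ι * (gram ℝ p).det := by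
  have : gram ℝ (fun i => s • p i) = (s ^ 2) • gram ℝ p := by
    ext i j
    simp only [gram_apply, Matrix.smul_apply, inner_smul_left, inner_smul_right, smul_eq_mul]
    simp
    ring
  rw [this, Matrix.det_smul]

section
variable {V : Type*} [NormedAddCommGroup V] [InnerProductSpace ℝ V]

/-- Near optimal sparse weights. -/
lemma exists_sparse {Z : Set V} {k : ℕ} {η ε : ℝ} (hk : 0 < k) (hη : η ≤ 1 / 2)
    (hε : 0 < ε) (hε1 : ε ≤ 1) (hG : Good Z (2 * k) η) {u : V} (hu : ‖u‖ = 1) :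
    ∃ (t : Finset V) (w : V → ℝ), (∀ z ∈ t, z ∈ Z ∧ ‖z‖ ≤ 2) ∧ t.card ≤ k ∧ (∀ z, 0 ≤ w z) ∧
      obj t w u ≤ gg Z u + ε + 32 / √k := by
  classical
  obtain ⟨s, w, hs, hw, hobj⟩ := exists_obj Z u ε hε
  have h1 := obj_trim s w hw u
  have hg : gg Z u ≤ 1 := by rw [← hu]; exact gg_le_norm Z u
  obtain ⟨t, w', ht, htc, hw', hobj'⟩ := sparsify (s.filter fun z => ‖z‖ ≤ 2) w hw u
    (fun z hz => (Finset.mem_filter.1 hz).2) (by
      intro z hz
      have hzZ : z ∈ Z := hs (Finset.mem_filter.1 hz).1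
      have h3 := hG 1 (by omega) (fun _ => z) (Function.injective_of_subsingleton _)
        (fun _ => ⟨hzZ, (Finset.mem_filter.1 hz).2⟩)
      rw [Matrix.det_unique] at h3
      simp only [gram_apply, real_inner_self_eq_norm_sq] at h3
      linarith) (by linarith) k hk
  refine ⟨t, w', ?_, htc, hw', by linarith⟩
  intro z hz
  have := Finset.mem_filter.1 (ht hz)
  exact ⟨hs this.1, this.2⟩

end

/-- **Deterministic lower bound.** -/
theorem lower_det {d : ℕ} {Z : Set (E d)} {k : ℕ} {η : ℝ} (hk : 0 < k) (hη0 : 0 < η)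
    (hη : η ≤ 1 / 2) (hG : Good Z (2 * k) η) {u : E d} (hu : ‖u‖ = 1) :
    cc - 2 * η - 64 / √k ≤ gg Z u + gg Z (-u) := by
  classical
  apply le_of_forall_pos_le_add
  intro ε₀ hε₀
  set ε := min (ε₀ / 2) 1 with hε
  have hε0 : 0 < ε := by positivity
  have hε1 : ε ≤ 1 := min_le_right _ _
  have hε2 : 2 * ε ≤ ε₀ := by have := min_le_left (ε₀ / 2) 1; linarith
  obtain ⟨t1, w1, hz1, hc1, hw1, ho1⟩ := exists_sparse hk hη hε0 hε1 hG hu
  obtain ⟨t2, w2, hz2, hc2, hw2, ho2⟩ := exists_sparse hk hη hε0 hε1 hG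
    (show ‖-u‖ = 1 by rwa [norm_neg])
  set t := t1 ∪ t2 with ht
  have htc : t.card ≤ 2 * k := (Finset.card_union_le _ _).trans (by omega)
  have htz : ∀ z ∈ t, z ∈ Z ∧ ‖z‖ ≤ 2 := by
    intro z hz
    rcases Finset.mem_union.1 hz with h | h
    · exact hz1 z h
    · exact hz2 z h
  have h1η : 0 < 1 - η := by linarith
  set σ : ℝ := (√(1 - η))⁻¹ with hσ
  have hσ0 : 0 < σ := inv_pos.2 (Real.sqrt_pos.2 h1η)
  have hσ2 : σ ^ 2 = (1 - η)⁻¹ := by rw [hσ, inv_pow, Real.sq_sqrt h1η.le]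
  have hσ1 : 1 ≤ σ := by
    rw [hσ]
    apply one_le_inv_iff₀.2
    exact ⟨Real.sqrt_pos.2 h1η, Real.sqrt_le_one.2 (by linarith)⟩
  let e : Fin t.card ≃ t := t.equivFin.symm
  let P : Fin t.card → E d := fun i => σ • (e i : E d)
  let a : Fin t.card → ℝ := fun i => if (e i : E d) ∈ t1 then w1 (e i) / σ else 0
  let b : Fin t.card → ℝ := fun i => if (e i : E d) ∈ t2 then w2 (e i) / σ else 0
  have ha : ∀ i, 0 ≤ a i := by
    intro i
    simp only [a]
    split_ifs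
    · exact div_nonneg (hw1 _) hσ0.le
    · exact le_refl _
  have hb : ∀ i, 0 ≤ b i := by
    intro i
    simp only [b]
    split_ifs
    · exact div_nonneg (hw2 _) hσ0.le
    · exact le_refl _
  have hadm : ∀ S : Finset (Fin t.card), 1 ≤ (gram ℝ (fun i : S => P i)).det := by
    intro S
    have e1 : (gram ℝ (fun i : S => P i)).det =
        (σ ^ 2) ^ S.card * (gram ℝ (fun i : S => ((e i : t) : E d))).det := by
      have := det_gram_smul σ (fun i : S => ((e i : t) : E d))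
      rw [Fintype.card_coe] at this
      exact this
    have e2 : (gram ℝ (fun i : S => ((e i : t) : E d))).det =
        (gram ℝ (fun j : Fin S.card => ((e (S.equivFin.symm j : S) : t) : E d))).det := by
      have : gram ℝ (fun j : Fin S.card => ((e (S.equivFin.symm j : S) : t) : E d)) =
          (gram ℝ (fun i : S => ((e i : t) : E d))).submatrix S.equivFin.symm S.equivFin.symm := by
        ext i j; rfl
      rw [this, Matrix.det_submatrix_equiv_self]
    have e3 := hG S.card ((Finset.card_le_univ S).trans (by rw [Fintype.card_fin]; exact htc))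
      (fun j : Fin S.card => ((e (S.equivFin.symm j : S) : t) : E d))
      (by
        intro i j hij
        simp only at hij
        exact S.equivFin.symm.injective (Subtype.ext (e.injective (Subtype.ext hij))))
      (fun j => htz _ (e (S.equivFin.symm j : S)).2)
    rw [e1, e2, hσ2]
    rcases Finset.eq_empty_or_nonempty S with rfl | hS
    · have : IsEmpty (Fin (∅ : Finset (Fin t.card)).card) := by
        rw [Finset.card_empty]; infer_instance
      rw [Matrix.det_isEmpty]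
      simp
    · have h4 : 1 ≤ (1 - η)⁻¹ := one_le_inv_iff₀.2 ⟨h1η, by linarith⟩
      have h5 : (1 - η)⁻¹ ≤ ((1 - η)⁻¹) ^ S.card :=
        le_self_pow₀ h4 (Finset.card_pos.2 hS).ne'
      calc (1 : ℝ) = (1 - η)⁻¹ * (1 - η) := by rw [inv_mul_cancel₀ h1η.ne']
        _ ≤ _ := by gcongr
  have hsum : ∀ (F : E d → ℝ), ∑ i, F (e i : E d) = ∑ z ∈ t, F z := by
    intro F
    rw [← Finset.sum_coe_sort t F]
    exact Equiv.sum_comp e (fun z : t => F z)
  have hsumv : ∀ (F : E d → E d), ∑ i, F (e i : E d) = ∑ z ∈ t, F z := by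
    intro F
    rw [← Finset.sum_coe_sort t F]
    exact Equiv.sum_comp e (fun z : t => F z)
  have key : ∀ (t' : Finset (E d)) (w : E d → ℝ) (v : E d), t' ⊆ t → (∀ z, 0 ≤ w z) →
      (∑ i, (if (e i : E d) ∈ t' then w (e i) / σ else 0) * (‖P i‖ ^ 2 / 2) +
        ‖v - ∑ i, (if (e i : E d) ∈ t' then w (e i) / σ else 0) • P i‖) ≤ σ * obj t' w v := by
    intro t' w v ht' hw
    have s1 : ∑ i, (if (e i : E d) ∈ t' then w (e i) / σ else 0) * (‖P i‖ ^ 2 / 2) =
        σ * ∑ z ∈ t', w z * (‖z‖ ^ 2 / 2) := by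
      rw [hsum (fun z => (if z ∈ t' then w z / σ else 0) * (‖σ • z‖ ^ 2 / 2)), Finset.mul_sum,
        ← Finset.sum_subset ht']
      · apply Finset.sum_congr rfl
        intro z hz
        rw [if_pos hz, norm_smul, Real.norm_of_nonneg hσ0.le]
        field_simp
      · intro z _ hz
        rw [if_neg hz, zero_mul]
    have s2 : ∑ i, (if (e i : E d) ∈ t' then w (e i) / σ else 0) • P i =
        ∑ z ∈ t', w z • z := by
      rw [hsumv (fun z => (if z ∈ t' then w z / σ else 0) • (σ • z)), ← Finset.sum_subset ht']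
      · apply Finset.sum_congr rfl
        intro z hz
        rw [if_pos hz, smul_smul, div_mul_cancel₀ _ hσ0.ne']
      · intro z _ hz
        rw [if_neg hz, zero_smul]
    rw [s1, s2]
    unfold obj
    have := norm_nonneg (v - ∑ z ∈ t', w z • z)
    nlinarith
  have hJ : cc ≤ Jval P u a b := csInf_le JSet_bdd ⟨d, t.card, P, u, a, b, hu, ha, hb, hadm, rfl⟩
  have hJ2 : Jval P u a b ≤ σ * (obj t1 w1 u + obj t2 w2 (-u)) := by
    unfold Jval
    have k1 : (∑ i, a i * (‖P i‖ ^ 2 / 2) + ‖u - ∑ i, a i • P i‖) ≤ σ * obj t1 w1 u :=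
      key t1 w1 u Finset.subset_union_left hw1
    have k2 : (∑ i, b i * (‖P i‖ ^ 2 / 2) + ‖-u - ∑ i, b i • P i‖) ≤ σ * obj t2 w2 (-u) :=
      key t2 w2 (-u) Finset.subset_union_right hw2
    rw [mul_add]
    exact add_le_add k1 k2
  have hX : cc ≤ σ * (gg Z u + gg Z (-u) + 2 * ε + 64 / √k) := by
    refine hJ.trans (hJ2.trans (mul_le_mul_of_nonneg_left ?_ hσ0.le))
    have : 64 / √(k : ℝ) = 32 / √k + 32 / √k := by ring
    linarith
  -- `1/σ = √(1-η) ≥ 1 - η`
  have h6 : (1 - η) ≤ √(1 - η) := by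
    apply Real.le_sqrt_of_sq_le
    nlinarith
  have h7 : √(1 - η) * cc ≤ gg Z u + gg Z (-u) + 2 * ε + 64 / √k := by
    have h8 : √(1 - η) * σ = 1 := by rw [hσ, mul_inv_cancel₀ (Real.sqrt_pos.2 h1η).ne']
    have h9 : √(1 - η) * cc ≤ √(1 - η) * (σ * (gg Z u + gg Z (-u) + 2 * ε + 64 / √k)) := by
      gcongr
    rwa [← mul_assoc, h8, one_mul] at h9
  have h10 : (1 - η) * cc ≤ √(1 - η) * cc := by
    have := cc_nonneg
    gcongr
  have := cc_le_two
  nlinarith

/-- The width is bounded below by the dual values. -/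
theorem widthDir_ge {d : ℕ} {Z : Set (E d)} {ρ : ℝ} (hb : cell Z ⊆ closedBall 0 ρ) (u : E d) :
    gg Z u + gg Z (-u) ≤ widthDir u (cell Z) := by
  obtain ⟨x, hx1, _, hx3⟩ := dual_point Z u
  obtain ⟨y, hy1, _, hy3⟩ := dual_point Z (-u)
  have hbd : Bornology.IsBounded ((fun x => ⟪u, x⟫_ℝ) '' cell Z) := by
    refine (isBounded_closedBall (x := (0 : ℝ)) (r := ‖u‖ * ρ)).subset ?_
    rintro _ ⟨z, hz, rfl⟩
    rw [mem_closedBall, dist_zero_right]
    refine (norm_inner_le_norm _ _).trans ?_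
    gcongr
    simpa using hb hz
  have h1 : ⟪u, x⟫_ℝ ≤ sSup ((fun x => ⟪u, x⟫_ℝ) '' cell Z) :=
    le_csSup hbd.bddAbove ⟨x, hx1, rfl⟩
  have h2 : sInf ((fun x => ⟪u, x⟫_ℝ) '' cell Z) ≤ ⟪u, y⟫_ℝ :=
    csInf_le hbd.bddBelow ⟨y, hy1, rfl⟩
  rw [inner_neg_left] at hy3
  unfold widthDir
  linarith

theorem width_ge {d : ℕ} (hd : 0 < d) {Z : Set (E d)} {ρ : ℝ} (hb : cell Z ⊆ closedBall 0 ρ)
    {k : ℕ} {η : ℝ} (hk : 0 < k) (hη0 : 0 < η) (hη : η ≤ 1 / 2) (hG : Good Z (2 * k) η) :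
    cc - 2 * η - 64 / √k ≤ width (cell Z) := by
  have : Nonempty (Fin d) := ⟨⟨0, hd⟩⟩
  unfold width
  apply le_csInf
  · exact (NormedSpace.sphere_nonempty.2 zero_le_one).image _
  · rintro _ ⟨u, hu, rfl⟩
    have hu1 : ‖u‖ = 1 := by simpa using hu
    exact (lower_det hk hη0 hη hG hu1).trans (widthDir_ge hb u)

end Pool.Agent.H95w
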