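import Pool.Agent.H95w.Dual

namespace Pool.Agent.H95w

open MeasureTheory ProbabilityTheory Set Metric
open scoped InnerProductSpace ENNReal NNReal

section Maurey

variable {V : Type*} [NormedAddCommGroup V] [InnerProductSpace ℝ V]

lemma maurey_step {ι : Type*} (s : Finset ι) (q : ι → ℝ) (hq : ∀ i ∈ s, 0 ≤ q i)
    (hq1 : ∑ i ∈ s, q i = 1) (v : ι → V) (c : ι → ℝ) (C : ℝ)
    (hC : ∀ i ∈ s, ‖v i‖ ^ 2 + (c i) ^ 2 ≤ C) (S : V) (t : ℝ) :
    ∃ i ∈ s, ‖S + (v i - ∑ j ∈ s, q j • v j)‖ ^ 2 + (t + (c i - ∑ j ∈ s, q j * c j)) ^ 2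
      ≤ ‖S‖ ^ 2 + t ^ 2 + C := by
  set vb : V := ∑ j ∈ s, q j • v j with hvb
  set cb : ℝ := ∑ j ∈ s, q j * c j with hcb
  by_contra hcon
  push Not at hcon
  have h1 : ∑ i ∈ s, q i * (‖S‖ ^ 2 + t ^ 2 + C) <
      ∑ i ∈ s, q i * (‖S + (v i - vb)‖ ^ 2 + (t + (c i - cb)) ^ 2) := by
    apply Finset.sum_lt_sum
    · intro i hi
      exact mul_le_mul_of_nonneg_left (hcon i hi).le (hq i hi)
    · by_contra hno
      push Not at hno
      have : ∀ i ∈ s, q i = 0 := by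
        intro i hi
        by_contra hne
        have hpos : 0 < q i := lt_of_le_of_ne (hq i hi) (Ne.symm hne)
        have := hno i hi
        have h3 := mul_lt_mul_of_pos_left (hcon i hi) hpos
        linarith
      have : ∑ i ∈ s, q i = 0 := Finset.sum_eq_zero this
      linarith
  rw [← Finset.sum_mul, hq1, one_mul] at h1
  have e1 : ∀ i ∈ s, q i * (‖S + (v i - vb)‖ ^ 2 + (t + (c i - cb)) ^ 2) =
      q i * (‖S‖ ^ 2 + t ^ 2 + ‖vb‖ ^ 2 + cb ^ 2 - 2 * ⟪S, vb⟫_ℝ - 2 * t * cb)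
      + (2 * ⟪S - vb, q i • v i⟫_ℝ + 2 * (t - cb) * (q i * c i))
      + q i * (‖v i‖ ^ 2 + (c i) ^ 2) := by
    intro i _
    have : ‖S + (v i - vb)‖ ^ 2 = ‖S‖ ^ 2 + ‖v i‖ ^ 2 + ‖vb‖ ^ 2 + 2 * ⟪S, v i⟫_ℝ
        - 2 * ⟪S, vb⟫_ℝ - 2 * ⟪vb, v i⟫_ℝ := by
      rw [norm_add_sq_real, norm_sub_sq_real, inner_sub_right, real_inner_comm vb (v i)]
      ring
    rw [this, inner_sub_left, inner_smul_right, inner_smul_right]
    ring
  rw [Finset.sum_congr rfl e1, Finset.sum_add_distrib, Finset.sum_add_distrib, ← Finset.sum_mul,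
    hq1, Finset.sum_add_distrib, ← Finset.mul_sum, ← Finset.mul_sum, ← inner_sum, ← hvb, ← hcb]
    at h1
  have h2 : ∑ i ∈ s, q i * (‖v i‖ ^ 2 + (c i) ^ 2) ≤ C := by
    calc ∑ i ∈ s, q i * (‖v i‖ ^ 2 + (c i) ^ 2) ≤ ∑ i ∈ s, q i * C :=
          Finset.sum_le_sum fun i hi => mul_le_mul_of_nonneg_left (hC i hi) (hq i hi)
      _ = C := by rw [← Finset.sum_mul, hq1, one_mul]
  rw [inner_sub_left, real_inner_self_eq_norm_sq] at h1
  nlinarith [sq_nonneg ‖vb‖, sq_nonneg cb]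

lemma maurey {ι : Type*} (s : Finset ι) (q : ι → ℝ) (hq : ∀ i ∈ s, 0 ≤ q i)
    (hq1 : ∑ i ∈ s, q i = 1) (v : ι → V) (c : ι → ℝ) (C : ℝ)
    (hC : ∀ i ∈ s, ‖v i‖ ^ 2 + (c i) ^ 2 ≤ C) (k : ℕ) :
    ∃ f : Fin k → ι, (∀ j, f j ∈ s) ∧
      ‖∑ j, (v (f j) - ∑ i ∈ s, q i • v i)‖ ^ 2 + (∑ j, (c (f j) - ∑ i ∈ s, q i * c i)) ^ 2
        ≤ k * C := by
  induction k with
  | zero => exact ⟨Fin.elim0, fun j => j.elim0, by simp⟩
  | succ k ih =>
    obtain ⟨f, hf, hb⟩ := ih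
    obtain ⟨i, hi, hbi⟩ := maurey_step s q hq hq1 v c C hC
      (∑ j, (v (f j) - ∑ i ∈ s, q i • v i)) (∑ j, (c (f j) - ∑ i ∈ s, q i * c i))
    refine ⟨Fin.snoc f i, ?_, ?_⟩
    · intro j
      refine Fin.lastCases ?_ (fun j => ?_) j
      · simpa using hi
      · simpa using hf j
    · rw [Fin.sum_univ_castSucc, Fin.sum_univ_castSucc]
      simp only [Fin.snoc_castSucc, Fin.snoc_last]
      push_cast
      linarith

/-- The objective function. -/
noncomputable def obj (s : Finset V) (w : V → ℝ) (u : V) : ℝ :=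
  ∑ z ∈ s, w z * (‖z‖ ^ 2 / 2) + ‖u - ∑ z ∈ s, w z • z‖

lemma exists_obj (Z : Set V) (u : V) (ε : ℝ) (hε : 0 < ε) :
    ∃ (s : Finset V) (w : V → ℝ), ↑s ⊆ Z ∧ (∀ z, 0 ≤ w z) ∧ obj s w u < gg Z u + ε := by
  classical
  obtain ⟨l, hl⟩ := exists_lt_of_ciInf_lt (show gg Z u < gg Z u + ε by linarith)
  refine ⟨l.support.map (Function.Embedding.subtype _),
    fun z => if h : z ∈ Z then (l ⟨z, h⟩ : ℝ) else 0, ?_, ?_, ?_⟩
  · intro z hz
    simp only [Finset.coe_map, Function.Embedding.subtype_apply, mem_image, Finset.mem_coe,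
      Subtype.exists, exists_and_right, exists_eq_right] at hz
    exact hz.1
  · intro z
    by_cases h : z ∈ Z
    · simp [h]
    · simp [h]
  · refine lt_of_le_of_lt (le_of_eq ?_) hl
    unfold obj cst vec
    rw [Finset.sum_map, Finset.sum_map, Finsupp.linearCombination_apply,
      Finsupp.linearCombination_apply, Finsupp.sum, Finsupp.sum]
    congr 1
    · apply Finset.sum_congr rfl
      intro z _
      simp [NNReal.smul_def]
    · congr 2
      apply Finset.sum_congr rfl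
      intro z _
      simp [NNReal.smul_def]

lemma obj_trim (s : Finset V) (w : V → ℝ) (hw : ∀ z, 0 ≤ w z) (u : V) :
    obj (s.filter fun z => ‖z‖ ≤ 2) w u ≤ obj s w u := by
  classical
  unfold obj
  have h1 := Finset.sum_filter_add_sum_filter_not s (fun z : V => ‖z‖ ≤ 2)
    (fun z => w z * (‖z‖ ^ 2 / 2))
  have h2 := Finset.sum_filter_add_sum_filter_not s (fun z : V => ‖z‖ ≤ 2) (fun z => w z • z)
  rw [← h1, ← h2]
  set A := ∑ z ∈ s.filter (fun z : V => ‖z‖ ≤ 2), w z • z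
  set B := ∑ z ∈ s.filter (fun z : V => ¬ ‖z‖ ≤ 2), w z • z with hB
  have h3 : ‖B‖ ≤ ∑ z ∈ s.filter (fun z : V => ¬ ‖z‖ ≤ 2), w z * (‖z‖ ^ 2 / 2) := by
    refine (norm_sum_le _ _).trans (Finset.sum_le_sum ?_)
    intro z hz
    have hz2 : 2 < ‖z‖ := not_le.1 (Finset.mem_filter.1 hz).2
    rw [norm_smul, Real.norm_of_nonneg (hw z)]
    apply mul_le_mul_of_nonneg_left _ (hw z)
    nlinarith
  have h4 : ‖u - A‖ ≤ ‖u - (A + B)‖ + ‖B‖ := by
    have : u - A = (u - (A + B)) + B := by abel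
    calc ‖u - A‖ = ‖(u - (A + B)) + B‖ := by rw [← this]
      _ ≤ _ := norm_add_le _ _
  linarith

lemma obj_nonneg (s : Finset V) (w : V → ℝ) (hw : ∀ z, 0 ≤ w z) (u : V) : 0 ≤ obj s w u := by
  unfold obj
  have : 0 ≤ ∑ z ∈ s, w z * (‖z‖ ^ 2 / 2) :=
    Finset.sum_nonneg fun z _ => mul_nonneg (hw z) (by positivity)
  positivity

/-- Sparsification. -/
lemma sparsify (s : Finset V) (w : V → ℝ) (hw : ∀ z, 0 ≤ w z) (u : V)
    (h2 : ∀ z ∈ s, ‖z‖ ≤ 2) (h1 : ∀ z ∈ s, 1 / 2 ≤ ‖z‖ ^ 2) (hobj : obj s w u ≤ 2) (k : ℕ)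
    (hk : 0 < k) :
    ∃ (t : Finset V) (w' : V → ℝ), t ⊆ s ∧ t.card ≤ k ∧ (∀ z, 0 ≤ w' z) ∧
      obj t w' u ≤ obj s w u + 32 / √k := by
  classical
  set L : ℝ := ∑ z ∈ s, w z with hL
  have hkr : (0 : ℝ) < k := by exact_mod_cast hk
  have hsq : 0 < √(k : ℝ) := Real.sqrt_pos.2 hkr
  have hL0 : 0 ≤ L := Finset.sum_nonneg fun z _ => hw z
  rcases eq_or_lt_of_le hL0 with hL1 | hL1
  · -- all weights vanish
    have hz : ∀ z ∈ s, w z = 0 := (Finset.sum_eq_zero_iff_of_nonneg fun z _ => hw z).1 hL1.symm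
    refine ⟨∅, w, Finset.empty_subset _, by simp, hw, ?_⟩
    have e : obj s w u = ‖u‖ := by
      unfold obj
      rw [Finset.sum_eq_zero, Finset.sum_eq_zero]
      · simp
      · intro z hz'; rw [hz z hz', zero_smul]
      · intro z hz'; rw [hz z hz', zero_mul]
    rw [e]
    unfold obj
    simp only [Finset.sum_empty, zero_add, sub_zero]
    have : 0 ≤ 32 / √(k : ℝ) := by positivity
    linarith
  have hL8 : L ≤ 8 := by
    have h3 : L * (1 / 4) ≤ ∑ z ∈ s, w z * (‖z‖ ^ 2 / 2) := by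
      rw [hL, Finset.sum_mul]
      apply Finset.sum_le_sum
      intro z hz
      apply mul_le_mul_of_nonneg_left _ (hw z)
      linarith [h1 z hz]
    have h4 : ∑ z ∈ s, w z * (‖z‖ ^ 2 / 2) ≤ 2 := by
      unfold obj at hobj
      linarith [norm_nonneg (u - ∑ z ∈ s, w z • z)]
    linarith
  obtain ⟨f, hf, hb⟩ := maurey s (fun z => w z / L) (fun z _ => div_nonneg (hw z) hL0)
    (by rw [← Finset.sum_div, ← hL, div_self hL1.ne']) (fun z => z) (fun z => ‖z‖ ^ 2 / 2) 8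
    (by
      intro z hz
      have := h2 z hz
      have h0 := norm_nonneg z
      have : ‖z‖ ^ 2 ≤ 4 := by nlinarith
      nlinarith [sq_nonneg ‖z‖]) k
  set vb : V := ∑ z ∈ s, (w z / L) • z with hvb
  set cb : ℝ := ∑ z ∈ s, (w z / L) * (‖z‖ ^ 2 / 2) with hcb
  have hvb' : L • vb = ∑ z ∈ s, w z • z := by
    rw [hvb, Finset.smul_sum]
    apply Finset.sum_congr rfl
    intro z _
    rw [smul_smul, mul_div_cancel₀ _ hL1.ne']
  have hcb' : L * cb = ∑ z ∈ s, w z * (‖z‖ ^ 2 / 2) := by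
    rw [hcb, Finset.mul_sum]
    apply Finset.sum_congr rfl
    intro z _
    field_simp
  let w' : V → ℝ := fun z => (L / k) * (Finset.univ.filter fun j => f j = z).card
  refine ⟨Finset.univ.image f, w', ?_, ?_, ?_, ?_⟩
  · intro z hz
    obtain ⟨j, _, rfl⟩ := Finset.mem_image.1 hz
    exact hf j
  · refine Finset.card_image_le.trans ?_
    simp
  · intro z
    positivity
  have e1 : ∑ z ∈ Finset.univ.image f, w' z * (‖z‖ ^ 2 / 2) = (L / k) * ∑ j, ‖f j‖ ^ 2 / 2 := by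
    have := Finset.sum_comp (fun z : V => ‖z‖ ^ 2 / 2) f (s := Finset.univ)
    rw [this, Finset.mul_sum]
    apply Finset.sum_congr rfl
    intro z _
    simp only [w', nsmul_eq_mul]
    ring
  have e2 : ∑ z ∈ Finset.univ.image f, w' z • z = (L / k) • ∑ j, f j := by
    have := Finset.sum_comp (fun z : V => z) f (s := Finset.univ)
    rw [this, Finset.smul_sum]
    apply Finset.sum_congr rfl
    intro z _
    simp only [w', mul_smul, Nat.cast_smul_eq_nsmul]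
  unfold obj
  rw [e1, e2, ← hvb', ← hcb']
  set SV : V := ∑ j, (f j - vb) with hSV
  set SC : ℝ := ∑ j, (‖f j‖ ^ 2 / 2 - cb) with hSC
  have e3 : ∑ j, f j = SV + (k : ℝ) • vb := by
    rw [hSV, Finset.sum_sub_distrib, Finset.sum_const, Finset.card_univ, Fintype.card_fin,
      ← Nat.cast_smul_eq_nsmul ℝ]
    abel
  have e4 : ∑ j, ‖f j‖ ^ 2 / 2 = SC + k * cb := by
    rw [hSC, Finset.sum_sub_distrib, Finset.sum_const, Finset.card_univ, Fintype.card_fin,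
      nsmul_eq_mul]
    ring
  rw [e3, e4, smul_add, smul_smul, div_mul_cancel₀ _ hkr.ne']
  have hb' : ‖SV‖ ^ 2 + SC ^ 2 ≤ k * 8 := hb
  have b1 : ‖SV‖ + SC ≤ 4 * √k := by
    have hk2 : √(k : ℝ) ^ 2 = k := Real.sq_sqrt hkr.le
    have h5 : (‖SV‖ + SC) ^ 2 ≤ (4 * √k) ^ 2 := by
      nlinarith [sq_nonneg (‖SV‖ - SC)]
    exact abs_le_of_sq_le_sq' h5 (by positivity) |>.2
  have b2 : ‖u - ((L / k) • SV + L • vb)‖ ≤ ‖u - L • vb‖ + (L / k) * ‖SV‖ := by
    have : u - ((L / k) • SV + L • vb) = (u - L • vb) - (L / k) • SV := by abel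
    rw [this]
    refine (norm_sub_le _ _).trans ?_
    rw [norm_smul, Real.norm_of_nonneg (by positivity)]
  have b3 : (L / k) * (‖SV‖ + SC) ≤ 32 / √k := by
    calc (L / k) * (‖SV‖ + SC) ≤ (L / k) * (4 * √k) := by gcongr
      _ ≤ (8 / k) * (4 * √k) := by gcongr
      _ = 32 / √k := by
        have hk2 : √(k : ℝ) ^ 2 = k := Real.sq_sqrt hkr.le
        field_simp
        nlinarith
  have b4 : (L / k) * (SC + k * cb) = (L / k) * SC + L * cb := by field_simp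
  rw [b4]
  linarith

end Maurey

end Pool.Agent.H95w
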