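import Pool.Agent.H95w.Vol2

namespace Pool.Agent.H95w

open MeasureTheory ProbabilityTheory Set Metric Matrix Filter
open scoped InnerProductSpace ENNReal NNReal Topology Kronecker

section
variable {d : ℕ}

/-- mesh cube -/
def cub (h : ℝ) (k : Fin d → ℤ) : Set (E d) := {x | ∀ i, ⌊x i / h⌋ = k i}

/-- index of the mesh cube of a point -/
noncomputable def idx (h : ℝ) (x : E d) : Fin d → ℤ := fun i => ⌊x i / h⌋

lemma mem_cub_idx (h : ℝ) (x : E d) : x ∈ cub h (idx h x) := fun _ => rfl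

lemma mem_cub_iff {h : ℝ} {k : Fin d → ℤ} {x : E d} : x ∈ cub h k ↔ idx h x = k :=
  ⟨fun hx => funext hx, fun hx i => congrFun hx i⟩

lemma cub_eq {h : ℝ} (hh : 0 < h) (k : Fin d → ℤ) :
    cub h k = (@WithLp.ofLp 2 (Fin d → ℝ)) ⁻¹'
      (Set.pi univ fun i => Ico (h * k i) (h * (k i + 1))) := by
  ext x
  simp only [cub, mem_ofPred_eq, mem_preimage, Set.mem_pi, mem_univ, forall_true_left, mem_Ico]
  apply forall_congr'
  intro i
  rw [Int.floor_eq_iff, le_div_iff₀ hh, div_lt_iff₀ hh]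
  constructor
  · rintro ⟨h1, h2⟩
    constructor <;> linarith
  · rintro ⟨h1, h2⟩
    constructor <;> linarith

lemma measurableSet_cub {h : ℝ} (hh : 0 < h) (k : Fin d → ℤ) : MeasurableSet (cub h k) := by
  rw [cub_eq hh]
  exact (PiLp.volume_preserving_ofLp (Fin d)).measurable
    (MeasurableSet.univ_pi fun i => measurableSet_Ico)

lemma volume_cub {h : ℝ} (hh : 0 < h) (k : Fin d → ℤ) :
    volume (cub h k) = ENNReal.ofReal (h ^ d) := by
  rw [cub_eq hh, (PiLp.volume_preserving_ofLp (Fin d)).measure_preimage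
    (MeasurableSet.univ_pi fun i => measurableSet_Ico).nullMeasurableSet, volume_pi,
    Measure.pi_pi]
  simp only [Real.volume_Ico]
  have : ∀ i, ENNReal.ofReal (h * (k i + 1) - h * k i) = ENNReal.ofReal h := by
    intro i
    congr 1
    ring
  simp only [this]
  rw [Finset.prod_const, Finset.card_univ, Fintype.card_fin, ENNReal.ofReal_pow hh.le]

lemma dist_cub {h : ℝ} (hh : 0 < h) {k : Fin d → ℤ} {x y : E d} (hx : x ∈ cub h k)
    (hy : y ∈ cub h k) : ‖x - y‖ ≤ h * √d := by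
  rw [EuclideanSpace.norm_eq]
  have h1 : ∀ i, ‖(x - y) i‖ ^ 2 ≤ h ^ 2 := by
    intro i
    rw [cub_eq hh] at hx hy
    have hx' := hx i (mem_univ i)
    have hy' := hy i (mem_univ i)
    simp only [mem_Ico] at hx' hy'
    have h3 : |(x - y) i| ≤ h := by
      rw [abs_le, PiLp.sub_apply]
      constructor <;> linarith [hx'.1, hx'.2, hy'.1, hy'.2]
    rw [Real.norm_eq_abs]
    gcongr
  calc √(∑ i, ‖(x - y) i‖ ^ 2) ≤ √(∑ i : Fin d, h ^ 2) := by
        apply Real.sqrt_le_sqrt
        exact Finset.sum_le_sum fun i _ => h1 i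
    _ = √(d * h ^ 2) := by simp
    _ = h * √d := by
        rw [Real.sqrt_mul (Nat.cast_nonneg d), Real.sqrt_sq hh.le]; ring

lemma cub_disjoint {h : ℝ} {k k' : Fin d → ℤ} (hk : k ≠ k') : Disjoint (cub h k) (cub h k') := by
  rw [Set.disjoint_left]
  intro x hx hx'
  exact hk ((mem_cub_iff.1 hx).symm.trans (mem_cub_iff.1 hx'))

lemma cub_nonempty {h : ℝ} (hh : 0 < h) (k : Fin d → ℤ) : (cub h k).Nonempty := by
  rw [cub_eq hh]
  refine ⟨WithLp.toLp 2 fun i => h * k i, ?_⟩
  simp only [mem_preimage, Set.mem_pi, mem_univ, forall_true_left, mem_Ico]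
  intro i
  constructor
  · exact le_refl _
  · nlinarith

/-- the finite set of the cubes with small index -/
noncomputable def cubes (d : ℕ) (N : ℕ) : Finset (Fin d → ℤ) :=
  Fintype.piFinset fun _ => Finset.Icc (-(N : ℤ)) N

lemma card_cubes (d N : ℕ) : (cubes d N).card = (2 * N + 1) ^ d := by
  unfold cubes
  rw [Fintype.card_piFinset]
  simp only [Int.card_Icc, Finset.prod_const, Finset.card_univ, Fintype.card_fin]
  congr 1
  omega

lemma idx_mem_cubes {h R : ℝ} (hh : 0 < h) {N : ℕ} (hN : R / h + 1 ≤ N) {x : E d} (hx : ‖x‖ ≤ R) :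
    idx h x ∈ cubes d N := by
  unfold cubes
  rw [Fintype.mem_piFinset]
  intro i
  have h1 : |x i| ≤ R := (by
    have := PiLp.norm_apply_le x i
    rw [Real.norm_eq_abs] at this
    exact this.trans hx)
  have h2 := abs_le.1 h1
  rw [Finset.mem_Icc]
  unfold idx
  have h3 : -(R / h) ≤ x i / h := by
    rw [← neg_div]; gcongr; exact h2.1
  have h4 : x i / h ≤ R / h := by gcongr; exact h2.2
  constructor
  · rw [Int.le_floor]
    push_cast
    linarith
  · have h5 : (⌊x i / h⌋ : ℝ) ≤ x i / h := Int.floor_le _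
    have h6 : ((⌊x i / h⌋ : ℤ) : ℝ) ≤ ((N : ℤ) : ℝ) := by push_cast; linarith
    exact_mod_cast h6

variable {ι : Type*} [Fintype ι]

/-- product box -/
def box (h : ℝ) (k : ι → Fin d → ℤ) : Set (ι → E d) := Set.pi univ fun i => cub h (k i)

lemma measurableSet_box {h : ℝ} (hh : 0 < h) (k : ι → Fin d → ℤ) : MeasurableSet (box h k) :=
  MeasurableSet.univ_pi fun i => measurableSet_cub hh (k i)

lemma volume_box {h : ℝ} (hh : 0 < h) (k : ι → Fin d → ℤ) :
    volume (box h k) = ENNReal.ofReal ((h ^ d) ^ Fintype.card ι) := by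
  unfold box
  rw [volume_pi, Measure.pi_pi]
  simp only [volume_cub hh]
  rw [Finset.prod_const, Finset.card_univ, ENNReal.ofReal_pow (pow_nonneg hh.le d)]

omit [Fintype ι] in
lemma mem_box_iff {h : ℝ} {k : ι → Fin d → ℤ} {z : ι → E d} :
    z ∈ box h k ↔ (fun i => idx h (z i)) = k := by
  simp only [box, Set.mem_pi, mem_univ, forall_true_left, mem_cub_iff]
  constructor
  · intro h; exact funext h
  · intro h i; exact congrFun h i

omit [Fintype ι] in
lemma box_disjoint {h : ℝ} {k k' : ι → Fin d → ℤ} (hk : k ≠ k') :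
    Disjoint (box h k) (box h k') := by
  rw [Set.disjoint_left]
  intro x hx hx'
  exact hk ((mem_box_iff.1 hx).symm.trans (mem_box_iff.1 hx'))

lemma card_le {h : ℝ} (hh : 0 < h) (𝒦 : Finset (ι → Fin d → ℤ)) {A : Set (ι → E d)}
    (hA : ∀ k ∈ 𝒦, box h k ⊆ A) (hfin : volume A ≠ ∞) :
    𝒦.card * (h ^ d / kap d) ^ Fintype.card ι ≤ nv A := by
  have hk := kap_pos d
  have h1 : volume (⋃ k ∈ 𝒦, box h k) = 𝒦.card * ENNReal.ofReal ((h ^ d) ^ Fintype.card ι) := by
    rw [measure_biUnion_finset (fun k _ k' _ hkk => box_disjoint hkk)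
      (fun k _ => measurableSet_box hh k)]
    simp only [volume_box hh]
    rw [Finset.sum_const, nsmul_eq_mul]
  have h2 : volume (⋃ k ∈ 𝒦, box h k) ≤ volume A := measure_mono (Set.iUnion₂_subset hA)
  rw [h1] at h2
  have h3 := ENNReal.toReal_mono hfin h2
  rw [ENNReal.toReal_mul, ENNReal.toReal_natCast, ENNReal.toReal_ofReal (by positivity)] at h3
  unfold nv
  rw [div_pow, mul_div_assoc']
  gcongr

lemma card_ge {h : ℝ} (hh : 0 < h) (𝒦 : Finset (ι → Fin d → ℤ)) {A : Set (ι → E d)}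
    (hA : A ⊆ ⋃ k ∈ 𝒦, box h k) :
    nv A ≤ 𝒦.card * (h ^ d / kap d) ^ Fintype.card ι := by
  have hk := kap_pos d
  have h1 : volume A ≤ 𝒦.card * ENNReal.ofReal ((h ^ d) ^ Fintype.card ι) := by
    refine (measure_mono hA).trans ((measure_biUnion_finset_le _ _).trans ?_)
    simp only [volume_box hh]
    rw [Finset.sum_const, nsmul_eq_mul]
  have h3 := ENNReal.toReal_mono (ENNReal.mul_ne_top (ENNReal.natCast_ne_top _)
    ENNReal.ofReal_ne_top) h1
  rw [ENNReal.toReal_mul, ENNReal.toReal_natCast, ENNReal.toReal_ofReal (by positivity)] at h3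
  unfold nv
  rw [div_pow, mul_div_assoc']
  gcongr

end

end Pool.Agent.H95w
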