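import Pool.Agent.H95w.Exist

namespace Pool.Agent.H95w

open MeasureTheory ProbabilityTheory Set Metric Matrix Filter
open scoped InnerProductSpace ENNReal NNReal Topology Kronecker

lemma smul_mem_cell {d : ℕ} {Z : Set (E d)} {x : E d} (hx : x ∈ cell Z) {s : ℝ} (hs0 : 0 ≤ s)
    (hs1 : s ≤ 1) : s • x ∈ cell Z := by
  intro z hz
  have h1 := hx z hz
  have h2 : ‖x - z‖ ^ 2 = ‖x‖ ^ 2 - 2 * ⟪x, z⟫_ℝ + ‖z‖ ^ 2 := norm_sub_sq_real x z
  have h3 : ‖x‖ ^ 2 ≤ ‖x - z‖ ^ 2 := by gcongr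
  have h4 : ‖s • x - z‖ ^ 2 = ‖s • x‖ ^ 2 - 2 * ⟪s • x, z⟫_ℝ + ‖z‖ ^ 2 := norm_sub_sq_real _ z
  rw [inner_smul_left] at h4
  simp only [RCLike.conj_to_real] at h4
  have h5 : 2 * (s * ⟪x, z⟫_ℝ) ≤ ‖z‖ ^ 2 := by
    rcases le_total 0 ⟪x, z⟫_ℝ with h | h
    · nlinarith
    · have : s * ⟪x, z⟫_ℝ ≤ 0 := mul_nonpos_of_nonneg_of_nonpos hs0 h
      have := sq_nonneg ‖z‖
      linarith
  have h6 : ‖s • x‖ ^ 2 ≤ ‖s • x - z‖ ^ 2 := by rw [h4]; linarith
  exact le_of_sq_le_sq h6 (norm_nonneg _)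

lemma mu_ball {d : ℕ} (y : E d) {r : ℝ} (hr : 0 < r) : mu d (ball y r) = ENNReal.ofReal (r ^ d) := by
  have hκ := kap_pos d
  unfold mu
  rw [Measure.smul_apply, Measure.addHaar_ball_of_pos volume y hr, finrank_euclideanSpace_fin,
    smul_eq_mul]
  have : volume (ball (0 : E d) 1) = ENNReal.ofReal (kap d) := by
    rw [kap, ENNReal.ofReal_toReal measure_ball_lt_top.ne]
  rw [this, ← ENNReal.ofReal_mul (by positivity), ← ENNReal.ofReal_mul (by positivity)]
  congr 1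
  field_simp

lemma eventually_exp_small {C a : ℝ} (hC : 0 < C) (ha : 1 < a) {ε : ℝ} (hε : 0 < ε) :
    ∀ᶠ d : ℕ in atTop, (C * d) ^ d * Real.exp (-a ^ d) ≤ ε := by
  have h1 := tendsto_pow_const_div_const_pow_of_one_lt 2 ha
  have h2 : ∀ᶠ d : ℕ in atTop, (d : ℝ) ^ 2 / a ^ d ≤ 1 / (2 * C) :=
    h1.eventually (ge_mem_nhds (by positivity))
  have h3 : Tendsto (fun d : ℕ => Real.exp (-(a ^ d / 2))) atTop (𝓝 0) := by
    apply Real.tendsto_exp_neg_atTop_nhds_zero.comp
    exact (tendsto_pow_atTop_atTop_of_one_lt ha).atTop_div_const (by norm_num)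
  filter_upwards [h2, h3.eventually (ge_mem_nhds hε), eventually_gt_atTop 0] with d hd1 hd2 hd0
  have hd0' : (0 : ℝ) < d := by exact_mod_cast hd0
  have had : 0 < a ^ d := by positivity
  rw [div_le_div_iff₀ had (by positivity)] at hd1
  have h4 : (C * d) ^ d ≤ Real.exp (C * d ^ 2) := by
    have h5 : C * d ≤ Real.exp (C * d) := by
      have := Real.add_one_le_exp (C * d)
      linarith
    calc (C * d) ^ d ≤ (Real.exp (C * d)) ^ d := by gcongr
      _ = Real.exp (C * d ^ 2) := by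
          rw [← Real.exp_nat_mul]
          congr 1
          ring
  calc (C * d) ^ d * Real.exp (-a ^ d) ≤ Real.exp (C * d ^ 2) * Real.exp (-a ^ d) := by gcongr
    _ = Real.exp (C * d ^ 2 - a ^ d) := by rw [← Real.exp_add]; congr 1
    _ ≤ Real.exp (-(a ^ d / 2)) := by
        apply Real.exp_le_exp.2
        nlinarith
    _ ≤ ε := hd2

/-- **The cell is contained in a ball of radius close to one.** -/
theorem outrad_prob {t : ℝ} (ht : 0 < t) {ε : ℝ} (hε : 0 < ε) :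
    ∀ᶠ d : ℕ in atTop, ∀ {Ω : Type*} [MeasurableSpace Ω] (P : Measure Ω) [IsProbabilityMeasure P]
      (Z : Ω → Set (E d)), IsPoisson P (mu d) Z →
      P {ω | ¬ cell (Z ω) ⊆ closedBall 0 (1 + t)} ≤ ENNReal.ofReal ε := by
  set C : ℝ := 4 * (1 + t) / t + 7 with hC
  have hC0 : 0 < C := by positivity
  filter_upwards [eventually_exp_small hC0 (show 1 < 1 + t / 2 by linarith) hε,
    eventually_gt_atTop 0] with d hd hd0
  intro Ω _ P _ Z hZ
  have hd1 : (1 : ℝ) ≤ d := by exact_mod_cast hd0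
  have hsd : 1 ≤ √(d : ℝ) := Real.one_le_sqrt.2 hd1
  have hsd' : √(d : ℝ) ≤ d := by
    rw [Real.sqrt_le_left (by linarith)]
    nlinarith
  set h : ℝ := t / (2 * √d) with hh'
  have hh : 0 < h := by positivity
  have hhd : h * √d = t / 2 := by
    rw [hh']; field_simp
  obtain ⟨N, hN1, hN2⟩ : ∃ N : ℕ, (1 + t) / h + 1 ≤ N ∧ (N : ℝ) ≤ (1 + t) / h + 3 := by
    refine ⟨⌈(1 + t) / h⌉₊ + 1, ?_, ?_⟩
    · have := Nat.le_ceil ((1 + t) / h)
      push_cast
      linarith
    · have := (Nat.ceil_lt_add_one (show 0 ≤ (1 + t) / h by positivity)).le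
      push_cast
      linarith
  have hsub : {ω | ¬ cell (Z ω) ⊆ closedBall 0 (1 + t)} ⊆
      ⋃ k ∈ cubes d N, {ω | Z ω ∩ ball (pt hh k) (1 + t / 2) = ∅} := by
    intro ω hω
    simp only [mem_ofPred_eq, Set.not_subset] at hω
    obtain ⟨x, hx, hx2⟩ := hω
    rw [mem_closedBall, dist_zero_right, not_le] at hx2
    have hx0 : 0 < ‖x‖ := by linarith
    set x' := ((1 + t) / ‖x‖) • x with hx'
    have hx'c : x' ∈ cell (Z ω) := by
      apply smul_mem_cell hx (by positivity)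
      rw [div_le_one hx0]
      exact hx2.le
    have hx'n : ‖x'‖ = 1 + t := by
      rw [hx', norm_smul, Real.norm_of_nonneg (by positivity)]
      field_simp
    refine Set.mem_biUnion (x := idx h x') ?_ ?_
    · exact idx_mem_cubes hh hN1 hx'n.le
    · rw [mem_ofPred_eq, Set.eq_empty_iff_forall_notMem]
      rintro z ⟨hzZ, hzb⟩
      rw [mem_ball, dist_eq_norm] at hzb
      have h1 := hx'c z hzZ
      rw [hx'n] at h1
      have h2 : ‖x' - pt hh (idx h x')‖ ≤ t / 2 := by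
        rw [← hhd]
        exact dist_cub hh (mem_cub_idx h x') (pt_mem hh _)
      have h3 : ‖x' - z‖ ≤ ‖x' - pt hh (idx h x')‖ + ‖z - pt hh (idx h x')‖ := by
        have : x' - z = (x' - pt hh (idx h x')) - (z - pt hh (idx h x')) := by abel
        rw [this]
        exact norm_sub_le _ _
      linarith
  refine (measure_mono hsub).trans ((measure_biUnion_finset_le _ _).trans ?_)
  have hv : ∀ k ∈ cubes d N, P {ω | Z ω ∩ ball (pt hh k) (1 + t / 2) = ∅} =
      ENNReal.ofReal (Real.exp (-(1 + t / 2) ^ d)) := by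
    intro k _
    rw [void_prob hZ measurableSet_ball (by rw [mu_ball _ (by positivity)]; exact
      ENNReal.ofReal_ne_top), mu_ball _ (by positivity), ENNReal.toReal_ofReal (by positivity)]
  rw [Finset.sum_congr rfl hv, Finset.sum_const, card_cubes, nsmul_eq_mul,
    ← ENNReal.ofReal_natCast, ← ENNReal.ofReal_mul (by positivity)]
  apply ENNReal.ofReal_le_ofReal
  refine le_trans ?_ hd
  push_cast
  have h5 : 2 * (N : ℝ) + 1 ≤ C * d := by
    have e1 : (1 + t) / h = 2 * (1 + t) / t * √d := by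
      rw [hh']; field_simp
    have e2 : 2 * (1 + t) / t * √d ≤ 2 * (1 + t) / t * d := by gcongr
    have e3 : C * d = 2 * (2 * (1 + t) / t * d) + 7 * d := by rw [hC]; ring
    rw [e3]
    rw [e1] at hN2
    nlinarith
  gcongr

end Pool.Agent.H95w
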