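import Pool.Agent.H95w.Mesh

namespace Pool.Agent.H95w

open MeasureTheory ProbabilityTheory Set Metric Matrix Filter
open scoped InnerProductSpace ENNReal NNReal Topology Kronecker

/-- the normalised intensity measure -/
noncomputable def mu (d : ℕ) : Measure (E d) := ENNReal.ofReal (kap d)⁻¹ • volume

lemma mu_cub {d : ℕ} {h : ℝ} (hh : 0 < h) (k : Fin d → ℤ) :
    mu d (cub h k) = ENNReal.ofReal (h ^ d / kap d) := by
  have := kap_pos d
  unfold mu
  rw [Measure.smul_apply, volume_cub hh, smul_eq_mul, ← ENNReal.ofReal_mul (by positivity)]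
  congr 1
  field_simp

variable {Ω : Type*} [MeasurableSpace Ω] {P : Measure Ω}

lemma measurableSet_void {X : Type*} [MeasurableSpace X] {m : Measure X} {Z : Ω → Set X}
    (hZ : IsPoisson P m Z) {A : Set X} (hA : MeasurableSet A) :
    MeasurableSet {ω | Z ω ∩ A = ∅} := by
  have : {ω | Z ω ∩ A = ∅} = (fun ω => (Z ω ∩ A).encard) ⁻¹' {0} := by
    ext ω
    simp
  rw [this]
  exact hZ.meas A hA (measurableSet_singleton _)

lemma void_prob {X : Type*} [MeasurableSpace X] {m : Measure X} {Z : Ω → Set X}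
    (hZ : IsPoisson P m Z) {A : Set X} (hA : MeasurableSet A) (hm : m A ≠ ∞) :
    P {ω | Z ω ∩ A = ∅} = ENNReal.ofReal (Real.exp (-(m A).toReal)) := by
  have h1 := hZ.law A hA hm 0
  have h2 : {ω | Z ω ∩ A = ∅} = {ω | (Z ω ∩ A).encard = ((0 : ℕ) : ℕ∞)} := by
    ext ω
    simp
  rw [h2, h1]
  simp

variable {d : ℕ} {Z : Ω → Set (E d)}

/-- the event that a cube is occupied -/
def occ (Z : Ω → Set (E d)) (h : ℝ) (k : Fin d → ℤ) : Set Ω := {ω | Z ω ∩ cub h k = ∅}ᶜ

/-- probability that a cube is occupied -/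
noncomputable def pocc (d : ℕ) (h : ℝ) : ℝ := 1 - Real.exp (-(h ^ d / kap d))

lemma measurableSet_occ (hZ : IsPoisson P (mu d) Z) {h : ℝ} (hh : 0 < h) (k : Fin d → ℤ) :
    MeasurableSet (occ Z h k) :=
  (measurableSet_void hZ (measurableSet_cub hh k)).compl

lemma prob_occ [IsProbabilityMeasure P] (hZ : IsPoisson P (mu d) Z) {h : ℝ} (hh : 0 < h)
    (k : Fin d → ℤ) : P (occ Z h k) = ENNReal.ofReal (pocc d h) := by
  have hk := kap_pos d
  unfold occ
  rw [prob_compl_eq_one_sub (measurableSet_void hZ (measurableSet_cub hh k)),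
    void_prob hZ (measurableSet_cub hh k) (by rw [mu_cub hh]; exact ENNReal.ofReal_ne_top),
    mu_cub hh, ENNReal.toReal_ofReal (by positivity), ← ENNReal.ofReal_one,
    ← ENNReal.ofReal_sub _ (Real.exp_nonneg _)]
  rfl

lemma prob_inter_occ [IsProbabilityMeasure P] (hZ : IsPoisson P (mu d) Z) {h : ℝ} (hh : 0 < h)
    (R : Finset (Fin d → ℤ)) :
    P (⋂ k ∈ R, occ Z h k) = ENNReal.ofReal (pocc d h) ^ R.card := by
  let e := R.equivFin.symm
  have hdisj : Pairwise (Function.onFun Disjoint fun i : Fin R.card => cub h (e i : Fin d → ℤ)) := by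
    intro i j hij
    apply cub_disjoint
    intro h
    exact hij (e.injective (Subtype.ext h))
  have h1 := hZ.indep R.card (fun i => cub h (e i : Fin d → ℤ)) (fun i => measurableSet_cub hh _)
    hdisj
  have h2 := h1.measure_inter_preimage_eq_mul Finset.univ (sets := fun _ => {0}ᶜ)
    (fun i _ => (measurableSet_singleton _).compl)
  have h3 : ∀ i : Fin R.card, (fun ω => (Z ω ∩ cub h (e i : Fin d → ℤ)).encard) ⁻¹' {0}ᶜ =
      occ Z h (e i) := by
    intro i
    ext ω
    simp [occ]
  simp only [h3] at h2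
  have h4 : ⋂ k ∈ R, occ Z h k = ⋂ i ∈ (Finset.univ : Finset (Fin R.card)), occ Z h (e i) := by
    ext ω
    simp only [mem_iInter]
    constructor
    · intro H i _
      exact H _ (e i).2
    · intro H k hk
      have := H (e.symm ⟨k, hk⟩) (Finset.mem_univ _)
      simpa using this
  rw [h4, h2]
  simp only [prob_occ hZ hh]
  rw [Finset.prod_const, Finset.card_univ, Fintype.card_fin]

lemma prob_two [IsProbabilityMeasure P] (hZ : IsPoisson P (mu d) Z) {h : ℝ} (hh : 0 < h)
    (k : Fin d → ℤ) :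
    P {ω | 2 ≤ (Z ω ∩ cub h k).encard} ≤ ENNReal.ofReal ((h ^ d / kap d) ^ 2) := by
  have hk := kap_pos d
  set q := h ^ d / kap d with hq
  have hq0 : 0 ≤ q := by positivity
  have hm := hZ.meas (cub h k) (measurableSet_cub hh k)
  have hμ : mu d (cub h k) ≠ ∞ := by rw [mu_cub hh]; exact ENNReal.ofReal_ne_top
  have h0 := hZ.law (cub h k) (measurableSet_cub hh k) hμ 0
  have h1 := hZ.law (cub h k) (measurableSet_cub hh k) hμ 1
  rw [mu_cub hh, ENNReal.toReal_ofReal (by positivity)] at h0 h1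
  rw [pow_zero, mul_one, Nat.factorial_zero, Nat.cast_one (R := ℝ), div_one] at h0
  rw [pow_one, Nat.factorial_one, Nat.cast_one (R := ℝ), div_one] at h1
  have hset : {ω | 2 ≤ (Z ω ∩ cub h k).encard} =
      ({ω | (Z ω ∩ cub h k).encard = ((0 : ℕ) : ℕ∞)} ∪
        {ω | (Z ω ∩ cub h k).encard = ((1 : ℕ) : ℕ∞)})ᶜ := by
    ext ω
    simp only [mem_ofPred_eq, mem_compl_iff, mem_union, not_or]
    generalize (Z ω ∩ cub h k).encard = n
    constructor
    · intro H
      constructor
      · rintro rfl; simp at H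
      · rintro rfl
        simp at H
    · rintro ⟨H0, H1⟩
      induction n using ENat.recTopCoe with
      | top => exact le_top
      | coe n =>
        have h0' : n ≠ 0 := fun h => H0 (by rw [h])
        have h1' : n ≠ 1 := fun h => H1 (by rw [h])
        have : 2 ≤ n := by omega
        exact_mod_cast this
  have hm0 : MeasurableSet {ω | (Z ω ∩ cub h k).encard = ((0 : ℕ) : ℕ∞)} :=
    hm (measurableSet_singleton _)
  have hm1 : MeasurableSet {ω | (Z ω ∩ cub h k).encard = ((1 : ℕ) : ℕ∞)} :=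
    hm (measurableSet_singleton _)
  rw [hset, prob_compl_eq_one_sub (hm0.union hm1), measure_union _ hm1]
  · rw [h0, h1, ← ENNReal.ofReal_add (Real.exp_nonneg _) (by positivity), ← ENNReal.ofReal_one,
      ← ENNReal.ofReal_sub _ (by positivity)]
    apply ENNReal.ofReal_le_ofReal
    have h5 : 1 - q ≤ Real.exp (-q) := by
      have := Real.add_one_le_exp (-q)
      linarith
    nlinarith [Real.exp_nonneg (-q)]
  · rw [Set.disjoint_left]
    intro ω ha hb
    simp only [mem_ofPred_eq] at ha hb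
    rw [ha] at hb
    exact absurd hb (by simp)

lemma pocc_le (d : ℕ) (h : ℝ) : pocc d h ≤ h ^ d / kap d := by
  unfold pocc
  have := Real.add_one_le_exp (-(h ^ d / kap d))
  linarith

lemma pocc_nonneg (d : ℕ) {h : ℝ} (hh : 0 < h) : 0 ≤ pocc d h := by
  unfold pocc
  have hk := kap_pos d
  have : Real.exp (-(h ^ d / kap d)) ≤ 1 := by
    apply Real.exp_le_one_iff.2
    have : 0 ≤ h ^ d / kap d := by positivity
    linarith
  linarith

lemma pocc_ge (d : ℕ) {h : ℝ} (hh : 0 < h) (hq : h ^ d / kap d ≤ 1) :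
    h ^ d / kap d / 3 ≤ pocc d h := by
  unfold pocc
  have hk := kap_pos d
  set q := h ^ d / kap d with hqd
  have hq0 : 0 ≤ q := by positivity
  have h1 : Real.exp (-q) * (1 + q) ≤ 1 := by
    have := Real.add_one_le_exp q
    calc Real.exp (-q) * (1 + q) ≤ Real.exp (-q) * Real.exp q := by
          have := Real.exp_nonneg (-q); nlinarith
      _ = 1 := by rw [← Real.exp_add]; simp
  have h2 : Real.exp (-1) ≤ Real.exp (-q) := Real.exp_le_exp.2 (by linarith)
  have h3 : 1 / 3 ≤ Real.exp (-1) := by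
    rw [Real.exp_neg, one_div]
    apply inv_anti₀ (Real.exp_pos 1)
    have := Real.exp_one_lt_d9
    linarith
  nlinarith

end Pool.Agent.H95w
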