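import Pool.Agent.H95w.LinAlg

namespace Pool.Agent.H95w

open MeasureTheory ProbabilityTheory Set Metric Matrix
open scoped InnerProductSpace ENNReal NNReal Topology

variable {ι : Type*} [Fintype ι] [DecidableEq ι]

lemma schur_det {V : Type*} [NormedAddCommGroup V] [InnerProductSpace ℝ V] (P : ι → V)
    (S : Finset ι) (hS : (gram ℝ (fun i : S => P i)).det ≠ 0) :
    ∃ c : S → {i // i ∉ S} → ℝ,
      (gram ℝ (fun j : {i // i ∉ S} => P j - ∑ i : S, c i j • P i)).det =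
        (gram ℝ P).det / (gram ℝ (fun i : S => P i)).det := by
  set A := gram ℝ (fun i : S => P i) with hA
  let X : Matrix S {i // i ∉ S} ℝ := Matrix.of fun i j => ⟪P i, P j⟫_ℝ
  let D : Matrix {i // i ∉ S} {i // i ∉ S} ℝ := gram ℝ (fun i : {i // i ∉ S} => P i)
  letI : Invertible A := A.invertibleOfIsUnitDet (isUnit_iff_ne_zero.2 hS)
  let c : Matrix S {i // i ∉ S} ℝ := A⁻¹ * X
  refine ⟨fun i j => c i j, ?_⟩
  have hAc : A * c = X := by
    simp only [c]
    rw [← Matrix.mul_assoc, Matrix.mul_nonsing_inv _ (isUnit_iff_ne_zero.2 hS), Matrix.one_mul]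
  have horth : ∀ (i : S) (j : {i // i ∉ S}),
      ⟪P i, P j - ∑ i : S, c i j • P i⟫_ℝ = 0 := by
    intro i j
    rw [inner_sub_right, inner_sum]
    have h1 := congrFun (congrFun hAc i) j
    rw [Matrix.mul_apply] at h1
    have h2 : ∑ k : S, ⟪P i, c k j • P k⟫_ℝ = X i j := by
      rw [← h1]
      apply Finset.sum_congr rfl
      intro k _
      rw [inner_smul_right, hA, gram_apply]
      ring
    rw [h2]
    simp [X]
  have hSig : gram ℝ (fun j : {i // i ∉ S} => P j - ∑ i : S, c i j • P i) =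
      D - Xᵀ * A⁻¹ * X := by
    ext j k
    rw [gram_apply, inner_sub_left, sum_inner]
    have h1 : ∑ i : S, ⟪c i j • P i, P k - ∑ i : S, c i k • P i⟫_ℝ = 0 := by
      apply Finset.sum_eq_zero
      intro i _
      rw [inner_smul_left, horth i k, mul_zero]
    rw [h1, sub_zero, inner_sub_right, inner_sum, Matrix.sub_apply, Matrix.mul_assoc,
      Matrix.mul_apply]
    congr 1
    apply Finset.sum_congr rfl
    intro i _
    rw [inner_smul_right, Matrix.transpose_apply, real_inner_comm]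
    simp only [X, c, Matrix.of_apply]
    ring
  let e : S ⊕ {i // i ∉ S} ≃ ι := Equiv.sumCompl (fun i => i ∈ S)
  have hblock : (gram ℝ P).submatrix e e = fromBlocks A X Xᵀ D := by
    ext i j
    rcases i with i | i <;> rcases j with j | j
    · simp [e, hA, gram_apply]
    · simp [e, X, gram_apply]
    · simp [e, X, gram_apply, real_inner_comm]
    · simp [e, D, gram_apply]
  have hdet : (gram ℝ P).det = A.det * (D - Xᵀ * A⁻¹ * X).det := by
    rw [← Matrix.det_submatrix_equiv_self e, hblock, Matrix.det_fromBlocks₁₁,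
      Matrix.invOf_eq_nonsing_inv]
  rw [hSig, hdet]
  field_simp

/-- The affine maps used for extensions. -/
lemma exists_ext {D : ℕ} (P : ι → E D) (S : Finset ι)
    (hS : (gram ℝ (fun i : S => P i)).det ≠ 0) {θ : ℝ}
    (hθ : (gram ℝ P).det / (gram ℝ (fun i : S => P i)).det < θ) :
    ∃ (B : Matrix {i // i ∉ S} {i // i ∉ S} ℝ) (C : S → {i // i ∉ S} → ℝ) (δ : ℝ), 0 < δ ∧
      B.det ≠ 0 ∧ 1 / B.det ^ 2 < θ ∧ ∀ (d : ℕ) (z : ι → E d),
      (∀ i j, |⟪z i, z j⟫_ℝ - ⟪P i, P j⟫_ℝ| ≤ δ) →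
      ∀ j, ‖∑ i : {i // i ∉ S}, B i j • z i + ∑ i : S, C i j • z i‖ < 1 := by
  obtain ⟨c, hc⟩ := schur_det P S hS
  obtain ⟨B, hB0, hB1, hB2⟩ := exists_B
    (posSemidef_gram (𝕜 := ℝ) (fun j : {i // i ∉ S} => P j - ∑ i : S, c i j • P i))
    (θ := θ) (by rw [hc]; exact hθ)
  let C : S → {i // i ∉ S} → ℝ := fun i j => -∑ k, B k j * c i k
  let y : {i // i ∉ S} → ι → ℝ := fun j i => if h : i ∈ S then C ⟨i, h⟩ j else B ⟨i, h⟩ j
  have hy : ∀ (d : ℕ) (z : ι → E d) (j : {i // i ∉ S}), ∑ i, y j i • z i =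
      ∑ i : {i // i ∉ S}, B i j • z i + ∑ i : S, C i j • z i := by
    intro d z j
    rw [← Equiv.sum_comp (Equiv.sumCompl (fun i => i ∈ S)) (fun i => y j i • z i),
      Fintype.sum_sum_type, add_comm]
    congr 1
    · apply Finset.sum_congr rfl
      intro i _
      simp [y, i.2]
    · apply Finset.sum_congr rfl
      intro i _
      simp [y, i.2]
  have hPn : ∀ j, ‖∑ i, y j i • P i‖ ^ 2 < 1 := by
    intro j
    rw [hy]
    have h1 := norm_comb_sq (fun j : {i // i ∉ S} => P j - ∑ i : S, c i j • P i) B j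
    have h2 : ∑ i : {i // i ∉ S}, B i j • P i + ∑ i : S, C i j • P i =
        ∑ k, B k j • (P k - ∑ i : S, c i k • P i) := by
      simp only [smul_sub, Finset.sum_sub_distrib, C, neg_smul, Finset.sum_neg_distrib,
        Finset.smul_sum, smul_smul, Finset.sum_smul]
      rw [sub_eq_add_neg]
      congr 2
      exact Finset.sum_comm
    rw [h2, h1]
    exact hB2 j
  obtain ⟨δ, hδ, hδ0⟩ : ∃ δ : ℝ, (∀ j, ‖∑ i, y j i • P i‖ ^ 2 + (∑ i, |y j i|) ^ 2 * δ < 1) ∧
      0 < δ := by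
    have h1 : ∀ᶠ δ in 𝓝 (0 : ℝ),
        ∀ j, ‖∑ i, y j i • P i‖ ^ 2 + (∑ i, |y j i|) ^ 2 * δ < 1 := by
      rw [Filter.eventually_all]
      intro j
      apply ContinuousAt.eventually_lt
      · fun_prop
      · fun_prop
      · simpa using hPn j
    exact ((h1.filter_mono nhdsWithin_le_nhds).and
      (self_mem_nhdsWithin : Ioi (0 : ℝ) ∈ 𝓝[>] (0 : ℝ))).exists
  refine ⟨B, C, δ, hδ0, hB0, hB1, ?_⟩
  intro d z hz j
  rw [← hy]
  have h1 := norm_comb_sq_le P z hz (y j)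
  have h2 := (abs_le.1 h1).2
  have h3 := hδ j
  have h4 : ‖∑ i, y j i • z i‖ ^ 2 < 1 := by linarith
  have h5 := norm_nonneg (∑ i, y j i • z i)
  nlinarith

end Pool.Agent.H95w
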