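import Pool.Agent.H95w.GoodProb

namespace Pool.Agent.H95w

open MeasureTheory ProbabilityTheory Set Metric Matrix Filter
open scoped InnerProductSpace ENNReal NNReal Topology Kronecker

variable {Ω : Type*} [MeasurableSpace Ω] {P : Measure Ω} [IsProbabilityMeasure P]

lemma second_moment {κ : Type*} (F : Finset κ) (a : κ → Set Ω)
    (ha : ∀ k ∈ F, MeasurableSet (a k)) {α : ℝ} (hP : ∀ k ∈ F, P.real (a k) = α) :
    P.real (⋂ k ∈ F, (a k)ᶜ) * (F.card * α) ^ 2 ≤
      ∑ k ∈ F, ∑ k' ∈ F, (P.real (a k ∩ a k') - α ^ 2) := by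
  classical
  set c : ℝ := F.card * α with hc
  let f : κ → Ω → ℝ := fun k => (a k).indicator fun _ => (1 : ℝ)
  have hfint : ∀ k ∈ F, Integrable (f k) P := fun k hk =>
    (integrable_const (1 : ℝ)).indicator (ha k hk)
  have hfI : ∀ k ∈ F, ∫ ω, f k ω ∂P = α := by
    intro k hk
    rw [← hP k hk]
    simp only [f]
    rw [integral_indicator (ha k hk)]
    simp
  have hgint : ∀ k ∈ F, ∀ k' ∈ F, Integrable (fun ω => f k ω * f k' ω) P := by
    intro k hk k' hk'
    have : (fun ω => f k ω * f k' ω) = (a k ∩ a k').indicator fun _ => (1 : ℝ) := by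
      funext ω
      simp only [f, Set.indicator_apply, mem_inter_iff]
      by_cases h1 : ω ∈ a k <;> by_cases h2 : ω ∈ a k' <;> simp [h1, h2]
    rw [this]
    exact (integrable_const (1 : ℝ)).indicator ((ha k hk).inter (ha k' hk'))
  have hgI : ∀ k ∈ F, ∀ k' ∈ F, ∫ ω, f k ω * f k' ω ∂P = P.real (a k ∩ a k') := by
    intro k hk k' hk'
    have : (fun ω => f k ω * f k' ω) = (a k ∩ a k').indicator fun _ => (1 : ℝ) := by
      funext ω
      simp only [f, Set.indicator_apply, mem_inter_iff]
      by_cases h1 : ω ∈ a k <;> by_cases h2 : ω ∈ a k' <;> simp [h1, h2]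
    rw [this, integral_indicator ((ha k hk).inter (ha k' hk'))]
    simp
  have hexp : (fun ω => (∑ k ∈ F, f k ω - c) ^ 2) = fun ω =>
      ∑ k ∈ F, ∑ k' ∈ F, f k ω * f k' ω - (2 * c) * ∑ k ∈ F, f k ω + c ^ 2 := by
    funext ω
    rw [← Finset.sum_mul_sum]
    ring
  have hI1 : Integrable (fun ω => ∑ k ∈ F, ∑ k' ∈ F, f k ω * f k' ω) P :=
    integrable_finsetSum _ fun k hk => integrable_finsetSum _ fun k' hk' => hgint k hk k' hk'
  have hI2 : Integrable (fun ω => ∑ k ∈ F, f k ω) P := integrable_finsetSum _ hfint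
  have hI : Integrable (fun ω => (∑ k ∈ F, f k ω - c) ^ 2) P := by
    rw [hexp]
    exact (hI1.sub (hI2.const_mul _)).add (integrable_const _)
  have hval : ∫ ω, (∑ k ∈ F, f k ω - c) ^ 2 ∂P =
      ∑ k ∈ F, ∑ k' ∈ F, (P.real (a k ∩ a k') - α ^ 2) := by
    have hI12 : Integrable (fun ω => ∑ k ∈ F, ∑ k' ∈ F, f k ω * f k' ω -
        (2 * c) * ∑ k ∈ F, f k ω) P := hI1.sub (hI2.const_mul (2 * c))
    rw [hexp, integral_add hI12 (integrable_const _),
      integral_sub hI1 (hI2.const_mul (2 * c)), integral_const_mul, integral_finsetSum _ hfint,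
      Finset.sum_congr rfl hfI, integral_finsetSum _
        (fun k hk => integrable_finsetSum _ fun k' hk' => hgint k hk k' hk')]
    have h1 : ∑ k ∈ F, ∫ ω, ∑ k' ∈ F, f k ω * f k' ω ∂P =
        ∑ k ∈ F, ∑ k' ∈ F, P.real (a k ∩ a k') := by
      apply Finset.sum_congr rfl
      intro k hk
      rw [integral_finsetSum _ (fun k' hk' => hgint k hk k' hk')]
      exact Finset.sum_congr rfl fun k' hk' => hgI k hk k' hk'
    rw [h1]
    simp only [Finset.sum_sub_distrib, Finset.sum_const, nsmul_eq_mul, integral_const,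
      smul_eq_mul, probReal_univ, hc]
    ring
  rw [← hval]
  have hNm : MeasurableSet (⋂ k ∈ F, (a k)ᶜ) :=
    Finset.measurableSet_biInter F fun k hk => (ha k hk).compl
  have h2 : P.real (⋂ k ∈ F, (a k)ᶜ) * c ^ 2 =
      ∫ ω, (⋂ k ∈ F, (a k)ᶜ).indicator (fun _ => c ^ 2) ω ∂P := by
    rw [integral_indicator hNm]
    simp
  rw [h2]
  apply integral_mono ((integrable_const _).indicator hNm) hI
  intro ω
  by_cases hω : ω ∈ ⋂ k ∈ F, (a k)ᶜ
  · simp only [Set.indicator_of_mem hω]
    have h3 : ∑ k ∈ F, f k ω = 0 := by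
      apply Finset.sum_eq_zero
      intro k hk
      simp only [mem_iInter] at hω
      exact Set.indicator_of_notMem (hω k hk) _
    rw [h3]
    simp
  · rw [Set.indicator_of_notMem hω]
    positivity

variable {d : ℕ} {Z : Ω → Set (E d)} {ι : Type*} [Fintype ι] [DecidableEq ι]

open Classical in
/-- number of tuples in `F` agreeing with `k` on `S` -/
noncomputable def cnt {ι κ : Type*} (F : Finset (ι → κ)) (S : Finset ι) (k : ι → κ) : ℕ :=
  (F.filter fun k' => ∀ i ∈ S, k' i = k i).card

lemma real_tuple (hZ : IsPoisson P (mu d) Z) {h : ℝ} (hh : 0 < h)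
    (R : Finset (Fin d → ℤ)) : P.real (⋂ k ∈ R, occ Z h k) = pocc d h ^ R.card := by
  rw [measureReal_def, prob_inter_occ hZ hh, ENNReal.toReal_pow,
    ENNReal.toReal_ofReal (pocc_nonneg d hh)]

lemma exist_bound (hZ : IsPoisson P (mu d) Z) {h : ℝ} (hh : 0 < h) (hp : 0 < pocc d h)
    (F : Finset (ι → Fin d → ℤ)) (hF : F.Nonempty)
    (hcol : ∀ k ∈ F, ∀ k' ∈ F, ∀ i j, i ≠ j → k i ≠ k' j) (M : Finset ι → ℝ)
    (hM : ∀ S : Finset ι, S.Nonempty → ∀ k ∈ F, (cnt F S k : ℝ) ≤ M S) :
    P.real (⋂ k ∈ F, (⋂ i, occ Z h (k i))ᶜ) ≤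
      ∑ S ∈ (Finset.univ : Finset (Finset ι)).filter (fun S => S.Nonempty),
        M S / (F.card * pocc d h ^ S.card) := by
  classical
  set p := pocc d h with hpd
  set m := Fintype.card ι with hm
  have himg : ∀ k : ι → Fin d → ℤ, ⋂ i, occ Z h (k i) =
      ⋂ q ∈ Finset.univ.image k, occ Z h q := by
    intro k
    ext ω
    simp
  have hinj : ∀ k ∈ F, Function.Injective k := by
    intro k hk i j hij
    by_contra hne
    exact hcol k hk k hk i j hne hij
  have hmeas : ∀ k ∈ F, MeasurableSet (⋂ i, occ Z h (k i)) := fun k _ =>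
    MeasurableSet.iInter fun i => measurableSet_occ hZ hh _
  have hP1 : ∀ k ∈ F, P.real (⋂ i, occ Z h (k i)) = p ^ m := by
    intro k hk
    rw [himg, real_tuple hZ hh, Finset.card_image_of_injective _ (hinj k hk), Finset.card_univ]
  -- agreement set
  let S : (ι → Fin d → ℤ) → (ι → Fin d → ℤ) → Finset ι := fun k k' =>
    Finset.univ.filter fun i => k' i = k i
  have hP2 : ∀ k ∈ F, ∀ k' ∈ F, P.real ((⋂ i, occ Z h (k i)) ∩ ⋂ i, occ Z h (k' i)) *
      p ^ (S k k').card = p ^ (2 * m) := by
    intro k hk k' hk'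
    have h1 : (⋂ i, occ Z h (k i)) ∩ ⋂ i, occ Z h (k' i) =
        ⋂ q ∈ Finset.univ.image k ∪ Finset.univ.image k', occ Z h q := by
      ext ω
      simp only [mem_inter_iff, mem_iInter, Finset.mem_union, Finset.mem_image, Finset.mem_univ,
        true_and]
      constructor
      · rintro ⟨h1, h2⟩ q (⟨i, rfl⟩ | ⟨i, rfl⟩)
        · exact h1 i
        · exact h2 i
      · intro H
        exact ⟨fun i => H _ (Or.inl ⟨i, rfl⟩), fun i => H _ (Or.inr ⟨i, rfl⟩)⟩
    have h2 : Finset.univ.image k ∩ Finset.univ.image k' = (S k k').image k := by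
      ext q
      simp only [Finset.mem_inter, Finset.mem_image, Finset.mem_univ, true_and, S,
        Finset.mem_filter]
      constructor
      · rintro ⟨⟨i, rfl⟩, ⟨j, hj⟩⟩
        refine ⟨i, ?_, rfl⟩
        by_contra hne
        by_cases hij : i = j
        · subst hij; exact hne hj
        · exact hcol k hk k' hk' i j hij hj.symm
      · rintro ⟨i, hi, rfl⟩
        exact ⟨⟨i, rfl⟩, ⟨i, hi⟩⟩
    have h3 := Finset.card_union_add_card_inter (Finset.univ.image k) (Finset.univ.image k')
    rw [h2, Finset.card_image_of_injective _ (hinj k hk), Finset.card_image_of_injective _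
      (hinj k hk), Finset.card_image_of_injective _ (hinj k' hk'), Finset.card_univ] at h3
    rw [h1, real_tuple hZ hh, ← pow_add, h3, two_mul]
  have h0 := second_moment F (fun k => ⋂ i, occ Z h (k i)) hmeas hP1
  -- bound the inner sum
  have hinner : ∀ k ∈ F, ∑ k' ∈ F, (P.real ((⋂ i, occ Z h (k i)) ∩ ⋂ i, occ Z h (k' i)) -
      (p ^ m) ^ 2) ≤ ∑ T ∈ (Finset.univ : Finset (Finset ι)).filter (fun T => T.Nonempty),
        M T * (p ^ (2 * m) / p ^ T.card) := by
    intro k hk
    calc ∑ k' ∈ F, (P.real ((⋂ i, occ Z h (k i)) ∩ ⋂ i, occ Z h (k' i)) - (p ^ m) ^ 2)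
        ≤ ∑ k' ∈ F, ∑ T ∈ (Finset.univ : Finset (Finset ι)).filter (fun T => T.Nonempty),
          if S k k' = T then p ^ (2 * m) / p ^ T.card else 0 := by
          apply Finset.sum_le_sum
          intro k' hk'
          have h1 := hP2 k hk k' hk'
          have h2 : P.real ((⋂ i, occ Z h (k i)) ∩ ⋂ i, occ Z h (k' i)) =
              p ^ (2 * m) / p ^ (S k k').card := by
            rw [eq_div_iff (by positivity)]; exact h1
          rw [h2]
          by_cases hS : (S k k').Nonempty
          · rw [Finset.sum_ite_eq]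
            rw [if_pos (Finset.mem_filter.2 ⟨Finset.mem_univ _, hS⟩)]
            have : 0 ≤ (p ^ m) ^ 2 := by positivity
            linarith
          · rw [Finset.not_nonempty_iff_eq_empty] at hS
            rw [hS]
            have h3 : 0 ≤ ∑ T ∈ (Finset.univ : Finset (Finset ι)).filter (fun T => T.Nonempty),
                if ∅ = T then p ^ (2 * m) / p ^ T.card else 0 := by
              apply Finset.sum_nonneg
              intro T _
              split_ifs <;> positivity
            refine le_trans (le_of_eq ?_) h3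
            rw [Finset.card_empty, pow_zero, div_one, ← pow_mul, mul_comm]
            ring
      _ = ∑ T ∈ (Finset.univ : Finset (Finset ι)).filter (fun T => T.Nonempty),
          ∑ k' ∈ F, if S k k' = T then p ^ (2 * m) / p ^ T.card else 0 := Finset.sum_comm
      _ ≤ _ := by
          apply Finset.sum_le_sum
          intro T hT
          rw [← Finset.sum_filter, Finset.sum_const, nsmul_eq_mul]
          have h4 : ((F.filter fun k' => S k k' = T).card : ℝ) ≤ M T := by
            refine le_trans ?_ (hM T (Finset.mem_filter.1 hT).2 k hk)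
            unfold cnt
            norm_cast
            apply Finset.card_le_card
            intro k' hk'
            have h5 := Finset.mem_filter.1 hk'
            refine (@Finset.mem_filter _ _ (_) _ _).2 ⟨h5.1, fun i hi => ?_⟩
            rw [← h5.2] at hi
            exact (Finset.mem_filter.1 hi).2
          gcongr
  have h1 : P.real (⋂ k ∈ F, (⋂ i, occ Z h (k i))ᶜ) * (F.card * p ^ m) ^ 2 ≤
      F.card * ∑ T ∈ (Finset.univ : Finset (Finset ι)).filter (fun T => T.Nonempty),
        M T * (p ^ (2 * m) / p ^ T.card) := by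
    refine h0.trans ((Finset.sum_le_sum hinner).trans ?_)
    rw [Finset.sum_const, nsmul_eq_mul]
  have hFc : (0 : ℝ) < F.card := by exact_mod_cast hF.card_pos
  have hpos : (0 : ℝ) < (F.card * p ^ m) ^ 2 := by positivity
  have h2 : (∑ S ∈ (Finset.univ : Finset (Finset ι)).filter (fun S => S.Nonempty),
        M S / (F.card * p ^ S.card)) * (F.card * p ^ m) ^ 2 =
      F.card * ∑ T ∈ (Finset.univ : Finset (Finset ι)).filter (fun T => T.Nonempty),
        M T * (p ^ (2 * m) / p ^ T.card) := by
    rw [Finset.sum_mul, Finset.mul_sum]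
    apply Finset.sum_congr rfl
    intro T _
    rw [mul_pow, ← pow_mul, mul_comm m 2]
    field_simp
  rw [← h2] at h1
  exact le_of_mul_le_mul_right h1 hpos

end Pool.Agent.H95w
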