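import Pool.Agent.H95w.Lower

namespace Pool.Agent.H95w

open MeasureTheory ProbabilityTheory Set Metric Matrix
open scoped InnerProductSpace ENNReal NNReal Topology

lemma exists_inj_choice (n : ℕ) (A : Fin n → Set ℝ) (hA : ∀ i, (A i).Infinite) :
    ∃ f : Fin n → ℝ, Function.Injective f ∧ ∀ i, f i ∈ A i := by
  induction n with
  | zero => exact ⟨Fin.elim0, fun i => i.elim0, fun i => i.elim0⟩
  | succ n ih =>
    obtain ⟨f, hf, hfA⟩ := ih (fun i => A i.succ) (fun i => hA _)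
    obtain ⟨x, hx, hxf⟩ := (hA 0).exists_notMem_finite (Set.finite_range f)
    refine ⟨Fin.cons x f, ?_, ?_⟩
    · rw [Fin.cons_injective_iff]
      exact ⟨hxf, hf⟩
    · intro i
      refine Fin.cases ?_ (fun i => ?_) i
      · simpa using hx
      · simpa using hfA i

lemma det_gram_smul' {V : Type*} [NormedAddCommGroup V] [InnerProductSpace ℝ V] {ι : Type*}
    [Fintype ι] [DecidableEq ι] (s : ι → ℝ) (p : ι → V) :
    (gram ℝ (fun i => s i • p i)).det = (∏ i, s i) ^ 2 * (gram ℝ p).det := by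
  have : gram ℝ (fun i => s i • p i) = Matrix.diagonal s * gram ℝ p * Matrix.diagonal s := by
    ext i j
    rw [Matrix.mul_diagonal, Matrix.diagonal_mul]
    simp only [gram_apply, inner_smul_left, inner_smul_right]
    simp
    ring
  rw [this, Matrix.det_mul, Matrix.det_mul, Matrix.det_diagonal]
  ring

/-- A near optimal configuration in general position. -/
lemma exists_config (ε : ℝ) (hε : 0 < ε) : ∃ (D m : ℕ) (P : Fin m → E D) (u : E D)
    (a b : Fin m → ℝ), ‖u‖ = 1 ∧ (∀ i, 0 ≤ a i) ∧ (∀ i, 0 ≤ b i) ∧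
    (∀ S : Finset (Fin m), S.Nonempty → 1 < (gram ℝ (fun i : S => P i)).det) ∧
    Function.Injective (fun i => ‖P i‖) ∧ Jval P u a b < cc + ε := by
  obtain ⟨J, ⟨D, m, P, u, a, b, hu, ha, hb, hadm, rfl⟩, hJ⟩ :=
    exists_lt_of_csInf_lt ⟨2, two_mem_JSet⟩ (show cc < cc + ε / 2 by linarith)
  have hJ0 := Jval_nonneg P u ha hb
  obtain ⟨τ, hτ0, hτ⟩ : ∃ τ : ℝ, 0 < τ ∧ (1 + τ) * Jval P u a b < cc + ε := by
    refine ⟨ε / (2 * (Jval P u a b + 1)), by positivity, ?_⟩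
    have h1 : ε / (2 * (Jval P u a b + 1)) * Jval P u a b ≤ ε / 2 := by
      rw [div_mul_eq_mul_div, div_le_div_iff₀ (by positivity) (by positivity)]
      nlinarith
    linarith
  have hP1 : ∀ i, 1 ≤ ‖P i‖ := by
    intro i
    have h1 := hadm {i}
    have h2 : (gram ℝ (fun j : ({i} : Finset (Fin m)) => P j)).det = ‖P i‖ ^ 2 := by
      rw [Matrix.det_unique, gram_apply, real_inner_self_eq_norm_sq]
      congr 3
    rw [h2] at h1
    nlinarith [norm_nonneg (P i)]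
  obtain ⟨r, hr, hrA⟩ := exists_inj_choice m (fun i => Ioo ‖P i‖ ((1 + τ) * ‖P i‖)) (by
    intro i
    apply Set.Ioo_infinite
    have := hP1 i
    nlinarith)
  let s : Fin m → ℝ := fun i => r i / ‖P i‖
  have hs1 : ∀ i, 1 < s i := by
    intro i
    have h0 : 0 < ‖P i‖ := by linarith [hP1 i]
    simp only [s]
    rw [lt_div_iff₀ h0, one_mul]
    exact (hrA i).1
  have hs2 : ∀ i, s i ≤ 1 + τ := by
    intro i
    have h0 : 0 < ‖P i‖ := by linarith [hP1 i]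
    simp only [s]
    rw [div_le_iff₀ h0]
    exact (hrA i).2.le
  refine ⟨D, m, fun i => s i • P i, u, fun i => a i / s i, fun i => b i / s i, hu,
    fun i => div_nonneg (ha i) (by linarith [hs1 i]), fun i => div_nonneg (hb i)
      (by linarith [hs1 i]), ?_, ?_, ?_⟩
  · intro S hS
    have h1 := det_gram_smul' (fun i : S => s i) (fun i : S => P i)
    rw [h1]
    have h2 : 1 < ∏ i : S, s i := by
      have : Nonempty S := hS.to_subtype
      have h3 := Finset.prod_lt_prod_of_nonempty (s := (Finset.univ : Finset S))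
        (f := fun _ => (1 : ℝ)) (g := fun i : S => s i) (fun _ _ => one_pos) (fun i _ => hs1 i)
        Finset.univ_nonempty
      simpa using h3
    have h3 := hadm S
    nlinarith
  · intro i j hij
    simp only [norm_smul] at hij
    have e : ∀ i, ‖s i‖ * ‖P i‖ = r i := by
      intro i
      have h0 : 0 < ‖P i‖ := by linarith [hP1 i]
      rw [Real.norm_of_nonneg (by linarith [hs1 i])]
      simp only [s]
      field_simp
    rw [e, e] at hij
    exact hr hij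
  · refine lt_of_le_of_lt ?_ hτ
    unfold Jval
    have e1 : ∀ w : Fin m → ℝ, ∑ i, (w i / s i) • (s i • P i) = ∑ i, w i • P i := by
      intro w
      apply Finset.sum_congr rfl
      intro i _
      rw [smul_smul, div_mul_cancel₀ _ (by linarith [hs1 i])]
    have e2 : ∀ w : Fin m → ℝ, (∀ i, 0 ≤ w i) → ∑ i, (w i / s i) * (‖s i • P i‖ ^ 2 / 2) ≤
        (1 + τ) * ∑ i, w i * (‖P i‖ ^ 2 / 2) := by
      intro w hw
      rw [Finset.mul_sum]
      apply Finset.sum_le_sum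
      intro i _
      have h0 : 0 < s i := by linarith [hs1 i]
      rw [norm_smul, Real.norm_of_nonneg h0.le]
      have e3 : w i / s i * ((s i * ‖P i‖) ^ 2 / 2) = s i * (w i * (‖P i‖ ^ 2 / 2)) := by
        field_simp
      rw [e3]
      have := hw i
      have := hs2 i
      gcongr
    rw [e1, e1]
    have h1 := e2 a ha
    have h2 := e2 b hb
    have h3 := norm_nonneg (u - ∑ i, a i • P i)
    have h4 := norm_nonneg (-u - ∑ i, b i • P i)
    nlinarith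

lemma exists_unit_orth {d m : ℕ} (hd : m < d) (z : Fin m → E d) :
    ∃ ω : E d, ‖ω‖ = 1 ∧ ∀ i, ⟪ω, z i⟫_ℝ = 0 := by
  set W := Submodule.span ℝ (Set.range z) with hW
  have h1 : Module.finrank ℝ W ≤ m := by
    have := finrank_range_le_card (R := ℝ) z
    simpa [Set.finrank] using this
  have h2 := W.finrank_add_finrank_orthogonal
  have h3 : Module.finrank ℝ (E d) = d := finrank_euclideanSpace_fin
  have h4 : 0 < Module.finrank ℝ Wᗮ := by omega
  obtain ⟨x, hx⟩ := Module.finrank_pos_iff_exists_ne_zero.1 h4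
  have hx0 : (x : E d) ≠ 0 := fun h => hx (Subtype.ext h)
  have hxn : 0 < ‖(x : E d)‖ := norm_pos_iff.2 hx0
  refine ⟨‖(x : E d)‖⁻¹ • (x : E d), ?_, ?_⟩
  · rw [norm_smul, norm_inv, norm_norm, inv_mul_cancel₀ hxn.ne']
  · intro i
    rw [inner_smul_left]
    have h5 : ⟪z i, (x : E d)⟫_ℝ = 0 :=
      (Submodule.mem_orthogonal W (x : E d)).1 x.2 (z i) (Submodule.subset_span ⟨i, rfl⟩)
    rw [real_inner_comm] at h5
    rw [h5, mul_zero]

/-- Comparison of norms of combinations. -/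
lemma norm_comb_sq_le {D d : ℕ} {ι : Type*} [Fintype ι] (P : ι → E D) (z : ι → E d) {δ : ℝ}
    (h : ∀ i j, |⟪z i, z j⟫_ℝ - ⟪P i, P j⟫_ℝ| ≤ δ) (y : ι → ℝ) :
    |‖∑ i, y i • z i‖ ^ 2 - ‖∑ i, y i • P i‖ ^ 2| ≤ (∑ i, |y i|) ^ 2 * δ := by
  have e : ∀ {V : Type} [NormedAddCommGroup V] [InnerProductSpace ℝ V] (q : ι → V),
      ‖∑ i, y i • q i‖ ^ 2 = ∑ i, ∑ j, y i * y j * ⟪q i, q j⟫_ℝ := by
    intro V _ _ q
    rw [← real_inner_self_eq_norm_sq, sum_inner]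
    apply Finset.sum_congr rfl
    intro i _
    rw [inner_sum]
    apply Finset.sum_congr rfl
    intro j _
    rw [inner_smul_left, inner_smul_right]
    simp
    ring
  rw [e, e, ← Finset.sum_sub_distrib]
  refine (Finset.abs_sum_le_sum_abs _ _).trans ?_
  rw [sq, Finset.sum_mul_sum, Finset.sum_mul]
  apply Finset.sum_le_sum
  intro i _
  rw [← Finset.sum_sub_distrib, Finset.sum_mul]
  refine (Finset.abs_sum_le_sum_abs _ _).trans ?_
  apply Finset.sum_le_sum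
  intro j _
  rw [← mul_sub, abs_mul, abs_mul]
  gcongr
  exact h i j

/-- The transferred direction. -/
lemma transfer {D m : ℕ} (P : Fin m → E D) (u : E D) :
    ∃ c : Fin m → ℝ, ∀ (d : ℕ), m < d → ∀ (z : Fin m → E d) (t : ℝ), 0 ≤ t →
    (∀ i j, |⟪z i, z j⟫_ℝ - ⟪P i, P j⟫_ℝ| ≤ t ^ 2) →
    ∃ u' : E d, ∀ x : Fin m → ℝ,
      |‖u' - ∑ i, x i • z i‖ - ‖u - ∑ i, x i • P i‖| ≤ (∑ i, |c i - x i|) * t := by
  set W := Submodule.span ℝ (Set.range P) with hW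
  obtain ⟨c, hc⟩ := (Submodule.mem_span_range_iff_exists_fun ℝ).1
    (show (W.starProjection u) ∈ W from W.starProjection_apply_mem u)
  set w := u - ∑ i, c i • P i with hw
  have hwP : ∀ i, ⟪w, P i⟫_ℝ = 0 := by
    intro i
    rw [hw, hc]
    have := Submodule.sub_starProjection_mem_orthogonal (K := W) u
    have h5 := (Submodule.mem_orthogonal W _).1 this (P i) (Submodule.subset_span ⟨i, rfl⟩)
    rw [real_inner_comm] at h5
    exact h5
  refine ⟨c, fun d hd z t ht hz => ?_⟩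
  obtain ⟨ω, hω1, hω⟩ := exists_unit_orth hd z
  refine ⟨∑ i, c i • z i + ‖w‖ • ω, fun x => ?_⟩
  have e1 : ∑ i, c i • z i + ‖w‖ • ω - ∑ i, x i • z i = ∑ i, (c i - x i) • z i + ‖w‖ • ω := by
    simp only [sub_smul, Finset.sum_sub_distrib]
    abel
  have e2 : u - ∑ i, x i • P i = ∑ i, (c i - x i) • P i + w := by
    simp only [sub_smul, Finset.sum_sub_distrib, hw]
    abel
  have e3 : ‖∑ i, (c i - x i) • z i + ‖w‖ • ω‖ ^ 2 = ‖∑ i, (c i - x i) • z i‖ ^ 2 + ‖w‖ ^ 2 := by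
    rw [norm_add_sq_real]
    have : ⟪∑ i, (c i - x i) • z i, ‖w‖ • ω⟫_ℝ = 0 := by
      rw [sum_inner]
      apply Finset.sum_eq_zero
      intro i _
      rw [inner_smul_left, inner_smul_right, real_inner_comm, hω i]
      simp
    rw [this, norm_smul, norm_norm, hω1]
    ring
  have e4 : ‖∑ i, (c i - x i) • P i + w‖ ^ 2 = ‖∑ i, (c i - x i) • P i‖ ^ 2 + ‖w‖ ^ 2 := by
    rw [norm_add_sq_real]
    have : ⟪∑ i, (c i - x i) • P i, w⟫_ℝ = 0 := by
      rw [sum_inner]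
      apply Finset.sum_eq_zero
      intro i _
      rw [inner_smul_left, real_inner_comm, hwP i]
      simp
    rw [this]
    ring
  rw [e1, e2]
  have h1 := norm_comb_sq_le P z hz (fun i => c i - x i)
  set A := ‖∑ i, (c i - x i) • z i + ‖w‖ • ω‖ with hA
  set B := ‖∑ i, (c i - x i) • P i + w‖ with hB
  set Y := ∑ i, |c i - x i| with hY
  have hY0 : 0 ≤ Y := Finset.sum_nonneg fun i _ => abs_nonneg _
  have h2 : |A ^ 2 - B ^ 2| ≤ (Y * t) ^ 2 := by
    rw [e3, e4, mul_pow]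
    have : ‖∑ i, (c i - x i) • z i‖ ^ 2 + ‖w‖ ^ 2 - (‖∑ i, (c i - x i) • P i‖ ^ 2 + ‖w‖ ^ 2) =
      ‖∑ i, (c i - x i) • z i‖ ^ 2 - ‖∑ i, (c i - x i) • P i‖ ^ 2 := by ring
    rw [this]
    exact h1
  have hA0 : 0 ≤ A := norm_nonneg _
  have hB0 : 0 ≤ B := norm_nonneg _
  have hYt : 0 ≤ Y * t := by positivity
  rw [abs_le] at h2 ⊢
  constructor
  · by_contra hcon
    push Not at hcon
    nlinarith
  · by_contra hcon
    push Not at hcon
    nlinarith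

lemma zero_mem_cell {d : ℕ} (Z : Set (E d)) : (0 : E d) ∈ cell Z := by
  intro z _
  simp

lemma inner_le_of_cell {d : ℕ} {ι : Type*} [Fintype ι] {Z : Set (E d)} {ρ : ℝ}
    (hb : cell Z ⊆ closedBall 0 ρ) {z : ι → E d} (hz : ∀ i, z i ∈ Z) {a : ι → ℝ}
    (ha : ∀ i, 0 ≤ a i) (v : E d) {x : E d} (hx : x ∈ cell Z) :
    ⟪v, x⟫_ℝ ≤ ∑ i, a i * (‖z i‖ ^ 2 / 2) + ρ * ‖v - ∑ i, a i • z i‖ := by
  have h1 : ⟪v, x⟫_ℝ = ∑ i, a i * ⟪z i, x⟫_ℝ + ⟪v - ∑ i, a i • z i, x⟫_ℝ := by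
    rw [inner_sub_left, sum_inner]
    have : ∑ i, ⟪a i • z i, x⟫_ℝ = ∑ i, a i * ⟪z i, x⟫_ℝ := by
      apply Finset.sum_congr rfl
      intro i _
      rw [inner_smul_left]; simp
    rw [this]; ring
  rw [h1]
  apply add_le_add
  · apply Finset.sum_le_sum
    intro i _
    apply mul_le_mul_of_nonneg_left _ (ha i)
    have h2 := hx (z i) (hz i)
    have h3 : ‖x - z i‖ ^ 2 = ‖x‖ ^ 2 - 2 * ⟪x, z i⟫_ℝ + ‖z i‖ ^ 2 := norm_sub_sq_real x (z i)
    have h4 : ‖x‖ ^ 2 ≤ ‖x - z i‖ ^ 2 := by gcongr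
    rw [real_inner_comm]
    linarith
  · have h5 : ‖x‖ ≤ ρ := by simpa using hb hx
    calc ⟪v - ∑ i, a i • z i, x⟫_ℝ ≤ ‖v - ∑ i, a i • z i‖ * ‖x‖ := real_inner_le_norm _ _
      _ ≤ ‖v - ∑ i, a i • z i‖ * ρ := by gcongr
      _ = _ := by ring

/-- Upper bound of the width by the value of a transferred configuration. -/
lemma width_le {d : ℕ} {ι : Type*} [Fintype ι] {Z : Set (E d)} {ρ : ℝ}
    (hb : cell Z ⊆ closedBall 0 ρ) {z : ι → E d} (hz : ∀ i, z i ∈ Z) {a b : ι → ℝ}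
    (ha : ∀ i, 0 ≤ a i) (hb' : ∀ i, 0 ≤ b i) {v : E d} (hv : 0 < ‖v‖) :
    width (cell Z) * ‖v‖ ≤ (∑ i, a i * (‖z i‖ ^ 2 / 2) + ρ * ‖v - ∑ i, a i • z i‖) +
      (∑ i, b i * (‖z i‖ ^ 2 / 2) + ρ * ‖-v - ∑ i, b i • z i‖) := by
  set A := ∑ i, a i * (‖z i‖ ^ 2 / 2) + ρ * ‖v - ∑ i, a i • z i‖ with hA
  set B := ∑ i, b i * (‖z i‖ ^ 2 / 2) + ρ * ‖-v - ∑ i, b i • z i‖ with hB
  set v' := ‖v‖⁻¹ • v with hv'
  have hv1 : ‖v'‖ = 1 := by rw [hv', norm_smul, norm_inv, norm_norm, inv_mul_cancel₀ hv.ne']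
  have hne : (cell Z).Nonempty := ⟨0, zero_mem_cell Z⟩
  have h1 : sSup ((fun x => ⟪v', x⟫_ℝ) '' cell Z) ≤ ‖v‖⁻¹ * A := by
    apply csSup_le (hne.image _)
    rintro _ ⟨x, hx, rfl⟩
    simp only [hv', inner_smul_left]
    have := inner_le_of_cell hb hz ha v hx
    simp only [RCLike.conj_to_real]
    gcongr
  have h2 : -(‖v‖⁻¹ * B) ≤ sInf ((fun x => ⟪v', x⟫_ℝ) '' cell Z) := by
    apply le_csInf (hne.image _)
    rintro _ ⟨x, hx, rfl⟩
    simp only [hv', inner_smul_left]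
    have h3 := inner_le_of_cell hb hz hb' (-v) hx
    simp only [RCLike.conj_to_real]
    rw [inner_neg_left] at h3
    rw [neg_le, ← mul_neg]
    gcongr
  have h3 : width (cell Z) ≤ widthDir v' (cell Z) := by
    unfold width
    apply csInf_le
    · refine ⟨0, ?_⟩
      rintro _ ⟨y, hy, rfl⟩
      have hbd : Bornology.IsBounded ((fun x => ⟪y, x⟫_ℝ) '' cell Z) := by
        refine (isBounded_closedBall (x := (0 : ℝ)) (r := ‖y‖ * ρ)).subset ?_
        rintro _ ⟨z, hz, rfl⟩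
        rw [mem_closedBall, dist_zero_right]
        refine (norm_inner_le_norm _ _).trans ?_
        gcongr
        simpa using hb hz
      have h5 : ⟪y, (0 : E d)⟫_ℝ ≤ sSup ((fun x => ⟪y, x⟫_ℝ) '' cell Z) :=
        le_csSup hbd.bddAbove ⟨0, zero_mem_cell Z, rfl⟩
      have h6 : sInf ((fun x => ⟪y, x⟫_ℝ) '' cell Z) ≤ ⟪y, (0 : E d)⟫_ℝ :=
        csInf_le hbd.bddBelow ⟨0, zero_mem_cell Z, rfl⟩
      simp only [widthDir]
      linarith
    · exact ⟨v', by simpa using hv1, rfl⟩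
  have h4 : width (cell Z) ≤ ‖v‖⁻¹ * (A + B) := by
    refine h3.trans ?_
    unfold widthDir
    rw [mul_add]
    linarith
  calc width (cell Z) * ‖v‖ ≤ ‖v‖⁻¹ * (A + B) * ‖v‖ := by gcongr
    _ = A + B := by field_simp

/-- **Deterministic upper bound.** -/
theorem upper_det (ε : ℝ) (hε : 0 < ε) : ∃ (D m : ℕ) (P : Fin m → E D) (t : ℝ), 0 < t ∧
    (∀ S : Finset (Fin m), S.Nonempty → 1 < (gram ℝ (fun i : S => P i)).det) ∧
    Function.Injective (fun i => ‖P i‖) ∧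
    ∀ (d : ℕ), m < d → ∀ Z : Set (E d), cell Z ⊆ closedBall 0 (1 + t) →
    (∃ z : Fin m → E d, (∀ i, z i ∈ Z) ∧ ∀ i j, |⟪z i, z j⟫_ℝ - ⟪P i, P j⟫_ℝ| ≤ t ^ 2) →
    width (cell Z) ≤ cc + ε := by
  obtain ⟨D, m, P, u, a, b, hu, ha, hb, hadm, hinj, hJ⟩ := exists_config ε hε
  obtain ⟨c, hc⟩ := transfer P u
  set J := Jval P u a b with hJd
  set A₂ := ∑ i, (a i + b i) / 2 with hA₂
  set Y := ∑ i, |c i - a i| + ∑ i, |c i - -b i| with hY
  set Y₀ := ∑ i, |c i - 0| with hY₀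
  obtain ⟨t, ⟨ht1, ht2⟩, ht0⟩ : ∃ t : ℝ, ((1 + t) * (J + A₂ * t ^ 2 + Y * t) <
      (cc + ε) * (1 - Y₀ * t) ∧ 0 < 1 - Y₀ * t) ∧ 0 < t := by
    have h1 : ∀ᶠ t in 𝓝 (0 : ℝ), (1 + t) * (J + A₂ * t ^ 2 + Y * t) <
        (cc + ε) * (1 - Y₀ * t) := by
      apply ContinuousAt.eventually_lt
      · fun_prop
      · fun_prop
      · simpa using hJ
    have h2 : ∀ᶠ t in 𝓝 (0 : ℝ), 0 < 1 - Y₀ * t := by
      apply ContinuousAt.eventually_lt
      · fun_prop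
      · fun_prop
      · simp
    have h3 : ∀ᶠ t in 𝓝[>] (0 : ℝ), ((1 + t) * (J + A₂ * t ^ 2 + Y * t) <
      (cc + ε) * (1 - Y₀ * t) ∧ 0 < 1 - Y₀ * t) ∧ 0 < t :=
      ((h1.and h2).filter_mono nhdsWithin_le_nhds).and self_mem_nhdsWithin
    exact h3.exists
  refine ⟨D, m, P, t, ht0, hadm, hinj, ?_⟩
  intro d hd Z hZ ⟨z, hz, hzP⟩
  obtain ⟨u', hu'⟩ := hc d hd z t ht0.le hzP
  have k0 := hu' 0
  have k1 := hu' a
  have k2 := hu' (fun i => -b i)
  simp only [Pi.zero_apply, zero_smul, Finset.sum_const_zero, sub_zero] at k0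
  rw [hu] at k0
  have k0' : 1 - Y₀ * t ≤ ‖u'‖ := by
    have := (abs_le.1 k0).1
    simp only [hY₀, sub_zero]
    linarith
  have hv : 0 < ‖u'‖ := by linarith
  have hw := width_le hZ hz ha hb hv
  have k1' : ‖u' - ∑ i, a i • z i‖ ≤ ‖u - ∑ i, a i • P i‖ + (∑ i, |c i - a i|) * t := by
    have := (abs_le.1 k1).2; linarith
  have k2' : ‖-u' - ∑ i, b i • z i‖ ≤ ‖-u - ∑ i, b i • P i‖ + (∑ i, |c i - -b i|) * t := by
    have h1 : ‖-u' - ∑ i, b i • z i‖ = ‖u' - ∑ i, (-b i) • z i‖ := by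
      rw [← norm_neg]
      congr 1
      simp only [neg_smul, Finset.sum_neg_distrib]
      abel
    have h2 : ‖-u - ∑ i, b i • P i‖ = ‖u - ∑ i, (-b i) • P i‖ := by
      rw [← norm_neg]
      congr 1
      simp only [neg_smul, Finset.sum_neg_distrib]
      abel
    rw [h1, h2]
    have := (abs_le.1 k2).2; linarith
  have hzn : ∀ i, ‖z i‖ ^ 2 ≤ ‖P i‖ ^ 2 + t ^ 2 := by
    intro i
    have := (abs_le.1 (hzP i i)).2
    rw [real_inner_self_eq_norm_sq, real_inner_self_eq_norm_sq] at this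
    linarith
  have ksum : ∀ w : Fin m → ℝ, (∀ i, 0 ≤ w i) → ∑ i, w i * (‖z i‖ ^ 2 / 2) ≤
      ∑ i, w i * (‖P i‖ ^ 2 / 2) + (∑ i, w i / 2) * t ^ 2 := by
    intro w hw
    rw [Finset.sum_mul, ← Finset.sum_add_distrib]
    apply Finset.sum_le_sum
    intro i _
    have h1 := hzn i
    have h2 := hw i
    nlinarith
  have hwn : 0 ≤ width (cell Z) := by
    unfold width
    apply Real.sInf_nonneg
    rintro _ ⟨y, hy, rfl⟩
    have hbd : Bornology.IsBounded ((fun x => ⟪y, x⟫_ℝ) '' cell Z) := by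
      refine (isBounded_closedBall (x := (0 : ℝ)) (r := ‖y‖ * (1 + t))).subset ?_
      rintro _ ⟨z, hz, rfl⟩
      rw [mem_closedBall, dist_zero_right]
      refine (norm_inner_le_norm _ _).trans ?_
      gcongr
      simpa using hZ hz
    have h5 : ⟪y, (0 : E d)⟫_ℝ ≤ sSup ((fun x => ⟪y, x⟫_ℝ) '' cell Z) :=
      le_csSup hbd.bddAbove ⟨0, zero_mem_cell Z, rfl⟩
    have h6 : sInf ((fun x => ⟪y, x⟫_ℝ) '' cell Z) ≤ ⟪y, (0 : E d)⟫_ℝ :=
      csInf_le hbd.bddBelow ⟨0, zero_mem_cell Z, rfl⟩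
    simp only [widthDir]
    linarith
  have hA2 : (∑ i, a i / 2) + (∑ i, b i / 2) = A₂ := by
    rw [hA₂, ← Finset.sum_add_distrib]
    apply Finset.sum_congr rfl
    intro i _
    ring
  have q1 := ksum a ha
  have q2 := ksum b hb
  have hfin : width (cell Z) * ‖u'‖ ≤ (1 + t) * (J + A₂ * t ^ 2 + Y * t) := by
    refine hw.trans ?_
    have hs1 : 0 ≤ ∑ i, a i * (‖P i‖ ^ 2 / 2) :=
      Finset.sum_nonneg fun i _ => mul_nonneg (ha i) (by positivity)
    have hs2 : 0 ≤ ∑ i, b i * (‖P i‖ ^ 2 / 2) :=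
      Finset.sum_nonneg fun i _ => mul_nonneg (hb i) (by positivity)
    have hA20 : 0 ≤ A₂ := Finset.sum_nonneg fun i _ => by
      have := ha i
      have := hb i
      positivity
    have r1 : (1 + t) * ‖u' - ∑ i, a i • z i‖ ≤
        (1 + t) * (‖u - ∑ i, a i • P i‖ + (∑ i, |c i - a i|) * t) := by gcongr
    have r2 : (1 + t) * ‖-u' - ∑ i, b i • z i‖ ≤
        (1 + t) * (‖-u - ∑ i, b i • P i‖ + (∑ i, |c i - -b i|) * t) := by gcongr
    have r3 : A₂ * t ^ 2 ≤ (1 + t) * (A₂ * t ^ 2) := by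
      have : 0 ≤ A₂ * t ^ 2 := by positivity
      nlinarith
    have e1 : (1 + t) * (J + A₂ * t ^ 2 + Y * t) =
        (1 + t) * (∑ i, a i * (‖P i‖ ^ 2 / 2)) + (1 + t) * (∑ i, b i * (‖P i‖ ^ 2 / 2)) +
        (1 + t) * (‖u - ∑ i, a i • P i‖ + (∑ i, |c i - a i|) * t) +
        (1 + t) * (‖-u - ∑ i, b i • P i‖ + (∑ i, |c i - -b i|) * t) +
        (1 + t) * (A₂ * t ^ 2) := by
      rw [hJd, Jval, hY]; ring
    rw [e1]
    have r4 : (∑ i, a i / 2) * t ^ 2 + (∑ i, b i / 2) * t ^ 2 = A₂ * t ^ 2 := by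
      rw [← hA2]; ring
    nlinarith
  by_contra hcon
  push Not at hcon
  have h1 : width (cell Z) * (1 - Y₀ * t) ≤ width (cell Z) * ‖u'‖ := by gcongr
  have h2 : (cc + ε) * (1 - Y₀ * t) < width (cell Z) * (1 - Y₀ * t) := by gcongr
  linarith

end Pool.Agent.H95w
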