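import Pool.Agent.H95w.Schur

namespace Pool.Agent.H95w

open MeasureTheory ProbabilityTheory Set Metric Matrix
open scoped InnerProductSpace ENNReal NNReal Topology Kronecker

variable {ι : Type*} [Fintype ι] [DecidableEq ι]

/-- The linear map `z ↦ z B`. -/
noncomputable def TB (d : ℕ) (B : Matrix ι ι ℝ) : (ι → E d) →ₗ[ℝ] (ι → E d) where
  toFun z := fun j => ∑ i, B i j • z i
  map_add' x y := by
    funext j
    simp [smul_add, Finset.sum_add_distrib]
  map_smul' c x := by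
    funext j
    simp only [Pi.smul_apply, RingHom.id_apply, Finset.smul_sum]
    apply Finset.sum_congr rfl
    intro i _
    rw [smul_comm]

/-- coordinates -/
noncomputable def coordE (ι : Type*) (d : ℕ) : (ι → E d) ≃ₗ[ℝ] (ι × Fin d → ℝ) where
  toFun z := fun p => z p.1 p.2
  map_add' x y := by funext p; simp
  map_smul' c x := by funext p; simp
  invFun v := fun i => WithLp.toLp 2 fun k => v (i, k)
  left_inv z := by funext i; ext k; simp
  right_inv v := by funext p; simp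

lemma det_TB (d : ℕ) (B : Matrix ι ι ℝ) : LinearMap.det (TB d B) = B.det ^ d := by
  have h1 : (coordE ι d : (ι → E d) →ₗ[ℝ] (ι × Fin d → ℝ)) ∘ₗ TB d B ∘ₗ
      ((coordE ι d).symm : (ι × Fin d → ℝ) →ₗ[ℝ] (ι → E d)) =
      Matrix.toLin' (Bᵀ ⊗ₖ (1 : Matrix (Fin d) (Fin d) ℝ)) := by
    apply LinearMap.ext
    intro v
    funext p
    obtain ⟨j, k⟩ := p
    rw [Matrix.toLin'_apply, Matrix.mulVec, dotProduct, Fintype.sum_prod_type]
    simp only [LinearMap.comp_apply, LinearEquiv.coe_coe, coordE, TB,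
      LinearMap.coe_mk, AddHom.coe_mk, LinearEquiv.coe_symm_mk, Matrix.kroneckerMap_apply,
      Matrix.transpose_apply, Matrix.one_apply]
    simp only [mul_ite, mul_one, mul_zero, ite_mul, zero_mul, Finset.sum_ite_eq, Finset.mem_univ,
      if_true]
    rw [WithLp.ofLp_sum, Finset.sum_apply]
    apply Finset.sum_congr rfl
    intro i _
    simp
  have h2 := LinearMap.det_conj (TB d B) (coordE ι d)
  rw [← h2, h1, LinearMap.det_toLin', Matrix.det_kronecker, Matrix.det_transpose, Matrix.det_one]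
  simp

/-- normalised volume -/
noncomputable def nv {d : ℕ} (A : Set (ι → E d)) : ℝ := (volume A).toReal / kap d ^ Fintype.card ι

lemma kap_pos (d : ℕ) : 0 < kap d := by
  unfold kap
  apply ENNReal.toReal_pos
  · exact (measure_ball_pos volume 0 one_pos).ne'
  · exact measure_ball_lt_top.ne

omit [DecidableEq ι] in
lemma volume_balls (d : ℕ) (w : ι → E d) {r : ℝ} (hr : 0 < r) :
    volume (Set.pi univ fun j => ball (w j) r) =
      ENNReal.ofReal ((r ^ d * kap d) ^ Fintype.card ι) := by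
  rw [volume_pi, Measure.pi_pi]
  have : ∀ j, volume (ball (w j) r) = ENNReal.ofReal (r ^ d * kap d) := by
    intro j
    rw [Measure.addHaar_ball_of_pos volume (w j) hr, finrank_euclideanSpace_fin,
      ENNReal.ofReal_mul (by positivity), kap, ENNReal.ofReal_toReal measure_ball_lt_top.ne]
  simp only [this]
  rw [Finset.prod_const, Finset.card_univ, ENNReal.ofReal_pow]
  have := kap_pos d
  positivity

lemma volume_TB_preimage (d : ℕ) {B : Matrix ι ι ℝ} (hB : B.det ≠ 0) (A : Set (ι → E d)) :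
    volume (TB d B ⁻¹' A) = ENNReal.ofReal ((|B.det|⁻¹) ^ d) * volume A := by
  rw [Measure.addHaar_preimage_linearMap volume (by rw [det_TB]; exact pow_ne_zero _ hB), det_TB]
  congr 2
  rw [abs_inv, abs_pow, inv_pow]

lemma nv_TB_preimage (d : ℕ) {B : Matrix ι ι ℝ} (hB : B.det ≠ 0) (A : Set (ι → E d)) :
    nv (TB d B ⁻¹' A) = (|B.det|⁻¹) ^ d * nv A := by
  unfold nv
  rw [volume_TB_preimage d hB, ENNReal.toReal_mul, ENNReal.toReal_ofReal (by positivity)]
  ring

/-- (Vol1) -/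
lemma volume_lin (d : ℕ) {B : Matrix ι ι ℝ} (hB : B.det ≠ 0) (w : ι → E d) {r : ℝ} (hr : 0 < r) :
    volume {z : ι → E d | ∀ j, ‖∑ i, B i j • z i + w j‖ < r} =
      ENNReal.ofReal ((|B.det|⁻¹) ^ d * (r ^ d * kap d) ^ Fintype.card ι) := by
  have h1 : {z : ι → E d | ∀ j, ‖∑ i, B i j • z i + w j‖ < r} =
      TB d B ⁻¹' (Set.pi univ fun j => ball (-w j) r) := by
    ext z
    simp only [mem_ofPred_eq, mem_preimage, mem_pi, mem_univ, forall_true_left, mem_ball, TB,
      LinearMap.coe_mk, AddHom.coe_mk, dist_eq_norm, sub_neg_eq_add]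
  rw [h1, volume_TB_preimage d hB, volume_balls d (fun j => -w j) hr,
    ← ENNReal.ofReal_mul (by positivity)]

lemma nv_lin (d : ℕ) {B : Matrix ι ι ℝ} (hB : B.det ≠ 0) (w : ι → E d) {r : ℝ} (hr : 0 < r) :
    nv {z : ι → E d | ∀ j, ‖∑ i, B i j • z i + w j‖ < r} =
      (|B.det|⁻¹) ^ d * (r ^ d) ^ Fintype.card ι := by
  have hk := kap_pos d
  unfold nv
  rw [volume_lin d hB w hr, ENNReal.toReal_ofReal (by positivity), mul_pow, ← mul_assoc]
  field_simp

omit [DecidableEq ι] in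
lemma nv_nonneg {d : ℕ} (A : Set (ι → E d)) : 0 ≤ nv A := by
  have := kap_pos d
  unfold nv
  positivity

omit [DecidableEq ι] in
lemma nv_mono {d : ℕ} {A A' : Set (ι → E d)} (h : A ⊆ A') (hA' : volume A' ≠ ∞) :
    nv A ≤ nv A' := by
  have := kap_pos d
  unfold nv
  gcongr

omit [DecidableEq ι] in
lemma nv_union_le {d : ℕ} {A A' : Set (ι → E d)} (hA : volume A ≠ ∞) (hA' : volume A' ≠ ∞) :
    nv (A ∪ A') ≤ nv A + nv A' := by
  have := kap_pos d
  unfold nv
  rw [← add_div]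
  gcongr
  rw [← ENNReal.toReal_add hA hA']
  exact ENNReal.toReal_mono (ENNReal.add_ne_top.2 ⟨hA, hA'⟩) (measure_union_le _ _)

omit [DecidableEq ι] in
lemma nv_biUnion_le {d : ℕ} {κ : Type*} (F : Finset κ) (A : κ → Set (ι → E d))
    (hA : ∀ k ∈ F, volume (A k) ≠ ∞) : nv (⋃ k ∈ F, A k) ≤ ∑ k ∈ F, nv (A k) := by
  have := kap_pos d
  unfold nv
  rw [← Finset.sum_div]
  gcongr
  rw [← ENNReal.toReal_sum hA]
  exact ENNReal.toReal_mono ((ENNReal.sum_ne_top).2 hA) (measure_biUnion_finset_le _ _)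

lemma volume_lin_ne_top (d : ℕ) {B : Matrix ι ι ℝ} (hB : B.det ≠ 0) (w : ι → E d) {r : ℝ}
    (hr : 0 < r) : volume {z : ι → E d | ∀ j, ‖∑ i, B i j • z i + w j‖ < r} ≠ ∞ := by
  rw [volume_lin d hB w hr]
  exact ENNReal.ofReal_ne_top

omit [DecidableEq ι] in
lemma norm_lt_one_of (d : ℕ) {B : Matrix ι ι ℝ} {z : ι → E d}
    (h : ∀ j, (Bᵀ * gram ℝ z * B) j j < 1) (j : ι) : ‖∑ i, B i j • z i‖ < 1 := by
  have h1 := norm_comb_sq z B j
  have h2 := h j
  have h3 := norm_nonneg (∑ i, B i j • z i)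
  nlinarith

/-- The set of tuples with Gram matrix in a compact set with small determinants. -/
lemma gram_subset {K : Set (Matrix ι ι ℝ)} {F : Finset (Matrix ι ι ℝ)}
    (hF : ∀ G ∈ K, ∃ B ∈ F, ∀ j, (Bᵀ * G * B) j j < 1) (d : ℕ) :
    {z : ι → E d | gram ℝ z ∈ K} ⊆ ⋃ B ∈ F, {z : ι → E d | ∀ j, ‖∑ i, B i j • z i‖ < 1} := by
  intro z hz
  obtain ⟨B, hB, hBz⟩ := hF _ hz
  exact Set.mem_biUnion hB (norm_lt_one_of d hBz)

lemma nv_gram_le {K : Set (Matrix ι ι ℝ)} {F : Finset (Matrix ι ι ℝ)}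
    (hF0 : ∀ B ∈ F, B.det ≠ 0)
    (hF : ∀ G ∈ K, ∃ B ∈ F, ∀ j, (Bᵀ * G * B) j j < 1) (d : ℕ) :
    nv {z : ι → E d | gram ℝ z ∈ K} ≤ ∑ B ∈ F, (|B.det|⁻¹) ^ d := by
  have hset : ∀ B : Matrix ι ι ℝ, {z : ι → E d | ∀ j, ‖∑ i, B i j • z i‖ < 1} =
      {z : ι → E d | ∀ j, ‖∑ i, B i j • z i + (0 : ι → E d) j‖ < 1} := by
    intro B; simp
  have hfin : ∀ B ∈ F, volume {z : ι → E d | ∀ j, ‖∑ i, B i j • z i‖ < 1} ≠ ∞ := by
    intro B hB
    rw [hset]
    exact volume_lin_ne_top d (hF0 B hB) 0 one_pos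
  refine (nv_mono (gram_subset hF d) ?_).trans ((nv_biUnion_le F _ hfin).trans ?_)
  · exact ((measure_biUnion_finset_le F _).trans_lt
      (lt_top_iff_ne_top.2 ((ENNReal.sum_ne_top).2 hfin))).ne
  · apply Finset.sum_le_sum
    intro B hB
    rw [hset, nv_lin d (hF0 B hB) 0 one_pos]
    simp

lemma inv_abs_lt_sqrt {x θ : ℝ} (h0 : x ≠ 0) (h : 1 / x ^ 2 < θ) : |x|⁻¹ < √θ := by
  rw [Real.lt_sqrt (by positivity), inv_pow, sq_abs, ← one_div]
  exact h

/-- The bad set of near-orthonormality. -/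
def badK (ι : Type*) [Fintype ι] [DecidableEq ι] (δ : ℝ) : Set (Matrix ι ι ℝ) :=
  {G | G.PosSemidef ∧ (∀ i, G i i ≤ 1) ∧ ∃ i j, δ ≤ |G i j - (1 : Matrix ι ι ℝ) i j|}

lemma isCompact_of_bounded {K : Set (Matrix ι ι ℝ)} (hK : IsClosed K) (C : ℝ)
    (h : ∀ G ∈ K, G.PosSemidef ∧ ∀ i, G i i ≤ C) : IsCompact K := by
  have hsub : K ⊆ Set.pi univ fun _ => Set.pi univ fun _ => Icc (-C) C := by
    intro G hG i _ j _
    have h1 := (h G hG).1
    have h2 := (h G hG).2
    -- |G i j| ≤ C from positivity of the quadratic form on e_i ± e_j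
    have hq : ∀ s : ℝ, 0 ≤ G i i + 2 * s * G i j + s ^ 2 * G j j := by
      intro s
      have h3 := h1.dotProduct_mulVec_nonneg (Pi.single i 1 + s • Pi.single j 1)
      have hsym : G j i = G i j := by
        have := h1.1.apply i j
        simpa using this
      have h4 : star (Pi.single i 1 + s • Pi.single j (1 : ℝ)) ⬝ᵥ
          (G *ᵥ (Pi.single i 1 + s • Pi.single j 1)) =
          G i i + 2 * s * G i j + s ^ 2 * G j j := by
        simp only [star_trivial, Matrix.mulVec_add, Matrix.mulVec_smul, add_dotProduct,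
          dotProduct_add, smul_dotProduct, dotProduct_smul, single_dotProduct,
          Matrix.mulVec_single_one, Matrix.col_apply, smul_eq_mul, one_mul]
        rw [hsym]
        ring
      rwa [h4] at h3
    have h5 := hq 1
    have h6 := hq (-1)
    have h7 := h2 i
    have h8 := h2 j
    constructor <;> linarith
  exact (isCompact_univ_pi fun _ => isCompact_univ_pi fun _ => isCompact_Icc).of_isClosed_subset
    hK hsub

omit [DecidableEq ι] in
lemma isClosed_posSemidef : IsClosed {G : Matrix ι ι ℝ | G.PosSemidef} := by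
  have : {G : Matrix ι ι ℝ | G.PosSemidef} =
      {G : Matrix ι ι ℝ | Gᵀ = G} ∩ ⋂ x : ι → ℝ, {G : Matrix ι ι ℝ | 0 ≤ x ⬝ᵥ (G *ᵥ x)} := by
    ext G
    simp only [mem_ofPred_eq, mem_inter_iff, mem_iInter]
    rw [Matrix.posSemidef_iff_dotProduct_mulVec]
    simp [Matrix.IsHermitian, conjTranspose_eq_transpose_of_trivial]
  rw [this]
  apply IsClosed.inter
  · exact isClosed_eq (by fun_prop) (by fun_prop)
  · apply isClosed_iInter
    intro x
    apply isClosed_le continuous_const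
    unfold dotProduct Matrix.mulVec dotProduct
    fun_prop

lemma isCompact_badK (δ : ℝ) : IsCompact (badK ι δ) := by
  apply isCompact_of_bounded (C := 1)
  · have : badK ι δ = {G : Matrix ι ι ℝ | G.PosSemidef} ∩ ((⋂ i, {G : Matrix ι ι ℝ | G i i ≤ 1}) ∩
        ⋃ i, ⋃ j, {G : Matrix ι ι ℝ | δ ≤ |G i j - (1 : Matrix ι ι ℝ) i j|}) := by
      ext G
      simp only [badK, mem_ofPred_eq, mem_inter_iff, mem_iInter, mem_iUnion]
    rw [this]
    apply isClosed_posSemidef.inter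
    apply IsClosed.inter
    · apply isClosed_iInter
      intro i
      exact isClosed_le (by fun_prop) continuous_const
    · apply isClosed_iUnion_of_finite
      intro i
      apply isClosed_iUnion_of_finite
      intro j
      exact isClosed_le continuous_const (by fun_prop)
  · intro G hG
    exact ⟨hG.1, hG.2.1⟩

end Pool.Agent.H95w
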