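import Pool.Agent.H95w.Vol

namespace Pool.Agent.H95w

open MeasureTheory ProbabilityTheory Set Metric Matrix Filter
open scoped InnerProductSpace ENNReal NNReal Topology Kronecker

variable {ι : Type*} [Fintype ι] [DecidableEq ι]

lemma exists_theta {K : Set (Matrix ι ι ℝ)} (hK : IsCompact K) (h : ∀ G ∈ K, G.det < 1) :
    ∃ θ : ℝ, 0 < θ ∧ θ < 1 ∧ ∀ G ∈ K, G.det < θ := by
  rcases K.eq_empty_or_nonempty with rfl | hne
  · exact ⟨1 / 2, by norm_num, by norm_num, fun G hG => absurd hG (Set.notMem_empty G)⟩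
  · obtain ⟨G₀, hG₀, hmax⟩ := hK.exists_isMaxOn hne
      (f := fun G : Matrix ι ι ℝ => G.det) (Continuous.matrix_det continuous_id).continuousOn
    refine ⟨(max G₀.det 0 + 1) / 2, ?_, ?_, ?_⟩
    · have := le_max_right G₀.det 0
      linarith
    · have := h G₀ hG₀
      rcases max_cases G₀.det 0 with ⟨h1, _⟩ | ⟨h1, _⟩ <;> rw [h1] <;> linarith
    · intro G hG
      have h1 : G.det ≤ G₀.det := hmax hG
      have h2 := h G₀ hG₀
      have h3 := le_max_left G₀.det 0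
      rcases max_cases G₀.det 0 with ⟨h4, _⟩ | ⟨h4, _⟩ <;> rw [h4] <;> linarith

omit [Fintype ι] [DecidableEq ι] in
lemma eventually_sum_pow_le (F : Finset (Matrix ι ι ℝ)) (f : Matrix ι ι ℝ → ℝ)
    (h0 : ∀ B ∈ F, 0 ≤ f B) (h : ∀ B ∈ F, f B < 1) {ε : ℝ} (hε : 0 < ε) :
    ∀ᶠ d : ℕ in atTop, ∑ B ∈ F, f B ^ d ≤ ε := by
  have h1 : Tendsto (fun d : ℕ => ∑ B ∈ F, f B ^ d) atTop (𝓝 (∑ B ∈ F, (0 : ℝ))) :=
    tendsto_finsetSum _ fun B hB => tendsto_pow_atTop_nhds_zero_of_lt_one (h0 B hB) (h B hB)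
  rw [Finset.sum_const_zero] at h1
  exact (h1.eventually (ge_mem_nhds hε))

omit [DecidableEq ι] in
lemma gram_comb {V : Type*} [NormedAddCommGroup V] [InnerProductSpace ℝ V]
    (z : ι → V) (B : Matrix ι ι ℝ) :
    gram ℝ (fun j => ∑ i, B i j • z i) = Bᵀ * gram ℝ z * B := by
  ext j l
  rw [gram_apply, sum_inner, Matrix.mul_apply]
  simp only [inner_sum, inner_smul_left, inner_smul_right, Matrix.mul_apply, Matrix.transpose_apply,
    gram_apply, Finset.sum_mul]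
  rw [Finset.sum_comm]
  apply Finset.sum_congr rfl
  intro i _
  apply Finset.sum_congr rfl
  intro k _
  simp
  ring

/-- The set of nearly orthonormal tuples in the unit ball. -/
def nearO (ι : Type*) [Fintype ι] [DecidableEq ι] (d : ℕ) (δ : ℝ) : Set (ι → E d) :=
  {z | (∀ j, ‖z j‖ < 1) ∧ ∀ i j, |⟪z i, z j⟫_ℝ - (1 : Matrix ι ι ℝ) i j| < δ}

lemma nv_nearO {δ : ℝ} (hδ : 0 < δ) : ∀ᶠ d : ℕ in atTop, 1 / 2 ≤ nv (nearO ι d δ) := by
  have hdet : ∀ G ∈ badK ι δ, G.det < 1 := by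
    rintro G ⟨hG1, hG2, i, j, hij⟩
    apply det_lt_one hG1 hG2
    rintro rfl
    simp at hij
    linarith
  obtain ⟨θ, hθ0, hθ1, hθ⟩ := exists_theta (isCompact_badK (ι := ι) δ) hdet
  obtain ⟨F, hF1, hF2⟩ := exists_cover (isCompact_badK (ι := ι) δ) (θ := θ)
    (fun G hG => ⟨hG.1, hθ G hG⟩)
  have hev := eventually_sum_pow_le F (fun B => |B.det|⁻¹) (fun B _ => by positivity)
    (fun B hB => (inv_abs_lt_sqrt (hF1 B hB).1 (hF1 B hB).2).trans_le
      (Real.sqrt_le_one.2 hθ1.le)) (ε := 1 / 2) (by norm_num)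
  filter_upwards [hev] with d hd
  have h1 : nv {z : ι → E d | ∀ j, ‖∑ i, (1 : Matrix ι ι ℝ) i j • z i + (0 : ι → E d) j‖ < 1} =
      1 := by
    rw [nv_lin d (by simp) 0 one_pos]; simp
  have h2 : {z : ι → E d | ∀ j, ‖∑ i, (1 : Matrix ι ι ℝ) i j • z i + (0 : ι → E d) j‖ < 1} =
      {z : ι → E d | ∀ j, ‖z j‖ < 1} := by
    ext z
    simp [Matrix.one_apply]
  rw [h2] at h1
  have hballs : volume {z : ι → E d | ∀ j, ‖z j‖ < 1} ≠ ∞ := by
    rw [← h2]
    exact volume_lin_ne_top d (by simp) 0 one_pos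
  have h3 : {z : ι → E d | ∀ j, ‖z j‖ < 1} ⊆ nearO ι d δ ∪
      ({z : ι → E d | ∀ j, ‖z j‖ < 1} ∩ {z : ι → E d | gram ℝ z ∈ badK ι δ}) := by
    intro z hz
    by_cases hc : ∀ i j, |⟪z i, z j⟫_ℝ - (1 : Matrix ι ι ℝ) i j| < δ
    · exact Or.inl ⟨hz, hc⟩
    · right
      push Not at hc
      refine ⟨hz, posSemidef_gram (𝕜 := ℝ) z, ?_, ?_⟩
      · intro i
        rw [gram_apply, real_inner_self_eq_norm_sq]
        have h4 := hz i
        have h5 := norm_nonneg (z i)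
        nlinarith
      · exact hc
  have hn1 : volume (nearO ι d δ) ≠ ∞ :=
    ((measure_mono (fun z hz => hz.1)).trans_lt (lt_top_iff_ne_top.2 hballs)).ne
  have hn2 : volume ({z : ι → E d | ∀ j, ‖z j‖ < 1} ∩ {z : ι → E d | gram ℝ z ∈ badK ι δ}) ≠ ∞ :=
    ((measure_mono (fun z hz => hz.1)).trans_lt (lt_top_iff_ne_top.2 hballs)).ne
  have hset : ∀ B : Matrix ι ι ℝ, {z : ι → E d | ∀ j, ‖∑ i, B i j • z i‖ < 1} =
      {z : ι → E d | ∀ j, ‖∑ i, B i j • z i + (0 : ι → E d) j‖ < 1} := by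
    intro B; simp
  have hfin : ∀ B ∈ F, volume {z : ι → E d | ∀ j, ‖∑ i, B i j • z i‖ < 1} ≠ ∞ := by
    intro B hB
    rw [hset]
    exact volume_lin_ne_top d (hF1 B hB).1 0 one_pos
  have hn3 : volume {z : ι → E d | gram ℝ z ∈ badK ι δ} ≠ ∞ :=
    ((measure_mono (gram_subset hF2 d)).trans_lt ((measure_biUnion_finset_le F _).trans_lt
      (lt_top_iff_ne_top.2 ((ENNReal.sum_ne_top).2 hfin)))).ne
  have h4 : (1 : ℝ) ≤ nv (nearO ι d δ) + 1 / 2 := by
    calc (1 : ℝ) = nv {z : ι → E d | ∀ j, ‖z j‖ < 1} := h1.symm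
      _ ≤ nv (nearO ι d δ ∪
        ({z : ι → E d | ∀ j, ‖z j‖ < 1} ∩ {z : ι → E d | gram ℝ z ∈ badK ι δ})) :=
          nv_mono h3 ((measure_union_le _ _).trans_lt
            (lt_top_iff_ne_top.2 (ENNReal.add_ne_top.2 ⟨hn1, hn2⟩))).ne
      _ ≤ nv (nearO ι d δ) +
        nv ({z : ι → E d | ∀ j, ‖z j‖ < 1} ∩ {z : ι → E d | gram ℝ z ∈ badK ι δ}) :=
          nv_union_le hn1 hn2
      _ ≤ nv (nearO ι d δ) + nv {z : ι → E d | gram ℝ z ∈ badK ι δ} := by
          gcongr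
          exact nv_mono Set.inter_subset_right hn3
      _ ≤ nv (nearO ι d δ) + 1 / 2 := by
          gcongr
          exact (nv_gram_le (fun B hB => (hF1 B hB).1) hF2 d).trans hd
  linarith

/-- The set of tuples with Gram matrix close to that of `P`. -/
def nearP {D : ℕ} (P : ι → E D) (d : ℕ) (δ : ℝ) : Set (ι → E d) :=
  {z | ∀ i j, |⟪z i, z j⟫_ℝ - ⟪P i, P j⟫_ℝ| ≤ δ}

omit [Fintype ι] [DecidableEq ι] in
lemma nearP_bounded {D : ℕ} {P : ι → E D} {d : ℕ} {δ : ℝ} (h0 : 0 ≤ δ) {z : ι → E d}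
    (hz : z ∈ nearP P d δ) (i : ι) : ‖z i‖ ≤ ‖P i‖ + δ + 1 := by
  have h1 := (abs_le.1 (hz i i)).2
  rw [real_inner_self_eq_norm_sq, real_inner_self_eq_norm_sq] at h1
  have h2 := norm_nonneg (z i)
  have h3 := norm_nonneg (P i)
  nlinarith

/-- (V2) -/
lemma nv_nearP_ge {D : ℕ} {P : ι → E D} (hP : (gram ℝ P).det ≠ 0) {δ : ℝ} (hδ : 0 < δ) :
    ∀ᶠ d : ℕ in atTop, 1 / 2 * (√(gram ℝ P).det) ^ d ≤ nv (nearP P d δ) := by
  have hPD : (gram ℝ P).PosDef :=
    posDef_gram_of_linearIndependent (det_gram_ne_zero_iff_linearIndependent.1 hP)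
  obtain ⟨B, hB⟩ := exists_congr_one hPD
  have hdet : B.det ^ 2 * (gram ℝ P).det = 1 := by
    have := congrArg Matrix.det hB
    rw [Matrix.det_mul, Matrix.det_mul, Matrix.det_transpose, Matrix.det_one] at this
    linarith
  have hB0 : B.det ≠ 0 := by
    intro h
    rw [h] at hdet
    simp at hdet
  have hBd : |B.det|⁻¹ = √(gram ℝ P).det := by
    rw [eq_comm, Real.sqrt_eq_iff_mul_self_eq_of_pos (by positivity), ← sq, inv_pow, sq_abs]
    field_simp
    linarith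
  set W := B⁻¹ with hW
  have hBW : B * W = 1 := Matrix.mul_nonsing_inv _ (isUnit_iff_ne_zero.2 hB0)
  set C := ∑ k, ∑ l, |W k l| with hC
  have hC0 : 0 ≤ C := Finset.sum_nonneg fun _ _ => Finset.sum_nonneg fun _ _ => abs_nonneg _
  set δ₁ := δ / (C ^ 2 + 1) with hδ₁
  have hδ₁0 : 0 < δ₁ := by positivity
  filter_upwards [nv_nearO (ι := ι) hδ₁0] with d hd
  have hsub : TB d B ⁻¹' (nearO ι d δ₁) ⊆ nearP P d δ := by
    intro z hz i j
    have h1 : ∀ k l, |⟪TB d B z k, TB d B z l⟫_ℝ - (1 : Matrix ι ι ℝ) k l| < δ₁ := hz.2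
    have h2 : gram ℝ (TB d B z) = Bᵀ * gram ℝ z * B := gram_comb z B
    have h3 : gram ℝ z = Wᵀ * gram ℝ (TB d B z) * W := by
      rw [h2]
      have e : Wᵀ * (Bᵀ * gram ℝ z * B) * W = (Wᵀ * Bᵀ) * gram ℝ z * (B * W) := by
        simp only [Matrix.mul_assoc]
      rw [e, ← Matrix.transpose_mul, hBW]
      simp
    have h4 : gram ℝ P = Wᵀ * 1 * W := by
      rw [← hB]
      have e : Wᵀ * (Bᵀ * gram ℝ P * B) * W = (Wᵀ * Bᵀ) * gram ℝ P * (B * W) := by
        simp only [Matrix.mul_assoc]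
      rw [e, ← Matrix.transpose_mul, hBW]
      simp
    have h5 : ⟪z i, z j⟫_ℝ - ⟪P i, P j⟫_ℝ = ∑ l, ∑ k, W k i * (⟪TB d B z k, TB d B z l⟫_ℝ -
        (1 : Matrix ι ι ℝ) k l) * W l j := by
      have e1 : ⟪z i, z j⟫_ℝ = gram ℝ z i j := rfl
      have e2 : ⟪P i, P j⟫_ℝ = gram ℝ P i j := rfl
      rw [e1, e2, h3, h4, ← Matrix.sub_apply, ← Matrix.sub_mul, ← Matrix.mul_sub,
        Matrix.mul_apply]
      apply Finset.sum_congr rfl
      intro l _
      rw [Matrix.mul_apply, Finset.sum_mul]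
      rfl
    rw [h5]
    have h6 : ∀ i, ∑ k, |W k i| ≤ C := by
      intro i
      rw [hC]
      apply Finset.sum_le_sum
      intro k _
      exact Finset.single_le_sum (f := fun l => |W k l|) (fun l _ => abs_nonneg _)
        (Finset.mem_univ i)
    calc |∑ l, ∑ k, W k i * (⟪TB d B z k, TB d B z l⟫_ℝ - (1 : Matrix ι ι ℝ) k l) * W l j|
        ≤ ∑ l, ∑ k, |W k i| * δ₁ * |W l j| := by
          refine (Finset.abs_sum_le_sum_abs _ _).trans (Finset.sum_le_sum fun l _ => ?_)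
          refine (Finset.abs_sum_le_sum_abs _ _).trans (Finset.sum_le_sum fun k _ => ?_)
          rw [abs_mul, abs_mul]
          gcongr
          exact (h1 k l).le
      _ = (∑ k, |W k i|) * (∑ l, |W l j|) * δ₁ := by
          rw [Finset.sum_mul_sum, Finset.sum_comm, Finset.sum_mul]
          apply Finset.sum_congr rfl
          intro k _
          rw [Finset.sum_mul]
          apply Finset.sum_congr rfl
          intro l _
          ring
      _ ≤ C * C * δ₁ := by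
          exact mul_le_mul_of_nonneg_right (mul_le_mul (h6 i) (h6 j)
            (Finset.sum_nonneg fun _ _ => abs_nonneg _) hC0) hδ₁0.le
      _ ≤ δ := by
          rw [hδ₁, ← sq, mul_div_assoc', div_le_iff₀ (by positivity)]
          nlinarith
  have hfin : volume (nearP P d δ) ≠ ∞ := by
    have hb : nearP P d δ ⊆ Set.pi univ fun i => closedBall (0 : E d) (‖P i‖ + δ + 1) := by
      intro z hz i _
      rw [mem_closedBall, dist_zero_right]
      exact nearP_bounded hδ.le hz i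
    refine ((measure_mono hb).trans_lt ?_).ne
    rw [volume_pi, Measure.pi_pi]
    exact ENNReal.prod_lt_top fun i _ => measure_closedBall_lt_top
  calc 1 / 2 * (√(gram ℝ P).det) ^ d ≤ nv (nearO ι d δ₁) * (√(gram ℝ P).det) ^ d := by gcongr
    _ = nv (TB d B ⁻¹' (nearO ι d δ₁)) := by rw [nv_TB_preimage d hB0, hBd]; ring
    _ ≤ nv (nearP P d δ) := nv_mono hsub hfin

end Pool.Agent.H95w
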